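import Mathlib

/-!
# Definitions for the limiting total domination ratio of claw-free cubic graphs
-/

namespace Pool.Agent.MP_d479ed_co

/-- Cubic graphs: every vertex has exactly three neighbours. -/
def Cubic {V : Type} (G : SimpleGraph V) : Prop := ∀ v, (G.neighborSet v).ncard = 3

/-- Claw-free graphs: no vertex has three distinct pairwise non-adjacent neighbours, i.e. there
is no induced `K_{1,3}`. -/
def ClawFree {V : Type} (G : SimpleGraph V) : Prop :=
  ∀ v a b c, G.Adj v a → G.Adj v b → G.Adj v c → a ≠ b → a ≠ c → b ≠ c →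
    G.Adj a b ∨ G.Adj a c ∨ G.Adj b c

/-- The total domination number: the minimum size of a set `S` of vertices such that every vertex
has at least one neighbour in `S`. -/
noncomputable def totalDom {V : Type} (G : SimpleGraph V) : ℕ :=
  sInf {m : ℕ | ∃ S : Finset V, (∀ v, ∃ w ∈ S, G.Adj v w) ∧ S.card = m}

/-- `ft k` is the supremum of `γ_t(G) / n(G)` over all finite connected claw-free cubic graphs `G`
with `n(G) ≥ 2 k` vertices. -/
noncomputable def ft (k : ℕ) : ℝ :=
  sSup {r : ℝ | ∃ (V : Type) (_ : Fintype V) (G : SimpleGraph V), G.Connected ∧ Cubic G ∧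
    ClawFree G ∧ 2 * k ≤ Fintype.card V ∧ r = (totalDom G : ℝ) / (Fintype.card V : ℝ)}

end Pool.Agent.MP_d479ed_co
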