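import Pool.Agent.MP_d479ed_co.Pair

namespace Pool.Agent.MP_d479ed_co

open Finset

/-- Label of the link obtained by removing a diamond between links with labels `k1, k2`. -/
def comp (k1 k2 : ℕ) : ℕ := (k1 + k2) % 4 + 1

/-- Constraints and cost of a diamond `a, b, c, e`. -/
def dok (sa da sb sc se de : Bool) : Bool :=
  (da || sb || sc) && (de || sb || sc) && (sa || sc || se) && (sa || sb || se)

lemma dia_table : ∀ k1 k2 : Fin 5, ∀ sp dp sq dq : Bool, ∃ sa da sb sc se de : Bool,
    dok sa da sb sc se de = true ∧ lok k1 sa da dp sp = true ∧ lok k2 se de dq sq = true ∧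
    12 * (bi sa + bi sb + bi sc + bi se) - 20 + 2 * hE k1 sa da dp sp + 2 * hE k2 se de dq sq ≤
      2 * hE (comp k1 k2) sp dp dq sq := by
  decide +kernel

lemma dia_loop : ∀ k : Fin 4, ∃ sa da sb sc se de : Bool,
    dok sa da sb sc se de = true ∧ lok (k + 1) sa da de se = true ∧
    12 * (bi sa + bi sb + bi sc + bi se) - 20 + 2 * hE (k + 1) sa da de se ≤ 8 := by
  decide +kernel

/-- Update a function at four points. -/
def upd4 {P : Type} [DecidableEq P] {α : Type} (f : P → α) (a b c e : P) (va vb vc ve : α) :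
    P → α :=
  fun p => if p = a then va else if p = b then vb else if p = c then vc else
    if p = e then ve else f p

namespace Net

variable {P N : Type} [Fintype P] [DecidableEq P] [DecidableEq N]

/-- The node `x` is a triangle. -/
def Tri (node : P → N) (inner : P → Prop) (adj : P → P → Prop) (x : N) : Prop :=
  ∃ p1 p2 p3, p1 ≠ p2 ∧ p1 ≠ p3 ∧ p2 ≠ p3 ∧ (∀ p, node p = x ↔ p = p1 ∨ p = p2 ∨ p = p3) ∧
    ¬ inner p1 ∧ ¬ inner p2 ∧ ¬ inner p3 ∧ (∀ p q, node p = x → node q = x → p ≠ q → adj p q)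

/-- The node `x` is a diamond `a, b, c, e` with inner vertices `b, c`. -/
def Dia (node : P → N) (inner : P → Prop) (adj : P → P → Prop) (x : N) : Prop :=
  ∃ a b c e, a ≠ b ∧ a ≠ c ∧ a ≠ e ∧ b ≠ c ∧ b ≠ e ∧ c ≠ e ∧
    (∀ p, node p = x ↔ p = a ∨ p = b ∨ p = c ∨ p = e) ∧
    ¬ inner a ∧ inner b ∧ inner c ∧ ¬ inner e ∧
    adj a b ∧ adj a c ∧ adj b a ∧ adj b c ∧ adj b e ∧ adj c a ∧ adj c b ∧ adj c e ∧
    adj e b ∧ adj e c

/-- Standing hypotheses on a network with triangles and diamonds. -/
structure Good1 (M : Net P N) (inner : P → Prop) (adj : P → P → Prop) (A : Finset N) : Prop where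
  mem : ∀ p, M.node p ∈ A → ¬ inner p → M.node (M.mate p) ∈ A
  ninner : ∀ p, M.node p ∈ A → ¬ inner p → ¬ inner (M.mate p)
  inv : ∀ p, M.node p ∈ A → ¬ inner p → M.mate (M.mate p) = p
  ne : ∀ p, M.node p ∈ A → ¬ inner p → M.mate p ≠ p
  lab_mate : ∀ p, M.node p ∈ A → ¬ inner p → M.lab (M.mate p) = M.lab p
  lab_lt : ∀ p, M.node p ∈ A → ¬ inner p → M.lab p < 5
  loop : ∀ p, M.node p ∈ A → ¬ inner p → M.node (M.mate p) = M.node p → M.lab p ≠ 0
  unit : ∀ x ∈ A, Tri M.node inner adj x ∨ Dia M.node inner adj x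

/-- Connectivity. -/
def Conn1 (M : Net P N) (inner : P → Prop) (A : Finset N) : Prop :=
  ∀ B ⊆ A, B.Nonempty → (∀ p, M.node p ∈ B → ¬ inner p → M.node (M.mate p) ∈ B) → B = A

/-- Validity. -/
def valid1 (M : Net P N) (inner : P → Prop) (adj : P → P → Prop) (A : Finset N)
    (s d : P → Bool) : Prop :=
  ∀ p, M.node p ∈ A →
    ((¬ inner p ∧ d p = true) ∨ ∃ q, M.node q = M.node p ∧ adj p q ∧ s q = true) ∧
    (¬ inner p → lok (M.lab p) (s p) (d p) (d (M.mate p)) (s (M.mate p)) = true)

/-- Link term. -/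
def term1 (M : Net P N) (inner : P → Prop) [DecidablePred inner] (s d : P → Bool) (p : P) : ℤ :=
  if inner p then 0 else hE (M.lab p) (s p) (d p) (d (M.mate p)) (s (M.mate p))

/-- Cost. -/
def cost1 (M : Net P N) (inner : P → Prop) [DecidablePred inner] (A : Finset N)
    (s d : P → Bool) : ℤ :=
  ∑ p ∈ M.pt A, (12 * bi (s p) - 5 + term1 M inner s d p)

variable {inner : P → Prop} [DecidablePred inner] {adj : P → P → Prop}

/-- Networks without diamonds. -/
lemma base1 {M : Net P N} {A : Finset N} (hG : Good1 M inner adj A) (hC : Conn1 M inner A)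
    (hne : A.Nonempty) (hT : ∀ x ∈ A, Tri M.node inner adj x) :
    ∃ s d, valid1 M inner adj A s d ∧ cost1 M inner A s d ≤ 8 := by
  have hni : ∀ p, M.node p ∈ A → ¬ inner p := by
    intro p hp
    obtain ⟨p1, p2, p3, -, -, -, hF, h1, h2, h3, -⟩ := hT _ hp
    rcases (hF p).1 rfl with h | h | h
    · rw [h]; exact h1
    · rw [h]; exact h2
    · rw [h]; exact h3
  have hG2 : M.Good A := by
    refine ⟨fun p hp => hG.mem p hp (hni p hp), fun p hp => hG.inv p hp (hni p hp),
      fun p hp => hG.ne p hp (hni p hp), fun p hp => hG.lab_mate p hp (hni p hp),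
      fun p hp => hG.lab_lt p hp (hni p hp), fun p hp => hG.loop p hp (hni p hp), ?_⟩
    intro x hx
    obtain ⟨p1, p2, p3, h12, h13, h23, hF, -⟩ := hT x hx
    exact ⟨p1, p2, p3, h12, h13, h23, hF⟩
  have hC2 : M.Conn A := by
    intro B hB hBne hcl
    refine hC B hB hBne ?_
    intro p hp _
    by_cases h : M.node p = M.node (M.mate p)
    · rw [← h]; exact hp
    · exact hcl _ hp _ (hG2.mem p (hB hp)) ⟨h, p, rfl, rfl⟩
  obtain ⟨s, d, hv, hc⟩ := net_main hG2 A.card A (Finset.Subset.refl _) rfl hne hC2 (fun _ => 0)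
    (fun _ _ => by norm_num)
  refine ⟨s, d, ?_, ?_⟩
  · intro p hp
    obtain ⟨v1, v2, -⟩ := hv p hp
    refine ⟨?_, fun _ => v2 (hG2.mem p hp)⟩
    rcases v1 with h | ⟨q, hq, hqn, hqs⟩
    · exact Or.inl ⟨hni p hp, h⟩
    · right
      obtain ⟨p1, p2, p3, -, -, -, -, -, -, -, hadj⟩ := hT _ hp
      exact ⟨q, hqn, hadj p q rfl hqn hq.symm, hqs⟩
  · have : cost1 M inner A s d = M.cost A (fun _ => 0) s d := by
      unfold cost1 cost
      apply Finset.sum_congr rfl
      intro p hp
      rw [mem_pt] at hp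
      unfold term1 term
      rw [if_neg (hni p hp), if_pos (hG2.mem p hp)]
    rw [this]; linarith


section step

variable {M : Net P N} {A : Finset N} (hG : Good1 M inner adj A) (hC : Conn1 M inner A)
  {x : N} (hx : x ∈ A) {a b c e : P} (hab : a ≠ b) (hac : a ≠ c) (hae : a ≠ e) (hbc : b ≠ c)
  (hbe : b ≠ e) (hce : c ≠ e) (hF : ∀ p, M.node p = x ↔ p = a ∨ p = b ∨ p = c ∨ p = e)
  (ha : ¬ inner a) (hb : inner b) (hc : inner c) (he : ¬ inner e)
  (g1 : adj a b) (g2 : adj a c) (g3 : adj b a) (g4 : adj b c) (g5 : adj b e) (g6 : adj c a)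
  (g7 : adj c b) (g8 : adj c e) (g9 : adj e b) (g10 : adj e c)

omit [Fintype P] [DecidableEq N] in
lemma upd4_a {α : Type} (f : P → α) (a b c e : P) (va vb vc ve : α) :
    upd4 f a b c e va vb vc ve a = va := by simp [upd4]

omit [Fintype P] [DecidableEq N] in
lemma upd4_ne {α : Type} (f : P → α) {a b c e p : P} (va vb vc ve : α) (h1 : p ≠ a)
    (h2 : p ≠ b) (h3 : p ≠ c) (h4 : p ≠ e) : upd4 f a b c e va vb vc ve p = f p := by
  simp [upd4, h1, h2, h3, h4]

include hab hac hae hbc hbe hce hF hx in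
lemma pt_dia : M.pt A = insert a (insert b (insert c (insert e (M.pt (A.erase x))))) ∧
    a ∉ insert b (insert c (insert e (M.pt (A.erase x)))) ∧
    b ∉ insert c (insert e (M.pt (A.erase x))) ∧ c ∉ insert e (M.pt (A.erase x)) ∧
    e ∉ M.pt (A.erase x) := by
  have na : M.node a = x := (hF a).2 (Or.inl rfl)
  have nb : M.node b = x := (hF b).2 (Or.inr (Or.inl rfl))
  have nc : M.node c = x := (hF c).2 (Or.inr (Or.inr (Or.inl rfl)))
  have ne' : M.node e = x := (hF e).2 (Or.inr (Or.inr (Or.inr rfl)))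
  have ma : a ∉ M.pt (A.erase x) := by rw [mem_pt, na]; simp
  have mb : b ∉ M.pt (A.erase x) := by rw [mem_pt, nb]; simp
  have mc : c ∉ M.pt (A.erase x) := by rw [mem_pt, nc]; simp
  have me : e ∉ M.pt (A.erase x) := by rw [mem_pt, ne']; simp
  refine ⟨?_, ?_, ?_, ?_, me⟩
  · ext p
    simp only [mem_pt, Finset.mem_insert, Finset.mem_erase]
    constructor
    · intro h
      by_cases hpx : M.node p = x
      · rcases (hF p).1 hpx with h | h | h | h
        · exact Or.inl h
        · exact Or.inr (Or.inl h)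
        · exact Or.inr (Or.inr (Or.inl h))
        · exact Or.inr (Or.inr (Or.inr (Or.inl h)))
      · exact Or.inr (Or.inr (Or.inr (Or.inr ⟨hpx, h⟩)))
    · rintro (h | h | h | h | h)
      · rw [h, na]; exact hx
      · rw [h, nb]; exact hx
      · rw [h, nc]; exact hx
      · rw [h, ne']; exact hx
      · exact h.2
  · simp [hab, hac, hae, ma]
  · simp [hbc, hbe, mb]
  · simp [hce, mc]

include hab hac hae hbc hbe hce hF hx ha hb hc he g1 g2 g3 g4 g5 g6 g7 g8 g9 g10 in
/-- Domination inside the diamond. -/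
lemma dia_dom (s d : P → Bool) (hd : dok (s a) (d a) (s b) (s c) (s e) (d e) = true) :
    ∀ p, M.node p = x →
      ((¬ inner p ∧ d p = true) ∨ ∃ q, M.node q = M.node p ∧ adj p q ∧ s q = true) := by
  have na : M.node a = x := (hF a).2 (Or.inl rfl)
  have nb : M.node b = x := (hF b).2 (Or.inr (Or.inl rfl))
  have nc : M.node c = x := (hF c).2 (Or.inr (Or.inr (Or.inl rfl)))
  have ne' : M.node e = x := (hF e).2 (Or.inr (Or.inr (Or.inr rfl)))
  unfold dok at hd
  simp only [Bool.and_eq_true, Bool.or_eq_true] at hd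
  obtain ⟨⟨⟨d1, d2⟩, d3⟩, d4⟩ := hd
  intro p hp
  rcases (hF p).1 hp with h | h | h | h
  · subst h
    rcases d1 with (h | h) | h
    · exact Or.inl ⟨ha, h⟩
    · exact Or.inr ⟨b, by rw [nb, na], g1, h⟩
    · exact Or.inr ⟨c, by rw [nc, na], g2, h⟩
  · subst h
    rcases d3 with (h | h) | h
    · exact Or.inr ⟨a, by rw [na, nb], g3, h⟩
    · exact Or.inr ⟨c, by rw [nc, nb], g4, h⟩
    · exact Or.inr ⟨e, by rw [ne', nb], g5, h⟩
  · subst h
    rcases d4 with (h | h) | h
    · exact Or.inr ⟨a, by rw [na, nc], g6, h⟩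
    · exact Or.inr ⟨b, by rw [nb, nc], g7, h⟩
    · exact Or.inr ⟨e, by rw [ne', nc], g8, h⟩
  · subst h
    rcases d2 with (h | h) | h
    · exact Or.inl ⟨he, h⟩
    · exact Or.inr ⟨b, by rw [nb, ne'], g9, h⟩
    · exact Or.inr ⟨c, by rw [nc, ne'], g10, h⟩

include hG hC hx hab hac hae hbc hbe hce hF ha hb hc he g1 g2 g3 g4 g5 g6 g7 g8 g9 g10 in
/-- The ring consisting of a single diamond. -/
lemma dia_ring (hm : M.mate a = e) :
    ∃ s d, valid1 M inner adj A s d ∧ cost1 M inner A s d ≤ 8 := by
  have na : M.node a = x := (hF a).2 (Or.inl rfl)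
  have nb : M.node b = x := (hF b).2 (Or.inr (Or.inl rfl))
  have nc : M.node c = x := (hF c).2 (Or.inr (Or.inr (Or.inl rfl)))
  have ne' : M.node e = x := (hF e).2 (Or.inr (Or.inr (Or.inr rfl)))
  have hA : M.node a ∈ A := by rw [na]; exact hx
  have hm' : M.mate e = a := by rw [← hm]; exact hG.inv a hA ha
  have hAx : ({x} : Finset N) = A := by
    apply hC
    · intro u hu; rw [Finset.mem_singleton.1 hu]; exact hx
    · exact Finset.singleton_nonempty _
    · intro p hp hip
      rw [Finset.mem_singleton] at hp ⊢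
      rcases (hF p).1 hp with h | h | h | h
      · rw [h, hm]; exact ne'
      · exact absurd (h ▸ hb) hip
      · exact absurd (h ▸ hc) hip
      · rw [h, hm']; exact na
  have hlt := hG.lab_lt a hA ha
  have hl0 := hG.loop a hA ha (by rw [hm, na, ne'])
  have hle : M.lab e = M.lab a := by rw [← hm]; exact hG.lab_mate a hA ha
  obtain ⟨sa, da, sb, sc, se, de, k1, k2, k3⟩ := dia_loop ⟨M.lab a - 1, by omega⟩
  simp only at k2 k3
  rw [Nat.sub_add_cancel (Nat.one_le_iff_ne_zero.2 hl0)] at k2 k3
  set s : P → Bool := upd4 (fun _ => false) a b c e sa sb sc se with hs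
  set d : P → Bool := upd4 (fun _ => false) a b c e da false false de with hd
  have s1 : s a = sa := by simp [hs, upd4]
  have s2 : s b = sb := by simp [hs, upd4, hab.symm]
  have s3 : s c = sc := by simp [hs, upd4, hac.symm, hbc.symm]
  have s4 : s e = se := by simp [hs, upd4, hae.symm, hbe.symm, hce.symm]
  have d1 : d a = da := by simp [hd, upd4]
  have d4 : d e = de := by simp [hd, upd4, hae.symm, hbe.symm, hce.symm]
  refine ⟨s, d, ?_, ?_⟩
  · intro p hp
    rw [← hAx, Finset.mem_singleton] at hp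
    refine ⟨dia_dom hx hab hac hae hbc hbe hce hF ha hb hc he g1 g2 g3 g4 g5 g6 g7 g8 g9 g10 s d
      (by rw [s1, s2, s3, s4, d1, d4]; exact k1) p hp, ?_⟩
    intro hip
    rcases (hF p).1 hp with h | h | h | h
    · rw [h, hm, s1, s4, d1, d4]; exact k2
    · exact absurd (h ▸ hb) hip
    · exact absurd (h ▸ hc) hip
    · rw [h, hm', s1, s4, d1, d4, hle, lok_symm]; exact k2
  · obtain ⟨hpt, i1, i2, i3, i4⟩ := pt_dia (M := M) hx hab hac hae hbc hbe hce hF
    have hempty : M.pt (A.erase x) = ∅ := by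
      rw [← hAx]; ext p; simp [mem_pt]
    unfold cost1
    rw [hpt, Finset.sum_insert i1, Finset.sum_insert i2, Finset.sum_insert i3,
      Finset.sum_insert i4, hempty, Finset.sum_empty]
    unfold term1
    rw [if_neg ha, if_pos hb, if_pos hc, if_neg he, hm, hm', s1, s2, s3, s4, d1, d4, hle,
      hE_symm _ hlt se de da sa]
    linarith

/-- The network obtained by contracting the diamond with outer vertices `a, e`. -/
def contract (M : Net P N) (a e : P) : Net P N where
  node := M.node
  mate := fun r => if r = M.mate a then M.mate e else if r = M.mate e then M.mate a else M.mate r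
  lab := fun r => if r = M.mate a ∨ r = M.mate e then comp (M.lab a) (M.lab e) else M.lab r

include hG hC hx hab hac hae hbc hbe hce hF ha hb hc he g1 g2 g3 g4 g5 g6 g7 g8 g9 g10 in
/-- Contracting a diamond. -/
lemma dia_step (hm : M.mate a ≠ e)
    (ih : Good1 (contract M a e) inner adj (A.erase x) → Conn1 (contract M a e) inner (A.erase x) →
      (A.erase x).Nonempty → ∃ s d, valid1 (contract M a e) inner adj (A.erase x) s d ∧
        cost1 (contract M a e) inner (A.erase x) s d ≤ 8) :
    ∃ s d, valid1 M inner adj A s d ∧ cost1 M inner A s d ≤ 8 := by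
  have na : M.node a = x := (hF a).2 (Or.inl rfl)
  have nb : M.node b = x := (hF b).2 (Or.inr (Or.inl rfl))
  have nc : M.node c = x := (hF c).2 (Or.inr (Or.inr (Or.inl rfl)))
  have ne' : M.node e = x := (hF e).2 (Or.inr (Or.inr (Or.inr rfl)))
  have hAa : M.node a ∈ A := by rw [na]; exact hx
  have hAe : M.node e ∈ A := by rw [ne']; exact hx
  set p := M.mate a with hpdef
  set q := M.mate e with hqdef
  have hmp : M.mate p = a := hG.inv a hAa ha
  have hmq : M.mate q = e := hG.inv e hAe he
  have hpA : M.node p ∈ A := hG.mem a hAa ha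
  have hqA : M.node q ∈ A := hG.mem e hAe he
  have hip : ¬ inner p := hG.ninner a hAa ha
  have hiq : ¬ inner q := hG.ninner e hAe he
  have hpq : p ≠ q := fun h => hae (by rw [← hmp, ← hmq, h])
  -- non-inner vertices of `x` are `a` and `e`
  have hxp : ∀ r, M.node r = x → ¬ inner r → r = a ∨ r = e := by
    intro r hr hir
    rcases (hF r).1 hr with h | h | h | h
    · exact Or.inl h
    · exact absurd (h ▸ hb) hir
    · exact absurd (h ▸ hc) hir
    · exact Or.inr h
  have hpx : M.node p ≠ x := by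
    intro h
    rcases hxp p h hip with h' | h'
    · exact hG.ne a hAa ha h'
    · exact hm h'
  have hqx : M.node q ≠ x := by
    intro h
    rcases hxp q h hiq with h' | h'
    · apply hm
      rw [hpdef, ← h', hmq]
    · exact hG.ne e hAe he h'
  have hpA' : M.node p ∈ A.erase x := Finset.mem_erase.2 ⟨hpx, hpA⟩
  have hqA' : M.node q ∈ A.erase x := Finset.mem_erase.2 ⟨hqx, hqA⟩
  -- mates of other ports
  have hother : ∀ r, M.node r ∈ A → ¬ inner r → r ≠ p → r ≠ q → M.node r ≠ x →
      M.node (M.mate r) ≠ x ∧ M.mate r ≠ p ∧ M.mate r ≠ q := by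
    intro r hr hir hrp hrq hrx
    have hinv := hG.inv r hr hir
    refine ⟨?_, ?_, ?_⟩
    · intro h
      rcases hxp _ h (hG.ninner r hr hir) with h' | h'
      · apply hrp; rw [hpdef, ← h', hinv]
      · apply hrq; rw [hqdef, ← h', hinv]
    · intro h
      apply hrx
      rw [← hinv, h, hmp, na]
    · intro h
      apply hrx
      rw [← hinv, h, hmq, ne']
  have hcm_p : (contract M a e).mate p = q := by
    show (if p = M.mate a then M.mate e else _) = q
    rw [if_pos hpdef]
  have hcm_q : (contract M a e).mate q = p := by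
    show (if q = M.mate a then M.mate e else if q = M.mate e then M.mate a else M.mate q) = p
    rw [if_neg (fun h => hpq (by rw [hpdef, ← h])), if_pos hqdef]
  have hcm_r : ∀ r, r ≠ p → r ≠ q → (contract M a e).mate r = M.mate r := by
    intro r h1 h2
    show (if r = M.mate a then M.mate e else if r = M.mate e then M.mate a else M.mate r) = _
    rw [if_neg h1, if_neg h2]
  have hcl_p : (contract M a e).lab p = comp (M.lab a) (M.lab e) := by
    show (if p = M.mate a ∨ p = M.mate e then _ else _) = _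
    rw [if_pos (Or.inl hpdef)]
  have hcl_q : (contract M a e).lab q = comp (M.lab a) (M.lab e) := by
    show (if q = M.mate a ∨ q = M.mate e then _ else _) = _
    rw [if_pos (Or.inr hqdef)]
  have hcl_r : ∀ r, r ≠ p → r ≠ q → (contract M a e).lab r = M.lab r := by
    intro r h1 h2
    show (if r = M.mate a ∨ r = M.mate e then _ else _) = _
    rw [if_neg (by rintro (h | h); exacts [h1 h, h2 h])]
  have hcn : ∀ r, (contract M a e).node r = M.node r := fun r => rfl
  have hcomp_lt : comp (M.lab a) (M.lab e) < 5 := by unfold comp; omega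
  have hcomp_ne : comp (M.lab a) (M.lab e) ≠ 0 := by unfold comp; omega
  obtain ⟨s', d', hv', hc'⟩ := ih (by
    refine ⟨?_, ?_, ?_, ?_, ?_, ?_, ?_, ?_⟩
    · intro r hr hir
      rw [hcn] at hr ⊢
      by_cases h1 : r = p
      · rw [h1, hcm_p]; exact hqA'
      by_cases h2 : r = q
      · rw [h2, hcm_q]; exact hpA'
      rw [hcm_r r h1 h2]
      exact Finset.mem_erase.2 ⟨(hother r (Finset.mem_erase.1 hr).2 hir h1 h2
        (Finset.mem_erase.1 hr).1).1, hG.mem r (Finset.mem_erase.1 hr).2 hir⟩
    · intro r hr hir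
      rw [hcn] at hr
      by_cases h1 : r = p
      · rw [h1, hcm_p]; exact hiq
      by_cases h2 : r = q
      · rw [h2, hcm_q]; exact hip
      rw [hcm_r r h1 h2]
      exact hG.ninner r (Finset.mem_erase.1 hr).2 hir
    · intro r hr hir
      rw [hcn] at hr
      by_cases h1 : r = p
      · rw [h1, hcm_p, hcm_q]
      by_cases h2 : r = q
      · rw [h2, hcm_q, hcm_p]
      obtain ⟨-, h3, h4⟩ := hother r (Finset.mem_erase.1 hr).2 hir h1 h2
        (Finset.mem_erase.1 hr).1
      rw [hcm_r r h1 h2, hcm_r _ h3 h4]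
      exact hG.inv r (Finset.mem_erase.1 hr).2 hir
    · intro r hr hir
      rw [hcn] at hr
      by_cases h1 : r = p
      · rw [h1, hcm_p]; exact hpq.symm
      by_cases h2 : r = q
      · rw [h2, hcm_q]; exact hpq
      rw [hcm_r r h1 h2]
      exact hG.ne r (Finset.mem_erase.1 hr).2 hir
    · intro r hr hir
      rw [hcn] at hr
      by_cases h1 : r = p
      · rw [h1, hcm_p, hcl_p, hcl_q]
      by_cases h2 : r = q
      · rw [h2, hcm_q, hcl_p, hcl_q]
      obtain ⟨-, h3, h4⟩ := hother r (Finset.mem_erase.1 hr).2 hir h1 h2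
        (Finset.mem_erase.1 hr).1
      rw [hcm_r r h1 h2, hcl_r _ h3 h4, hcl_r r h1 h2]
      exact hG.lab_mate r (Finset.mem_erase.1 hr).2 hir
    · intro r hr hir
      rw [hcn] at hr
      by_cases h1 : r = p
      · rw [h1, hcl_p]; exact hcomp_lt
      by_cases h2 : r = q
      · rw [h2, hcl_q]; exact hcomp_lt
      rw [hcl_r r h1 h2]
      exact hG.lab_lt r (Finset.mem_erase.1 hr).2 hir
    · intro r hr hir hrr
      rw [hcn] at hr
      by_cases h1 : r = p
      · rw [h1, hcl_p]; exact hcomp_ne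
      by_cases h2 : r = q
      · rw [h2, hcl_q]; exact hcomp_ne
      rw [hcl_r r h1 h2]
      rw [hcm_r r h1 h2, hcn, hcn] at hrr
      exact hG.loop r (Finset.mem_erase.1 hr).2 hir hrr
    · intro y hy
      exact hG.unit y (Finset.mem_erase.1 hy).2) (by
    -- connectivity
    intro B hB hBne hcl
    have hxB : x ∉ B := fun h => (Finset.mem_erase.1 (hB h)).1 rfl
    have hBA : B ⊆ A := hB.trans (Finset.erase_subset _ _)
    have hpq' : M.node p ∈ B ↔ M.node q ∈ B := by
      constructor
      · intro h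
        have := hcl p h hip
        rwa [hcm_p] at this
      · intro h
        have := hcl q h hiq
        rwa [hcm_q] at this
    by_cases hpB : M.node p ∈ B
    · have hqB := hpq'.1 hpB
      have := hC (insert x B) (Finset.insert_subset hx hBA) (Finset.insert_nonempty _ _) (by
        intro r hr hir
        rcases Finset.mem_insert.1 hr with h | h
        · rcases hxp r h hir with h' | h'
          · rw [h']; exact Finset.mem_insert_of_mem hpB
          · rw [h']; exact Finset.mem_insert_of_mem hqB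
        · by_cases h1 : r = p
          · rw [h1, hmp, na]; exact Finset.mem_insert_self _ _
          by_cases h2 : r = q
          · rw [h2, hmq, ne']; exact Finset.mem_insert_self _ _
          have := hcl r h hir
          rw [hcm_r r h1 h2] at this
          exact Finset.mem_insert_of_mem this)
      rw [← this, Finset.erase_insert hxB]
    · exfalso
      have hqB : M.node q ∉ B := fun h => hpB (hpq'.2 h)
      have := hC B hBA hBne (by
        intro r hr hir
        have h1 : r ≠ p := fun h => hpB (h ▸ hr)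
        have h2 : r ≠ q := fun h => hqB (h ▸ hr)
        have := hcl r hr hir
        rwa [hcm_r r h1 h2] at this)
      exact hxB (this ▸ hx)) ⟨_, hpA'⟩
  -- extend the configuration
  have hlta := hG.lab_lt a hAa ha
  have hlte := hG.lab_lt e hAe he
  obtain ⟨sa, da, sb, sc, se, de, k1, k2, k3, k4⟩ := dia_table ⟨M.lab a, hlta⟩ ⟨M.lab e, hlte⟩
    (s' p) (d' p) (s' q) (d' q)
  simp only at k2 k3 k4
  set s : P → Bool := upd4 s' a b c e sa sb sc se with hs
  set d : P → Bool := upd4 d' a b c e da false false de with hd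
  have s1 : s a = sa := by simp [hs, upd4]
  have s2 : s b = sb := by simp [hs, upd4, hab.symm]
  have s3 : s c = sc := by simp [hs, upd4, hac.symm, hbc.symm]
  have s4 : s e = se := by simp [hs, upd4, hae.symm, hbe.symm, hce.symm]
  have d1 : d a = da := by simp [hd, upd4]
  have d4 : d e = de := by simp [hd, upd4, hae.symm, hbe.symm, hce.symm]
  have hne : ∀ r, M.node r ≠ x → s r = s' r ∧ d r = d' r := by
    intro r hr
    have h1 : r ≠ a := fun h => hr (h ▸ na)
    have h2 : r ≠ b := fun h => hr (h ▸ nb)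
    have h3 : r ≠ c := fun h => hr (h ▸ nc)
    have h4 : r ≠ e := fun h => hr (h ▸ ne')
    exact ⟨upd4_ne _ _ _ _ _ h1 h2 h3 h4, upd4_ne _ _ _ _ _ h1 h2 h3 h4⟩
  have hlp : M.lab p = M.lab a := hG.lab_mate a hAa ha
  have hlq : M.lab q = M.lab e := hG.lab_mate e hAe he
  refine ⟨s, d, ?_, ?_⟩
  · intro r hr
    by_cases hrx : M.node r = x
    · refine ⟨dia_dom hx hab hac hae hbc hbe hce hF ha hb hc he g1 g2 g3 g4 g5 g6 g7 g8 g9 g10
        s d (by rw [s1, s2, s3, s4, d1, d4]; exact k1) r hrx, ?_⟩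
      intro hir
      rcases hxp r hrx hir with h | h
      · rw [h, ← hpdef, s1, d1, (hne p hpx).1, (hne p hpx).2]; exact k2
      · rw [h, ← hqdef, s4, d4, (hne q hqx).1, (hne q hqx).2]; exact k3
    · obtain ⟨v1, v2⟩ := hv' r (Finset.mem_erase.2 ⟨hrx, hr⟩)
      refine ⟨?_, ?_⟩
      · rcases v1 with ⟨h1, h2⟩ | ⟨u, hu1, hu2, hu3⟩
        · exact Or.inl ⟨h1, by rw [(hne r hrx).2]; exact h2⟩
        · right
          refine ⟨u, hu1, hu2, ?_⟩
          rw [(hne u (by rw [hcn, hcn] at hu1; rw [hu1]; exact hrx)).1]; exact hu3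
      · intro hir
        by_cases h1 : r = p
        · rw [h1, hmp, hlp, s1, d1, (hne p hpx).1, (hne p hpx).2, lok_symm]; exact k2
        by_cases h2 : r = q
        · rw [h2, hmq, hlq, s4, d4, (hne q hqx).1, (hne q hqx).2, lok_symm]; exact k3
        have h3 := v2 hir
        rw [hcm_r r h1 h2, hcl_r r h1 h2] at h3
        have h4 := (hother r hr hir h1 h2 hrx).1
        rw [(hne r hrx).1, (hne r hrx).2, (hne _ h4).1, (hne _ h4).2]
        exact h3
  · obtain ⟨hpt, i1, i2, i3, i4⟩ := pt_dia (M := M) hx hab hac hae hbc hbe hce hF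
    have hpt' : (contract M a e).pt (A.erase x) = M.pt (A.erase x) := rfl
    have hpw : ∀ r ∈ M.pt (A.erase x), (12 * bi (s r) - 5 + term1 M inner s d r) =
        (12 * bi (s' r) - 5 + term1 (contract M a e) inner s' d' r) +
        ((if r = p then hE (M.lab a) sa da (d' p) (s' p) -
            hE (comp (M.lab a) (M.lab e)) (s' p) (d' p) (d' q) (s' q) else 0) +
         (if r = q then hE (M.lab e) se de (d' q) (s' q) -
            hE (comp (M.lab a) (M.lab e)) (s' p) (d' p) (d' q) (s' q) else 0)) := by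
      intro r hr
      rw [mem_pt] at hr
      have hrx : M.node r ≠ x := (Finset.mem_erase.1 hr).1
      have hrA : M.node r ∈ A := (Finset.mem_erase.1 hr).2
      rw [(hne r hrx).1]
      unfold term1
      by_cases h1 : r = p
      · have h2 : r ≠ q := fun h => hpq (by rw [← h1, h])
        rw [if_pos h1, if_neg h2, h1, if_neg hip, if_neg hip, hcm_p, hcl_p, hmp, hlp,
          (hne p hpx).1, (hne p hpx).2, s1, d1, hE_symm _ hlta (s' p) (d' p) da sa]
        ring
      by_cases h2 : r = q
      · rw [if_neg h1, if_pos h2, h2, if_neg hiq, if_neg hiq, hcm_q, hcl_q, hmq, hlq,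
          (hne q hqx).1, (hne q hqx).2, s4, d4, hE_symm _ hlte (s' q) (d' q) de se,
          hE_symm _ hcomp_lt (s' q) (d' q) (d' p) (s' p)]
        ring
      rw [if_neg h1, if_neg h2]
      by_cases hir : inner r
      · rw [if_pos hir, if_pos hir]; ring
      · have h4 := (hother r hrA hir h1 h2 hrx).1
        rw [if_neg hir, if_neg hir, hcm_r r h1 h2, hcl_r r h1 h2, (hne r hrx).1, (hne r hrx).2,
          (hne _ h4).1, (hne _ h4).2]
        ring
    have hpm : p ∈ M.pt (A.erase x) := by rw [mem_pt]; exact hpA'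
    have hqm : q ∈ M.pt (A.erase x) := by rw [mem_pt]; exact hqA'
    have hcost' : cost1 (contract M a e) inner (A.erase x) s' d' =
        ∑ r ∈ M.pt (A.erase x), (12 * bi (s' r) - 5 + term1 (contract M a e) inner s' d' r) := rfl
    unfold cost1
    rw [hpt, Finset.sum_insert i1, Finset.sum_insert i2, Finset.sum_insert i3,
      Finset.sum_insert i4, Finset.sum_congr rfl hpw, Finset.sum_add_distrib, ← hcost',
      Finset.sum_add_distrib, Finset.sum_ite_eq', Finset.sum_ite_eq', if_pos hpm, if_pos hqm]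
    have t1 : term1 M inner s d a = hE (M.lab a) sa da (d' p) (s' p) := by
      unfold term1; rw [if_neg ha, ← hpdef, s1, d1, (hne p hpx).1, (hne p hpx).2]
    have t2 : term1 M inner s d b = 0 := by unfold term1; rw [if_pos hb]
    have t3 : term1 M inner s d c = 0 := by unfold term1; rw [if_pos hc]
    have t4 : term1 M inner s d e = hE (M.lab e) se de (d' q) (s' q) := by
      unfold term1; rw [if_neg he, ← hqdef, s4, d4, (hne q hqx).1, (hne q hqx).2]
    rw [t1, t2, t3, t4, s1, s2, s3, s4]
    linarith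

end step

/-- Main theorem on networks of triangles and diamonds. -/
theorem net1_main : ∀ (m : ℕ) (M : Net P N) (A : Finset N), A.card = m →
    Good1 M inner adj A → Conn1 M inner A → A.Nonempty →
    ∃ s d, valid1 M inner adj A s d ∧ cost1 M inner A s d ≤ 8 := by
  intro m
  induction m with
  | zero =>
    intro M A hcard _ _ hne
    exact absurd (Finset.card_eq_zero.1 hcard) hne.ne_empty
  | succ m ih =>
    intro M A hcard hG hC hne
    by_cases hT : ∀ x ∈ A, Tri M.node inner adj x
    · exact base1 hG hC hne hT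
    · push Not at hT
      obtain ⟨x, hx, hnT⟩ := hT
      rcases hG.unit x hx with h | h
      · exact absurd h hnT
      · obtain ⟨a, b, c, e, hab, hac, hae, hbc, hbe, hce, hF, ha, hb, hc, he, g1, g2, g3, g4, g5,
          g6, g7, g8, g9, g10⟩ := h
        by_cases hm : M.mate a = e
        · exact dia_ring hG hC hx hab hac hae hbc hbe hce hF ha hb hc he g1 g2 g3 g4 g5 g6 g7 g8
            g9 g10 hm
        · refine dia_step hG hC hx hab hac hae hbc hbe hce hF ha hb hc he g1 g2 g3 g4 g5 g6 g7 g8
            g9 g10 hm ?_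
          intro hG' hC' hne'
          exact ih (contract M a e) (A.erase x) (by rw [Finset.card_erase_of_mem hx, hcard]; rfl)
            hG' hC' hne'

end Net

end Pool.Agent.MP_d479ed_co
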