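import Pool.Agent.MP_d479ed_co.Defs
import Pool.Agent.MP_d479ed_co.Diamond

namespace Pool.Agent.MP_d479ed_co

open Finset

section Graph

variable {V : Type} {G : SimpleGraph V}

/-- Edges contained in a triangle. -/
def tri (G : SimpleGraph V) (v w : V) : Prop := G.Adj v w ∧ ∃ u, G.Adj v u ∧ G.Adj w u

lemma tri_symm {v w : V} (h : tri G v w) : tri G w v := by
  obtain ⟨h1, u, h2, h3⟩ := h
  exact ⟨h1.symm, u, h3, h2⟩

/-- All edges at the vertex lie in triangles. -/
def inner (G : SimpleGraph V) (v : V) : Prop := ∀ w, G.Adj v w → tri G v w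

lemma nbrs (hc : Cubic G) (v : V) : ∃ a b c, a ≠ b ∧ a ≠ c ∧ b ≠ c ∧
    ∀ w, G.Adj v w ↔ w = a ∨ w = b ∨ w = c := by
  obtain ⟨a, b, c, h1, h2, h3, h4⟩ := Set.ncard_eq_three.1 (hc v)
  refine ⟨a, b, c, h1, h2, h3, fun w => ?_⟩
  rw [← SimpleGraph.mem_neighborSet, h4]
  simp

/-- Neighbours, with two adjacent ones first. -/
lemma nbrs' (hc : Cubic G) (hcf : ClawFree G) (v : V) : ∃ a b c, a ≠ b ∧ a ≠ c ∧ b ≠ c ∧
    G.Adj a b ∧ ∀ w, G.Adj v w ↔ w = a ∨ w = b ∨ w = c := by
  obtain ⟨a, b, c, h1, h2, h3, h4⟩ := nbrs hc v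
  have ha : G.Adj v a := (h4 a).2 (Or.inl rfl)
  have hb : G.Adj v b := (h4 b).2 (Or.inr (Or.inl rfl))
  have hcc : G.Adj v c := (h4 c).2 (Or.inr (Or.inr rfl))
  rcases hcf v a b c ha hb hcc h1 h2 h3 with h | h | h
  · exact ⟨a, b, c, h1, h2, h3, h, h4⟩
  · exact ⟨a, c, b, h2, h1, h3.symm, h, fun w => by rw [h4]; tauto⟩
  · exact ⟨b, c, a, h3, h1.symm, h2.symm, h, fun w => by rw [h4]; tauto⟩

/-- A neighbour list is determined by three distinct neighbours. -/
lemma nbrs_eq (hc : Cubic G) {v a b c : V} (h1 : a ≠ b) (h2 : a ≠ c) (h3 : b ≠ c)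
    (ha : G.Adj v a) (hb : G.Adj v b) (hcc : G.Adj v c) :
    ∀ w, G.Adj v w ↔ w = a ∨ w = b ∨ w = c := by
  obtain ⟨x, y, z, k1, k2, k3, k4⟩ := nbrs hc v
  intro w
  constructor
  · intro hw
    have e1 := (k4 a).1 ha
    have e2 := (k4 b).1 hb
    have e3 := (k4 c).1 hcc
    have e4 := (k4 w).1 hw
    rcases e1 with e1 | e1 | e1 <;> rcases e2 with e2 | e2 | e2 <;>
      rcases e3 with e3 | e3 | e3 <;> rcases e4 with e4 | e4 | e4 <;>
      subst e1 <;> subst e4 <;> simp_all
  · rintro (h | h | h)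
    · rw [h]; exact ha
    · rw [h]; exact hb
    · rw [h]; exact hcc

/-- The structure of the unit of a vertex. -/
structure IsUnit' (G : SimpleGraph V) (U : Finset V) : Prop where
  closed : ∀ u ∈ U, ∀ w, tri G u w → w ∈ U
  conn : ∀ u ∈ U, ∀ w ∈ U, u = w ∨ tri G u w ∨ ∃ t, tri G u t ∧ tri G t w
  adj_tri : ∀ u ∈ U, ∀ w ∈ U, G.Adj u w → tri G u w

/-- The unit around an inner vertex is a diamond. -/
lemma inner_unit [DecidableEq V] (hc : Cubic G) (hcf : ClawFree G)
    (hK : ∀ v a b c : V, ¬ (G.Adj v a ∧ G.Adj v b ∧ G.Adj v c ∧ G.Adj a b ∧ G.Adj a c ∧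
      G.Adj b c)) {v : V} (hv : inner G v) :
    ∃ x y z : V, IsUnit' G {x, v, y, z} ∧ x ≠ v ∧ x ≠ y ∧ x ≠ z ∧ v ≠ y ∧ v ≠ z ∧ y ≠ z ∧
      ¬ inner G x ∧ inner G y ∧ ¬ inner G z ∧
      G.Adj v x ∧ G.Adj v y ∧ G.Adj v z ∧ G.Adj y x ∧ G.Adj y z ∧ ¬ G.Adj x z := by
  -- find the middle neighbour `y`
  obtain ⟨x, y, z, hxy, hxz, hyz, hvx, hvy, hvz, hxy', hyz'⟩ : ∃ x y z : V, x ≠ y ∧ x ≠ z ∧
      y ≠ z ∧ G.Adj v x ∧ G.Adj v y ∧ G.Adj v z ∧ G.Adj y x ∧ G.Adj y z := by
    obtain ⟨a, b, c, h1, h2, h3, h4, h5⟩ := nbrs' hc hcf v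
    have ha : G.Adj v a := (h5 a).2 (Or.inl rfl)
    have hb : G.Adj v b := (h5 b).2 (Or.inr (Or.inl rfl))
    have hcc : G.Adj v c := (h5 c).2 (Or.inr (Or.inr rfl))
    obtain ⟨-, u, hu1, hu2⟩ := hv c hcc
    rcases (h5 u).1 hu1 with h | h | h
    · subst h
      exact ⟨b, u, c, h1.symm, h3, h2, hb, ha, hcc, h4, hu2.symm⟩
    · subst h
      exact ⟨a, u, c, h1, h2, h3, ha, hb, hcc, h4.symm, hu2.symm⟩
    · subst h; exact absurd hu2 (G.loopless.irrefl _)
  have hxz' : ¬ G.Adj x z := fun h => hK v x y z ⟨hvx, hvy, hvz, hxy'.symm, h, hyz'⟩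
  have hNv := nbrs_eq hc hxy hxz hyz hvx hvy hvz
  have hvxne : v ≠ x := G.ne_of_adj hvx
  have hvyne : v ≠ y := G.ne_of_adj hvy
  have hvzne : v ≠ z := G.ne_of_adj hvz
  have hNy := nbrs_eq hc hvxne hvzne hxz hvy.symm hxy' hyz'
  -- third neighbours of `x` and `z`
  have third : ∀ x z : V, x ≠ y → x ≠ z → G.Adj v x → G.Adj y x → ¬ G.Adj x z →
      (∀ w, G.Adj v w ↔ w = x ∨ w = y ∨ w = z) → (∀ w, G.Adj y w ↔ w = v ∨ w = x ∨ w = z) →
      ¬ inner G x ∧ ∀ w, tri G x w → w = v ∨ w = y := by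
    intro x z hxy hxz hvx hyx hnxz hNv hNy
    obtain ⟨a, b, c, h1, h2, h3, h4⟩ := nbrs hc x
    have e1 := (h4 v).1 hvx.symm
    have e2 := (h4 y).1 hyx.symm
    have key : ∀ t, G.Adj x t → t ≠ v → t ≠ y → ¬ tri G x t := by
      rintro t ht htv hty ⟨-, u, hu1, hu2⟩
      -- `u` is a common neighbour of `x` and `t`; it must be `v` or `y`
      have hut : u ≠ t := (G.ne_of_adj hu2).symm
      have huv : u = v ∨ u = y := by
        have hNx := nbrs_eq hc hvyne htv.symm hty.symm hvx.symm hyx.symm ht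
        rcases (hNx u).1 hu1 with h | h | h
        · exact Or.inl h
        · exact Or.inr h
        · exact absurd h hut
      rcases huv with h | h
      · subst h
        rcases (hNv t).1 hu2.symm with h' | h' | h'
        · exact G.ne_of_adj ht h'.symm
        · exact hty h'
        · exact hnxz (h' ▸ ht)
      · subst h
        rcases (hNy t).1 hu2.symm with h' | h' | h'
        · exact htv h'
        · exact G.ne_of_adj ht h'.symm
        · exact hnxz (h' ▸ ht)
    obtain ⟨t, ht, htv, hty⟩ : ∃ t, G.Adj x t ∧ t ≠ v ∧ t ≠ y := by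
      rcases e1 with e1 | e1 | e1 <;> rcases e2 with e2 | e2 | e2
      · exact absurd (e1.trans e2.symm) hvyne
      · exact ⟨c, (h4 c).2 (Or.inr (Or.inr rfl)), by rw [e1]; exact h2.symm,
          by rw [e2]; exact h3.symm⟩
      · exact ⟨b, (h4 b).2 (Or.inr (Or.inl rfl)), by rw [e1]; exact h1.symm,
          by rw [e2]; exact h3⟩
      · exact ⟨c, (h4 c).2 (Or.inr (Or.inr rfl)), by rw [e1]; exact h3.symm,
          by rw [e2]; exact h2.symm⟩
      · exact absurd (e1.trans e2.symm) hvyne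
      · exact ⟨a, (h4 a).2 (Or.inl rfl), by rw [e1]; exact h1, by rw [e2]; exact h2⟩
      · exact ⟨b, (h4 b).2 (Or.inr (Or.inl rfl)), by rw [e1]; exact h3,
          by rw [e2]; exact h1.symm⟩
      · exact ⟨a, (h4 a).2 (Or.inl rfl), by rw [e1]; exact h2, by rw [e2]; exact h1⟩
      · exact absurd (e1.trans e2.symm) hvyne
    refine ⟨fun h => key t ht htv hty (h t ht), ?_⟩
    intro w hw
    by_contra hcon
    rw [not_or] at hcon
    exact key w hw.1 hcon.1 hcon.2 hw
  obtain ⟨hix, htx⟩ := third x z hxy hxz hvx hxy' hxz' hNv hNy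
  obtain ⟨hiz, htz⟩ := third z x hyz.symm hxz.symm hvz hyz' (fun h => hxz' h.symm)
    (fun w => by rw [hNv]; tauto) (fun w => by rw [hNy]; tauto)
  have tvx : tri G v x := ⟨hvx, y, hvy, hxy'.symm⟩
  have tvy : tri G v y := ⟨hvy, x, hvx, hxy'⟩
  have tvz : tri G v z := ⟨hvz, y, hvy, hyz'.symm⟩
  have tyx : tri G y x := ⟨hxy', v, hvy.symm, hvx.symm⟩
  have tyz : tri G y z := ⟨hyz', v, hvy.symm, hvz.symm⟩
  have hiy : inner G y := by
    intro w hw
    rcases (hNy w).1 hw with h | h | h
    · rw [h]; exact tri_symm tvy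
    · rw [h]; exact tyx
    · rw [h]; exact tyz
  refine ⟨x, y, z, ⟨?_, ?_, ?_⟩, hvxne.symm, hxy, hxz, hvyne, hvzne, hyz, hix, hiy, hiz,
    hvx, hvy, hvz, hxy', hyz', hxz'⟩
  · intro u hu w huw
    simp only [Finset.mem_insert, Finset.mem_singleton] at hu ⊢
    rcases hu with h | h | h | h
    · subst h; rcases htx w huw with h' | h'
      · exact Or.inr (Or.inl h')
      · exact Or.inr (Or.inr (Or.inl h'))
    · subst h; rcases (hNv w).1 huw.1 with h' | h' | h'
      · exact Or.inl h'
      · exact Or.inr (Or.inr (Or.inl h'))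
      · exact Or.inr (Or.inr (Or.inr h'))
    · subst h; rcases (hNy w).1 huw.1 with h' | h' | h'
      · exact Or.inr (Or.inl h')
      · exact Or.inl h'
      · exact Or.inr (Or.inr (Or.inr h'))
    · subst h; rcases htz w huw with h' | h'
      · exact Or.inr (Or.inl h')
      · exact Or.inr (Or.inr (Or.inl h'))
  · intro u hu w hw
    simp only [Finset.mem_insert, Finset.mem_singleton] at hu hw
    rcases hu with h | h | h | h <;> rcases hw with h' | h' | h' | h' <;> subst h <;> subst h'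
    · exact Or.inl rfl
    · exact Or.inr (Or.inl (tri_symm tvx))
    · exact Or.inr (Or.inl (tri_symm tyx))
    · exact Or.inr (Or.inr ⟨v, tri_symm tvx, tvz⟩)
    · exact Or.inr (Or.inl tvx)
    · exact Or.inl rfl
    · exact Or.inr (Or.inl tvy)
    · exact Or.inr (Or.inl tvz)
    · exact Or.inr (Or.inl tyx)
    · exact Or.inr (Or.inl (tri_symm tvy))
    · exact Or.inl rfl
    · exact Or.inr (Or.inl tyz)
    · exact Or.inr (Or.inr ⟨v, tri_symm tvz, tvx⟩)
    · exact Or.inr (Or.inl (tri_symm tvz))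
    · exact Or.inr (Or.inl (tri_symm tyz))
    · exact Or.inl rfl
  · intro u hu w hw huw
    simp only [Finset.mem_insert, Finset.mem_singleton] at hu hw
    rcases hu with h | h | h | h <;> rcases hw with h' | h' | h' | h' <;> subst h <;> subst h'
    · exact absurd huw (G.loopless.irrefl _)
    · exact tri_symm tvx
    · exact tri_symm tyx
    · exact absurd huw hxz'
    · exact tvx
    · exact absurd huw (G.loopless.irrefl _)
    · exact tvy
    · exact tvz
    · exact tyx
    · exact tri_symm tvy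
    · exact absurd huw (G.loopless.irrefl _)
    · exact tyz
    · exact absurd huw.symm hxz'
    · exact tri_symm tvz
    · exact tri_symm tyz
    · exact absurd huw (G.loopless.irrefl _)

/-- A triangle unit. -/
def TriType (G : SimpleGraph V) (U : Finset V) : Prop :=
  ∃ p1 p2 p3 : V, p1 ≠ p2 ∧ p1 ≠ p3 ∧ p2 ≠ p3 ∧ (∀ p, p ∈ U ↔ p = p1 ∨ p = p2 ∨ p = p3) ∧
    ¬ inner G p1 ∧ ¬ inner G p2 ∧ ¬ inner G p3 ∧ (∀ p ∈ U, ∀ q ∈ U, p ≠ q → G.Adj p q)

/-- A diamond unit. -/
def DiaType (G : SimpleGraph V) (U : Finset V) : Prop :=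
  ∃ a b c e : V, a ≠ b ∧ a ≠ c ∧ a ≠ e ∧ b ≠ c ∧ b ≠ e ∧ c ≠ e ∧
    (∀ p, p ∈ U ↔ p = a ∨ p = b ∨ p = c ∨ p = e) ∧
    ¬ inner G a ∧ inner G b ∧ inner G c ∧ ¬ inner G e ∧
    G.Adj a b ∧ G.Adj a c ∧ G.Adj b a ∧ G.Adj b c ∧ G.Adj b e ∧ G.Adj c a ∧ G.Adj c b ∧
    G.Adj c e ∧ G.Adj e b ∧ G.Adj e c

lemma exists_unit [DecidableEq V] (hc : Cubic G) (hcf : ClawFree G)
    (hK : ∀ v a b c : V, ¬ (G.Adj v a ∧ G.Adj v b ∧ G.Adj v c ∧ G.Adj a b ∧ G.Adj a c ∧
      G.Adj b c)) (v : V) :
    ∃ U : Finset V, v ∈ U ∧ IsUnit' G U ∧ (TriType G U ∨ DiaType G U) := by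
  have main : ∀ u : V, inner G u → ∃ U : Finset V, u ∈ U ∧ (∀ w, G.Adj u w → w ∈ U) ∧
      IsUnit' G U ∧ (TriType G U ∨ DiaType G U) := by
    intro u hu
    obtain ⟨x, y, z, hU, h1, h2, h3, h4, h5, h6, i1, i2, i3, g1, g2, g3, g4, g5, g6⟩ :=
      inner_unit hc hcf hK hu
    refine ⟨{x, u, y, z}, by simp, ?_, hU, Or.inr ?_⟩
    · intro w hw
      have hN := nbrs_eq hc h2 h3 h6 g1 g2 g3
      rcases (hN w).1 hw with h | h | h <;> rw [h] <;> simp
    · exact ⟨x, u, y, z, h1, h2, h3, h4, h5, h6, fun p => by simp, i1, hu, i2, i3,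
        g1.symm, g4.symm, g1, g2, g3, g4, g2.symm, g5, g3.symm, g5.symm⟩
  by_cases hv : inner G v
  · obtain ⟨U, h1, -, h2, h3⟩ := main v hv
    exact ⟨U, h1, h2, h3⟩
  · obtain ⟨x, y, z, hxy, hxz, hyz, hadj, hN⟩ := nbrs' hc hcf v
    have hvx : G.Adj v x := (hN x).2 (Or.inl rfl)
    have hvy : G.Adj v y := (hN y).2 (Or.inr (Or.inl rfl))
    by_cases hx : inner G x
    · obtain ⟨U, h1, h1', h2, h3⟩ := main x hx
      exact ⟨U, h1' v hvx.symm, h2, h3⟩
    by_cases hy : inner G y
    · obtain ⟨U, h1, h1', h2, h3⟩ := main y hy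
      exact ⟨U, h1' v hvy.symm, h2, h3⟩
    -- a triangle
    have hgen : ∀ a b c : V, ¬ inner G a → G.Adj a b → G.Adj a c → G.Adj b c →
        ∀ w, tri G a w → w = b ∨ w = c := by
      intro a b c ha hab hac hbc w hw
      unfold inner at ha
      push Not at ha
      obtain ⟨t, hat, ht⟩ := ha
      have tab : tri G a b := ⟨hab, c, hac, hbc⟩
      have tac : tri G a c := ⟨hac, b, hab, hbc.symm⟩
      have htb : t ≠ b := fun h => ht (h ▸ tab)
      have htc : t ≠ c := fun h => ht (h ▸ tac)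
      rcases (nbrs_eq hc (G.ne_of_adj hbc) htb.symm htc.symm hab hac hat w).1 hw.1 with h | h | h
      · exact Or.inl h
      · exact Or.inr h
      · exact absurd (h ▸ hw) ht
    have tvx : tri G v x := ⟨hvx, y, hvy, hadj⟩
    have tvy : tri G v y := ⟨hvy, x, hvx, hadj.symm⟩
    have txy : tri G x y := ⟨hadj, v, hvx.symm, hvy.symm⟩
    refine ⟨{v, x, y}, by simp, ⟨?_, ?_, ?_⟩, Or.inl ?_⟩
    · intro u hu w huw
      simp only [Finset.mem_insert, Finset.mem_singleton] at hu ⊢
      rcases hu with h | h | h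
      · subst h
        rcases hgen u x y hv hvx hvy hadj w huw with h' | h'
        · exact Or.inr (Or.inl h')
        · exact Or.inr (Or.inr h')
      · subst h
        rcases hgen u v y hx hvx.symm hadj hvy w huw with h' | h'
        · exact Or.inl h'
        · exact Or.inr (Or.inr h')
      · subst h
        rcases hgen u v x hy hvy.symm hadj.symm hvx w huw with h' | h'
        · exact Or.inl h'
        · exact Or.inr (Or.inl h')
    · intro u hu w hw
      simp only [Finset.mem_insert, Finset.mem_singleton] at hu hw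
      rcases hu with h | h | h <;> rcases hw with h' | h' | h' <;> subst h <;> subst h'
      · exact Or.inl rfl
      · exact Or.inr (Or.inl tvx)
      · exact Or.inr (Or.inl tvy)
      · exact Or.inr (Or.inl (tri_symm tvx))
      · exact Or.inl rfl
      · exact Or.inr (Or.inl txy)
      · exact Or.inr (Or.inl (tri_symm tvy))
      · exact Or.inr (Or.inl (tri_symm txy))
      · exact Or.inl rfl
    · intro u hu w hw huw
      simp only [Finset.mem_insert, Finset.mem_singleton] at hu hw
      rcases hu with h | h | h <;> rcases hw with h' | h' | h' <;> subst h <;> subst h'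
      · exact absurd huw (G.loopless.irrefl _)
      · exact tvx
      · exact tvy
      · exact tri_symm tvx
      · exact absurd huw (G.loopless.irrefl _)
      · exact txy
      · exact tri_symm tvy
      · exact tri_symm txy
      · exact absurd huw (G.loopless.irrefl _)
    · refine ⟨v, x, y, G.ne_of_adj hvx, G.ne_of_adj hvy, hxy, fun p => by simp, hv, hx, hy, ?_⟩
      intro p hp q hq hpq
      simp only [Finset.mem_insert, Finset.mem_singleton] at hp hq
      rcases hp with h | h | h <;> rcases hq with h' | h' | h' <;> subst h <;> subst h'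
      · exact absurd rfl hpq
      · exact hvx
      · exact hvy
      · exact hvx.symm
      · exact absurd rfl hpq
      · exact hadj
      · exact hvy.symm
      · exact hadj.symm
      · exact absurd rfl hpq

/-- **Upper bound.** Every connected claw-free cubic graph on more than four vertices has a total
dominating set `S` with `12 |S| ≤ 5 n + 8`. -/
theorem upper_bound [Fintype V] (hconn : G.Connected) (hc : Cubic G) (hcf : ClawFree G)
    (hcard : 4 < Fintype.card V) :
    ∃ S : Finset V, (∀ v, ∃ w ∈ S, G.Adj v w) ∧ 12 * S.card ≤ 5 * Fintype.card V + 8 := by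
  classical
  -- a set closed under adjacency is everything
  have hclosed : ∀ S : Set V, S.Nonempty → (∀ v ∈ S, ∀ w, G.Adj v w → w ∈ S) → ∀ v, v ∈ S := by
    intro S ⟨v0, hv0⟩ hS v
    obtain ⟨p⟩ := hconn.preconnected v0 v
    induction p with
    | nil => exact hv0
    | cons h _ ih => exact ih (hS _ hv0 _ h)
  have hK : ∀ v a b c : V, ¬ (G.Adj v a ∧ G.Adj v b ∧ G.Adj v c ∧ G.Adj a b ∧ G.Adj a c ∧
      G.Adj b c) := by
    rintro v a b c ⟨h1, h2, h3, h4, h5, h6⟩
    have hab := G.ne_of_adj h4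
    have hac := G.ne_of_adj h5
    have hbc := G.ne_of_adj h6
    have hva := G.ne_of_adj h1
    have hvb := G.ne_of_adj h2
    have hvc := G.ne_of_adj h3
    have hall := hclosed (({v, a, b, c} : Finset V) : Set V) ⟨v, by simp⟩ (by
      intro u hu w huw
      simp only [Finset.coe_insert, Finset.coe_singleton, Set.mem_insert_iff,
        Set.mem_singleton_iff] at hu ⊢
      rcases hu with h | h | h | h
      · subst h
        rcases (nbrs_eq hc hab hac hbc h1 h2 h3 w).1 huw with h | h | h <;> simp [h]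
      · subst h
        rcases (nbrs_eq hc hvb hvc hbc h1.symm h4 h5 w).1 huw with h | h | h <;> simp [h]
      · subst h
        rcases (nbrs_eq hc hva hvc hac h2.symm h4.symm h6 w).1 huw with h | h | h <;> simp [h]
      · subst h
        rcases (nbrs_eq hc hva hvb hab h3.symm h5.symm h6.symm w).1 huw with h | h | h <;>
          simp [h])
    have hle : Fintype.card V ≤ ({v, a, b, c} : Finset V).card := by
      rw [← Finset.card_univ]
      apply Finset.card_le_card
      intro u _
      exact_mod_cast hall u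
    have : ({v, a, b, c} : Finset V).card ≤ 4 := Finset.card_le_four
    omega
  choose node hmem hunit htype using exists_unit hc hcf hK
  -- units are equal as soon as they meet
  have hnode_eq : ∀ U : Finset V, IsUnit' G U → ∀ v ∈ U, node v = U := by
    have hsub : ∀ U U' : Finset V, IsUnit' G U → IsUnit' G U' → ∀ v, v ∈ U → v ∈ U' → U ⊆ U' := by
      intro U U' hU hU' v hv hv' w hw
      rcases hU.conn v hv w hw with h | h | ⟨t, h1, h2⟩
      · rw [← h]; exact hv'
      · exact hU'.closed v hv' w h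
      · exact hU'.closed t (hU'.closed v hv' t h1) w h2
    intro U hU v hv
    exact Finset.Subset.antisymm (hsub _ _ (hunit v) hU v (hmem v) hv)
      (hsub _ _ hU (hunit v) v hv (hmem v))
  have hnode_iff : ∀ U : Finset V, IsUnit' G U → ∀ p, node p = U ↔ p ∈ U := by
    intro U hU p
    constructor
    · intro h; rw [← h]; exact hmem p
    · exact hnode_eq U hU p
  -- mates
  have hmate_ex : ∀ v, ∃ w, (¬ inner G v → G.Adj v w ∧ ¬ tri G v w) := by
    intro v
    by_cases h : inner G v
    · exact ⟨v, fun h' => absurd h h'⟩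
    · unfold inner at h
      push Not at h
      obtain ⟨w, hw⟩ := h
      exact ⟨w, fun _ => hw⟩
  choose mate hmate using hmate_ex
  -- uniqueness of outer neighbours
  have huniq : ∀ v w w', G.Adj v w → ¬ tri G v w → G.Adj v w' → ¬ tri G v w' → w = w' := by
    intro v w w' h1 h2 h3 h4
    obtain ⟨a, b, c, hab, hac, hbc, hadj, hN⟩ := nbrs' hc hcf v
    have hva : G.Adj v a := (hN a).2 (Or.inl rfl)
    have hvb : G.Adj v b := (hN b).2 (Or.inr (Or.inl rfl))
    have ta : tri G v a := ⟨hva, b, hvb, hadj⟩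
    have tb : tri G v b := ⟨hvb, a, hva, hadj.symm⟩
    have e1 : w = c := by
      rcases (hN w).1 h1 with h | h | h
      · exact absurd (h ▸ ta) h2
      · exact absurd (h ▸ tb) h2
      · exact h
    have e2 : w' = c := by
      rcases (hN w').1 h3 with h | h | h
      · exact absurd (h ▸ ta) h4
      · exact absurd (h ▸ tb) h4
      · exact h
    rw [e1, e2]
  have hmni : ∀ v, ¬ inner G v → ¬ inner G (mate v) := by
    intro v hv hm
    obtain ⟨h1, h2⟩ := hmate v hv
    exact h2 (tri_symm (hm v h1.symm))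
  have hminv : ∀ v, ¬ inner G v → mate (mate v) = v := by
    intro v hv
    obtain ⟨h1, h2⟩ := hmate v hv
    obtain ⟨h3, h4⟩ := hmate (mate v) (hmni v hv)
    exact huniq (mate v) _ _ h3 h4 h1.symm (fun h => h2 (tri_symm h))
  let M : Net V (Finset V) := ⟨node, mate, fun _ => 0⟩
  let A : Finset (Finset V) := Finset.univ.image node
  have hA : ∀ p, node p ∈ A := fun p => Finset.mem_image_of_mem _ (Finset.mem_univ _)
  haveI : DecidablePred (inner G) := fun _ => Classical.propDecidable _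
  have hG1 : Net.Good1 M (inner G) G.Adj A := by
    refine ⟨fun p _ _ => hA _, fun p _ hp => hmni p hp, fun p _ hp => hminv p hp, ?_,
      fun p _ _ => rfl, fun p _ _ => by show 0 < 5; norm_num, ?_, ?_⟩
    · intro p _ hp
      exact (G.ne_of_adj (hmate p hp).1).symm
    · intro p _ hp hnn
      exfalso
      have hnn' : node (mate p) = node p := hnn
      have h1 : mate p ∈ node p := by rw [← hnn']; exact hmem _
      exact (hmate p hp).2 ((hunit p).adj_tri p (hmem p) _ h1 (hmate p hp).1)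
    · intro x hx
      obtain ⟨v, -, rfl⟩ := Finset.mem_image.1 hx
      rcases htype v with h | h
      · left
        obtain ⟨p1, p2, p3, h12, h13, h23, hF, i1, i2, i3, hadj⟩ := h
        refine ⟨p1, p2, p3, h12, h13, h23, ?_, i1, i2, i3, ?_⟩
        · intro p
          show node p = node v ↔ _
          rw [hnode_iff _ (hunit v), hF]
        · intro p q hp hq hpq
          exact hadj p ((hnode_iff _ (hunit v) p).1 hp) q ((hnode_iff _ (hunit v) q).1 hq) hpq
      · right
        obtain ⟨a, b, c, e, h1, h2, h3, h4, h5, h6, hF, i1, i2, i3, i4, g⟩ := h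
        refine ⟨a, b, c, e, h1, h2, h3, h4, h5, h6, ?_, i1, i2, i3, i4, g⟩
        intro p
        show node p = node v ↔ _
        rw [hnode_iff _ (hunit v), hF]
  have hC1 : Net.Conn1 M (inner G) A := by
    intro B hB ⟨x, hx⟩ hcl
    apply Finset.Subset.antisymm hB
    obtain ⟨v0, -, hv0⟩ := Finset.mem_image.1 (hB hx)
    have hall := hclosed {v | node v ∈ B} ⟨v0, by show node v0 ∈ B; rw [hv0]; exact hx⟩ (by
      intro v hv w hvw
      show node w ∈ B
      by_cases ht : tri G v w
      · have : w ∈ node v := (hunit v).closed v (hmem v) w ht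
        rw [hnode_eq _ (hunit v) w this]; exact hv
      · have hvi : ¬ inner G v := fun h => ht (h w hvw)
        have : w = mate v := huniq v w _ hvw ht (hmate v hvi).1 (hmate v hvi).2
        rw [this]
        exact hcl v hv hvi)
    intro y hy
    obtain ⟨v, -, rfl⟩ := Finset.mem_image.1 hy
    exact hall v
  have hne : A.Nonempty := by
    haveI : Nonempty V := hconn.nonempty
    obtain ⟨v⟩ := ‹Nonempty V›
    exact ⟨node v, hA v⟩
  obtain ⟨s, d, hv, hcst⟩ := Net.net1_main (inner := inner G) A.card M A rfl hG1 hC1 hne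
  refine ⟨Finset.univ.filter fun v => s v = true, ?_, ?_⟩
  · intro v
    obtain ⟨h1, h2⟩ := hv v (hA v)
    rcases h1 with ⟨hni, hd⟩ | ⟨q, -, hq, hs⟩
    · have h3 := h2 hni
      have h4 : lok 0 (s v) (d v) (d (mate v)) (s (mate v)) = true := h3
      rw [hd] at h4
      simp only [lok, beq_self_eq_true, Bool.not_true, Bool.false_or, Bool.and_eq_true] at h4
      exact ⟨mate v, by simpa using h4.1, (hmate v hni).1⟩
    · exact ⟨q, by simpa using hs, hq⟩
  · have hpt : M.pt A = Finset.univ := by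
      ext v; simp only [Net.mem_pt, Finset.mem_univ, iff_true]; exact hA v
    have hterm : ∀ v, Net.term1 M (inner G) s d v = 0 := by
      intro v
      unfold Net.term1
      split_ifs
      · rfl
      · show hE 0 _ _ _ _ = 0
        simp [hE]
    unfold Net.cost1 at hcst
    rw [hpt] at hcst
    simp only [hterm, add_zero] at hcst
    rw [Finset.sum_sub_distrib, ← Finset.mul_sum] at hcst
    have h1 : ∑ v : V, bi (s v) = ((Finset.univ.filter fun v => s v = true).card : ℤ) := by
      rw [Finset.card_filter]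
      push_cast
      apply Finset.sum_congr rfl
      intro v _
      cases s v <;> simp [bi]
    rw [h1] at hcst
    simp only [Finset.sum_const, Finset.card_univ, nsmul_eq_mul] at hcst
    have : (12 : ℤ) * ((Finset.univ.filter fun v => s v = true).card : ℤ) ≤
        5 * (Fintype.card V : ℤ) + 8 := by linarith
    exact_mod_cast this

end Graph

end Pool.Agent.MP_d479ed_co
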