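import Pool.Agent.MP_d479ed_co.Main

namespace Pool.Agent.MP_d479ed_co

open Finset

namespace Net

variable {P N : Type} [Fintype P] [DecidableEq P] [DecidableEq N]

/-- `x` has exactly the ports `p1, p2, p3`. -/
def Fib (M : Net P N) (x : N) (p1 p2 p3 : P) : Prop :=
  p1 ≠ p2 ∧ p1 ≠ p3 ∧ p2 ≠ p3 ∧ ∀ p, M.node p = x ↔ p = p1 ∨ p = p2 ∨ p = p3

variable {M : Net P N}

omit [Fintype P] [DecidableEq P] [DecidableEq N] in
lemma Fib.swap12 {x : N} {p1 p2 p3 : P} (h : Fib M x p1 p2 p3) : Fib M x p2 p1 p3 := by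
  obtain ⟨h1, h2, h3, h4⟩ := h
  refine ⟨h1.symm, h3, h2, fun p => ?_⟩
  rw [h4]; tauto

omit [Fintype P] [DecidableEq P] [DecidableEq N] in
lemma Fib.swap23 {x : N} {p1 p2 p3 : P} (h : Fib M x p1 p2 p3) : Fib M x p1 p3 p2 := by
  obtain ⟨h1, h2, h3, h4⟩ := h
  refine ⟨h2, h1, h3.symm, fun p => ?_⟩
  rw [h4]; tauto

omit [Fintype P] [DecidableEq P] [DecidableEq N] in
lemma Fib.sorted {x : N} {p1 p2 p3 : P} (h : Fib M x p1 p2 p3) (f : P → ℕ) :
    ∃ q1 q2 q3, Fib M x q1 q2 q3 ∧ f q1 ≤ f q2 ∧ f q2 ≤ f q3 := by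
  rcases le_total (f p1) (f p2) with h12 | h12
  · rcases le_total (f p2) (f p3) with h23 | h23
    · exact ⟨p1, p2, p3, h, h12, h23⟩
    · rcases le_total (f p1) (f p3) with h13 | h13
      · exact ⟨p1, p3, p2, h.swap23, h13, h23⟩
      · exact ⟨p3, p1, p2, h.swap23.swap12, h13, h12⟩
  · rcases le_total (f p1) (f p3) with h13 | h13
    · exact ⟨p2, p1, p3, h.swap12, h12, h13⟩
    · rcases le_total (f p2) (f p3) with h23 | h23
      · exact ⟨p2, p3, p1, h.swap12.swap23, h23, h13⟩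
      · exact ⟨p3, p2, p1, h.swap12.swap23.swap12, h23, h12⟩

omit [Fintype P] [DecidableEq P] [DecidableEq N] in
/-- Put a prescribed port first. -/
lemma Fib.first {x : N} {p1 p2 p3 p : P} (h : Fib M x p1 p2 p3) (hp : M.node p = x) :
    ∃ q2 q3, Fib M x p q2 q3 := by
  rcases (h.2.2.2 p).1 hp with h1 | h1 | h1
  · subst h1; exact ⟨p2, p3, h⟩
  · subst h1; exact ⟨p1, p3, h.swap12⟩
  · subst h1; exact ⟨p1, p2, h.swap23.swap12⟩

omit [Fintype P] [DecidableEq P] [DecidableEq N] in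
lemma Fib.n1 {x : N} {p1 p2 p3 : P} (h : Fib M x p1 p2 p3) : M.node p1 = x :=
  (h.2.2.2 p1).2 (Or.inl rfl)

omit [Fintype P] [DecidableEq P] [DecidableEq N] in
lemma Fib.n2 {x : N} {p1 p2 p3 : P} (h : Fib M x p1 p2 p3) : M.node p2 = x :=
  (h.2.2.2 p2).2 (Or.inr (Or.inl rfl))

omit [Fintype P] [DecidableEq P] [DecidableEq N] in
lemma Fib.n3 {x : N} {p1 p2 p3 : P} (h : Fib M x p1 p2 p3) : M.node p3 = x :=
  (h.2.2.2 p3).2 (Or.inr (Or.inr rfl))

omit [Fintype P] [DecidableEq P] [DecidableEq N] in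
lemma mate_inj {A0 : Finset N} (hG : M.Good A0) {p q : P} (hp : M.node p ∈ A0)
    (hq : M.node q ∈ A0) (h : M.mate p = M.mate q) : p = q := by
  rw [← hG.inv p hp, ← hG.inv q hq, h]

/-- Exceptional nodes. -/
def Exc (M : Net P N) (A : Finset N) (typ : P → ℕ) (x : N) : Prop :=
  ∃ p1 p2 p3, Fib M x p1 p2 p3 ∧ spec M (A.erase x) typ p1 = 0 ∧ spec M (A.erase x) typ p2 = 0 ∧
    (spec M (A.erase x) typ p3 = 0 ∨ spec M (A.erase x) typ p3 = 9) ∧
    ∀ p, M.node p = x → M.node (M.mate p) ≠ x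

omit [Fintype P] [DecidableEq P] in
lemma spec_zero {A' : Finset N} {typ : P → ℕ} {p : P} (h : spec M A' typ p = 0) :
    M.node (M.mate p) ∈ A' ∧ M.lab p = 0 := by
  unfold spec at h
  by_cases hm : M.node (M.mate p) ∈ A'
  · rw [if_pos hm] at h; exact ⟨hm, h⟩
  · rw [if_neg hm] at h; omega

lemma ext_upd {A0 A : Finset N} (hG : M.Good A0) (hA : A ⊆ A0) {x : N} (hx : x ∈ A)
    {p1 p2 p3 : P} (hF : Fib M x p1 p2 p3) (typ : P → ℕ) (s' d' : P → Bool)
    {z1 z2 z3 : ℕ} {δ : ℤ}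
    (hv : M.valid (A.erase x) (upd typ (M.mate p1) (M.mate p2) (M.mate p3) z1 z2 z3) s' d')
    (hm : ∀ p, M.node p = x → M.node (M.mate p) ≠ x)
    (hloc : Loc (spec M (A.erase x) typ p1) (spec M (A.erase x) typ p2)
      (spec M (A.erase x) typ p3) z1 z2 z3 δ) :
    ∃ s d, M.valid A typ s d ∧ M.cost A typ s d ≤
      M.cost (A.erase x) (upd typ (M.mate p1) (M.mate p2) (M.mate p3) z1 z2 z3) s' d' + δ := by
  have hA0 : ∀ p, M.node p = x → M.node p ∈ A0 := fun p h => hA (by rw [h]; exact hx)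
  have hd12 : M.mate p1 ≠ M.mate p2 := fun h =>
    hF.1 (mate_inj hG (hA0 _ hF.n1) (hA0 _ hF.n2) h)
  have hd13 : M.mate p1 ≠ M.mate p3 := fun h =>
    hF.2.1 (mate_inj hG (hA0 _ hF.n1) (hA0 _ hF.n3) h)
  have hd23 : M.mate p2 ≠ M.mate p3 := fun h =>
    hF.2.2.1 (mate_inj hG (hA0 _ hF.n2) (hA0 _ hF.n3) h)
  refine ext_node hG hA hx hF.1 hF.2.1 hF.2.2.1 hF.2.2.2 typ _ s' d' z1 z2 z3 ?_
    (fun _ => upd_1 _ _ _ _ _ _ _) (fun _ => upd_2 _ hd12 _ _ _)
    (fun _ => upd_3 _ hd13 hd23 _ _ _) hv (hm _ hF.n1) (hm _ hF.n2) (hm _ hF.n3) hloc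
  intro p hp hmx
  have h1 : p ≠ M.mate p1 := fun h => hmx (by rw [h, hG.inv _ (hA0 _ hF.n1), hF.n1])
  have h2 : p ≠ M.mate p2 := fun h => hmx (by rw [h, hG.inv _ (hA0 _ hF.n2), hF.n2])
  have h3 : p ≠ M.mate p3 := fun h => hmx (by rw [h, hG.inv _ (hA0 _ hF.n3), hF.n3])
  exact upd_ne _ h1 h2 h3 _ _ _

/-- Cutting off a non-exceptional node. -/
lemma cut_node {A0 A : Finset N} (hG : M.Good A0) (hA : A ⊆ A0) {x : N} (hx : x ∈ A)
    (typ : P → ℕ) (ht : ∀ p, M.node p ∈ A → typ p < 6)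
    (hlink : ∃ p, M.node p = x ∧ M.node (M.mate p) ∈ A.erase x)
    (hrec : ∀ typ' : P → ℕ, (∀ p, M.node p ∈ A.erase x → typ' p < 6) →
      ∃ s d, M.valid (A.erase x) typ' s d ∧ M.cost (A.erase x) typ' s d ≤ 6) :
    (∃ s d, M.valid A typ s d ∧ M.cost A typ s d ≤ 6) ∨ Exc M A typ x := by
  obtain ⟨a1, a2, a3, hF0⟩ := hG.three x (hA hx)
  have hF : Fib M x a1 a2 a3 := hF0
  have hA0 : ∀ p, M.node p = x → M.node p ∈ A0 := fun p h => hA (by rw [h]; exact hx)
  by_cases hloop : ∃ p, M.node p = x ∧ M.node (M.mate p) = x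
  · -- a loop
    left
    obtain ⟨p2, hp2, hm2⟩ := hloop
    obtain ⟨b1, b2, hF1⟩ := hF.first hp2
    -- the mate of `p2` is another port
    have hmne : M.mate p2 ≠ p2 := hG.ne p2 (hA0 p2 hp2)
    have : ∃ p1, Fib M x p1 p2 (M.mate p2) := by
      rcases (hF1.2.2.2 _).1 hm2 with h | h | h
      · exact absurd h hmne
      · rw [h]; exact ⟨b2, hF1.swap23.swap12⟩
      · rw [h]; exact ⟨b1, hF1.swap12⟩
    obtain ⟨p1, hF2⟩ := this
    have hm1 : M.node (M.mate p1) ≠ x := by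
      intro h
      rcases (hF2.2.2.2 _).1 h with h' | h' | h'
      · exact hG.ne p1 (hA0 p1 hF2.n1) h'
      · apply hF2.2.1
        rw [← h', hG.inv p1 (hA0 p1 hF2.n1)]
      · exact hF2.1 (mate_inj hG (hA0 p1 hF2.n1) (hA0 p2 hp2) h')
    have hl1 : M.node (M.mate p1) ∈ A.erase x := by
      obtain ⟨p, hp, hpm⟩ := hlink
      rcases (hF2.2.2.2 p).1 hp with h | h | h
      · rw [← h]; exact hpm
      · exfalso; rw [h, hm2] at hpm; simp at hpm
      · exfalso; rw [h, hG.inv p2 (hA0 p2 hp2), hp2] at hpm; simp at hpm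
    have hlt1 : M.lab p1 < 5 := hG.lab_lt p1 (hA0 p1 hF2.n1)
    have hlt2 : M.lab p2 < 5 := hG.lab_lt p2 (hA0 p2 hp2)
    have hlne : M.lab p2 ≠ 0 := hG.loop p2 (hA0 p2 hp2) (by rw [hm2, hp2])
    obtain ⟨z, hz⟩ := locl_link ⟨M.lab p1, hlt1⟩ ⟨M.lab p2 - 1, by omega⟩
    simp only at hz
    rw [Nat.sub_add_cancel (Nat.one_le_iff_ne_zero.2 hlne)] at hz
    obtain ⟨s', d', hv, hc⟩ := hrec (fun p => if p = M.mate p1 then z else typ p) (by
      intro p hp
      by_cases h : p = M.mate p1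
      · simp only [h, if_true]; exact z.2
      · simp only [h, if_false]; exact ht p (Finset.mem_erase.1 hp).2)
    have hspec : spec M (A.erase x) typ p1 = M.lab p1 := by unfold spec; rw [if_pos hl1]
    obtain ⟨s, d, h1, h2⟩ := ext_loop hG hA hx hF2.1 hF2.2.1 hF2.2.2.1 hF2.2.2.2 typ
      (fun p => if p = M.mate p1 then (z : ℕ) else typ p) s' d' z
      (by
        intro p hp hmx
        have : p ≠ M.mate p1 := fun h => hmx (by rw [h, hG.inv p1 (hA0 p1 hF2.n1), hF2.n1])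
        simp [this])
      (fun _ => by simp) hv hm1 rfl (δ := 0) (by rw [hspec]; exact hz)
    exact ⟨s, d, h1, by linarith⟩
  · -- no loops
    push Not at hloop
    obtain ⟨p1, p2, p3, hF1, h12, h23⟩ := hF.sorted (spec M (A.erase x) typ)
    have hle10 : ∀ p, M.node p = x → spec M (A.erase x) typ p ≤ 10 := by
      intro p hp
      unfold spec
      by_cases h : M.node (M.mate p) ∈ A.erase x
      · rw [if_pos h]; have := hG.lab_lt p (hA0 p hp); omega
      · rw [if_neg h]; have := ht p (by rw [hp]; exact hx); omega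
    have hlt5 : spec M (A.erase x) typ p1 < 5 := by
      obtain ⟨p, hp, hpm⟩ := hlink
      have h1 : spec M (A.erase x) typ p < 5 := by
        unfold spec; rw [if_pos hpm]; exact hG.lab_lt p (hA0 p hp)
      rcases (hF1.2.2.2 p).1 hp with h | h | h
      · rw [← h]; exact h1
      · rw [h] at h1; omega
      · rw [h] at h1; omega
    by_cases hexc : spec M (A.erase x) typ p1 = 0 ∧ spec M (A.erase x) typ p2 = 0 ∧
        (spec M (A.erase x) typ p3 = 0 ∨ spec M (A.erase x) typ p3 = 9)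
    · right
      exact ⟨p1, p2, p3, hF1, hexc.1, hexc.2.1, hexc.2.2, hloop⟩
    · left
      have hgood : goodb (spec M (A.erase x) typ p1) (spec M (A.erase x) typ p2)
          (spec M (A.erase x) typ p3) = true := by
        have h3 := hle10 p3 hF1.n3
        unfold goodb
        simp only [Bool.and_eq_true, Bool.or_eq_true, decide_eq_true_eq, Bool.not_eq_true',
          Bool.and_eq_false_iff, beq_iff_eq, Bool.or_eq_false_iff, beq_eq_false_iff_ne]
        refine ⟨⟨⟨h12, h23⟩, hlt5⟩, Or.inl (Or.inl (Or.inl ⟨h3, ?_⟩))⟩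
        by_contra hcon
        apply hexc
        push Not at hcon
        obtain ⟨⟨e1, e2⟩, e3⟩ := hcon
        refine ⟨e1, e2, ?_⟩
        by_cases h0 : spec M (A.erase x) typ p3 = 0
        · exact Or.inl h0
        · exact Or.inr (e3 h0)
      obtain ⟨z1, z2, z3, hz1, hz2, hz3, hloc⟩ := loc_good _ _ _ hgood
      obtain ⟨s', d', hv, hc⟩ := hrec
        (upd typ (M.mate p1) (M.mate p2) (M.mate p3) z1 z2 z3) (by
          intro p hp
          unfold upd
          split_ifs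
          · exact hz1
          · exact hz2
          · exact hz3
          · exact ht p (Finset.mem_erase.1 hp).2)
      obtain ⟨s, d, h1, h2⟩ := ext_upd hG hA hx hF1 typ s' d' hv hloop hloc
      exact ⟨s, d, h1, by linarith⟩

end Net

end Pool.Agent.MP_d479ed_co
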