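import Pool.Agent.MP_d479ed_co.Lower

namespace Pool.Agent.MP_d479ed_co

open Filter Topology

lemma totalDom_le {V : Type} (G : SimpleGraph V) (S : Finset V)
    (hS : ∀ v, ∃ w ∈ S, G.Adj v w) : totalDom G ≤ S.card :=
  Nat.sInf_le ⟨S, hS, rfl⟩

lemma ratio_le {V : Type} [Fintype V] (G : SimpleGraph V) (h1 : G.Connected) (h2 : Cubic G)
    (h3 : ClawFree G) {k : ℕ} (hk : 3 ≤ k) (h4 : 2 * k ≤ Fintype.card V) :
    (totalDom G : ℝ) / (Fintype.card V : ℝ) ≤ 5 / 12 + 1 / (3 * k) := by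
  obtain ⟨S, hS, hc⟩ := upper_bound h1 h2 h3 (by omega)
  have h5 : 12 * totalDom G ≤ 5 * Fintype.card V + 8 :=
    (Nat.mul_le_mul_left 12 (totalDom_le G S hS)).trans hc
  have hk0 : (0 : ℝ) < k := by exact_mod_cast (by omega : 0 < k)
  have hn : (2 * k : ℝ) ≤ Fintype.card V := by exact_mod_cast h4
  have hn0 : (0 : ℝ) < Fintype.card V := by linarith
  have h6 : (12 : ℝ) * totalDom G ≤ 5 * Fintype.card V + 8 := by exact_mod_cast h5
  rw [div_le_iff₀ hn0]
  have h7 : (2 : ℝ) / 3 ≤ 1 / (3 * k) * Fintype.card V := by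
    rw [div_mul_eq_mul_div, le_div_iff₀ (by positivity)]
    linarith
  have h8 : (5 / 12 + 1 / (3 * (k : ℝ))) * (Fintype.card V : ℝ) =
      5 / 12 * Fintype.card V + 1 / (3 * k) * Fintype.card V := by ring
  rw [h8]
  linarith

lemma ring_card (m : ℕ) : Fintype.card (ZMod (m + 2) × Fin 24) = 24 * (m + 2) := by
  rw [Fintype.card_prod, ZMod.card, Fintype.card_fin]; ring

lemma ring_ratio (m : ℕ) :
    (5 : ℝ) / 12 ≤ (totalDom (ring m) : ℝ) / (Fintype.card (ZMod (m + 2) × Fin 24) : ℝ) := by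
  have h1 : 10 * (m + 2) ≤ totalDom (ring m) := by
    apply le_csInf
    · refine ⟨_, Finset.univ, ?_, rfl⟩
      intro v
      obtain ⟨a, b, c, -, -, -, -, h⟩ := ring_nbrs m v
      exact ⟨a, Finset.mem_univ _, (h a).2 (Or.inl rfl)⟩
    · rintro n ⟨S, hS, rfl⟩
      exact ring_lower m S hS
  have h2 : (10 : ℝ) * (m + 2) ≤ totalDom (ring m) := by exact_mod_cast h1
  rw [ring_card, le_div_iff₀ (by positivity)]
  push_cast
  linarith

theorem ft_bounds (k : ℕ) (hk : 3 ≤ k) : 5 / 12 ≤ ft k ∧ ft k ≤ 5 / 12 + 1 / (3 * k) := by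
  have hmem : (totalDom (ring k) : ℝ) / (Fintype.card (ZMod (k + 2) × Fin 24) : ℝ) ∈
      {r : ℝ | ∃ (V : Type) (_ : Fintype V) (G : SimpleGraph V), G.Connected ∧ Cubic G ∧
        ClawFree G ∧ 2 * k ≤ Fintype.card V ∧ r = (totalDom G : ℝ) / (Fintype.card V : ℝ)} :=
    ⟨_, inferInstance, ring k, ring_connected k, ring_cubic k, ring_clawFree k,
      by rw [ring_card]; omega, rfl⟩
  have hub : ∀ r ∈ {r : ℝ | ∃ (V : Type) (_ : Fintype V) (G : SimpleGraph V), G.Connected ∧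
        Cubic G ∧ ClawFree G ∧ 2 * k ≤ Fintype.card V ∧
        r = (totalDom G : ℝ) / (Fintype.card V : ℝ)}, r ≤ 5 / 12 + 1 / (3 * k) := by
    rintro r ⟨V, _, G, h1, h2, h3, h4, rfl⟩
    exact ratio_le G h1 h2 h3 hk h4
  constructor
  · exact (ring_ratio k).trans (le_csSup ⟨_, hub⟩ hmem)
  · exact csSup_le ⟨_, hmem⟩ hub

theorem ft_tendsto : Tendsto ft atTop (𝓝 (5 / 12)) := by
  have h1 : Tendsto (fun k : ℕ => (5 : ℝ) / 12 + 1 / (3 * k)) atTop (𝓝 (5 / 12)) := by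
    have h2 : Tendsto (fun k : ℕ => (1 : ℝ) / (3 * k)) atTop (𝓝 0) := by
      have h3 : Tendsto (fun k : ℕ => (1 / 3 : ℝ) * (1 / (k : ℝ))) atTop (𝓝 (1 / 3 * 0)) :=
        tendsto_one_div_atTop_nhds_zero_nat.const_mul _
      rw [mul_zero] at h3
      refine h3.congr fun k => ?_
      rw [one_div_mul_one_div]
    simpa using h2.const_add (5 / 12 : ℝ)
  refine tendsto_of_tendsto_of_tendsto_of_le_of_le' tendsto_const_nhds h1 ?_ ?_
  · filter_upwards [eventually_ge_atTop 3] with k hk using (ft_bounds k hk).1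
  · filter_upwards [eventually_ge_atTop 3] with k hk using (ft_bounds k hk).2

end Pool.Agent.MP_d479ed_co
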