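import Pool.Agent.MP_d479ed_co.Tables

namespace Pool.Agent.MP_d479ed_co

lemma outs_rep (a z : ℕ) (so dO : Bool) (h : outok a z dO = true) :
    ∃ o ∈ outs a z, ∀ S D, sok a o.1 o.2 S D = sok a so dO S D ∧
      sc a z o.1 o.2 S D = sc a z so dO S D := by
  by_cases ha : a < 5
  · refine ⟨(so, dO), ?_, fun S D => ⟨rfl, rfl⟩⟩
    by_cases hz : z = 4
    · subst hz
      simp [outok, ha, pok] at h
      subst h
      simp only [outs, ha, if_true]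
      cases so <;> simp
    · simp only [outs, ha, if_true, hz, if_false]
      cases so <;> cases dO <;> simp
  · refine ⟨(false, false), ?_, fun S D => ?_⟩
    · simp [outs, ha]
    · simp [sok, sc, ha]

lemma confs_nok : ∀ x ∈ confs, nok x.1 x.2.1 x.2.2.1 x.2.2.2.1 x.2.2.2.2.1 x.2.2.2.2.2 = true := by
  decide

lemma loc_of_locb {a b c z1 z2 z3 : ℕ} {δ : ℤ} (h : locb a b c z1 z2 z3 δ = true) :
    Loc a b c z1 z2 z3 δ := by
  intro so1 do1 so2 do2 so3 do3 h1 h2 h3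
  obtain ⟨o1, ho1, e1⟩ := outs_rep a z1 so1 do1 h1
  obtain ⟨o2, ho2, e2⟩ := outs_rep b z2 so2 do2 h2
  obtain ⟨o3, ho3, e3⟩ := outs_rep c z3 so3 do3 h3
  unfold locb at h
  have := List.all_eq_true.1 (List.all_eq_true.1 (List.all_eq_true.1 h o1 ho1) o2 ho2) o3 ho3
  obtain ⟨x, hx, hx'⟩ := List.any_eq_true.1 this
  simp only [Bool.and_eq_true, decide_eq_true_eq] at hx'
  obtain ⟨⟨⟨k1, k2⟩, k3⟩, k4⟩ := hx'
  refine ⟨x.1, x.2.1, x.2.2.1, x.2.2.2.1, x.2.2.2.2.1, x.2.2.2.2.2, confs_nok x hx, ?_, ?_, ?_, ?_⟩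
  · rw [← (e1 _ _).1]; exact k1
  · rw [← (e2 _ _).1]; exact k2
  · rw [← (e3 _ _).1]; exact k3
  · rw [← (e1 _ _).2, ← (e2 _ _).2, ← (e3 _ _).2]; exact k4

/-- Admissible sorted triples of specifications. -/
def goodb (a b c : ℕ) : Bool :=
  a ≤ b && b ≤ c && a < 5 &&
    ((c ≤ 10 && !(a == 0 && b == 0 && (c == 0 || c == 9))) ||
     (c == 11 && (b < 5 || b == 5 || b == 7 || b == 8 || b == 9)) ||
     (c == 12 && b == 6) || (c == 13 && b == 10))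

lemma ztab_complete : ∀ a b c : Fin 14, goodb a b c = true →
    ∃ t ∈ ztab, t.1 = a ∧ t.2.1 = b ∧ t.2.2.1 = c := by
  decide +kernel

lemma ztab_lt : ∀ t ∈ ztab, t.2.2.2.1 < 6 ∧ t.2.2.2.2.1 < 6 ∧ t.2.2.2.2.2 < 6 := by
  decide +kernel

/-- The local lemma for cutting off a single node. -/
lemma loc_good (a b c : ℕ) (h : goodb a b c = true) :
    ∃ z1 z2 z3, z1 < 6 ∧ z2 < 6 ∧ z3 < 6 ∧ Loc a b c z1 z2 z3 0 := by
  have hc : c < 14 := by
    simp only [goodb, Bool.and_eq_true, Bool.or_eq_true, decide_eq_true_eq, beq_iff_eq] at h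
    omega
  have hb : b < 14 := by
    simp only [goodb, Bool.and_eq_true, Bool.or_eq_true, decide_eq_true_eq, beq_iff_eq] at h
    omega
  have ha : a < 14 := by
    simp only [goodb, Bool.and_eq_true, Bool.or_eq_true, decide_eq_true_eq, beq_iff_eq] at h
    omega
  obtain ⟨t, ht, h1, h2, h3⟩ := ztab_complete ⟨a, ha⟩ ⟨b, hb⟩ ⟨c, hc⟩ h
  simp only at h1 h2 h3
  obtain ⟨k1, k2, k3⟩ := ztab_lt t ht
  refine ⟨t.2.2.2.1, t.2.2.2.2.1, t.2.2.2.2.2, k1, k2, k3, ?_⟩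
  rw [← h1, ← h2, ← h3]
  exact loc_of_locb (List.all_eq_true.1 ztab_ok t ht)

/-- Cutting an exceptional node. -/
lemma loc_exc : ∀ zz ∈ [((6 : ℕ), (4 : ℕ)), (7, 0), (8, 2)], ∀ c ∈ [(0 : ℕ), 9],
    locb 0 0 c zz.1 zz.2 4 0 = true := by
  decide +kernel

/-- Closed node with three ordinary pendants. -/
lemma loc_closed : ∀ i j l : Fin 6, locb (5 + i) (5 + j) (5 + l) 0 0 0 6 = true := by
  decide +kernel

/-- Closed node with an exceptional pendant. -/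
lemma loc_closed' : ∀ i : Fin 6, locb (5 + i) 9 11 0 0 0 6 = true := by
  decide +kernel

/-- Loops. -/
def locl (a z l : ℕ) (δ : ℤ) : Bool :=
  (outs a z).all fun o => confs.any fun x =>
    sok a o.1 o.2 x.1 x.2.2.2.1 && lok l x.2.1 x.2.2.2.2.1 x.2.2.2.2.2 x.2.2.1 &&
      decide (sc a z o.1 o.2 x.1 x.2.2.2.1 + (12 * bi x.2.1 - 5) + (12 * bi x.2.2.1 - 5) +
        2 * hE l x.2.1 x.2.2.2.2.1 x.2.2.2.2.2 x.2.2.1 ≤ δ)

lemma locl_link : ∀ a : Fin 5, ∀ l : Fin 4, ∃ z : Fin 6, locl a z (l + 1) 0 = true := by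
  decide +kernel

lemma locl_pend : ∀ i : Fin 6, ∀ l : Fin 4, locl (5 + i) 0 (l + 1) 6 = true := by
  decide +kernel

lemma loop_spec {a z l : ℕ} {δ : ℤ} (h : locl a z l δ = true) (so dO : Bool)
    (ho : outok a z dO = true) : ∃ S1 S2 S3 D1 D2 D3 : Bool, nok S1 S2 S3 D1 D2 D3 = true ∧
      sok a so dO S1 D1 = true ∧ lok l S2 D2 D3 S3 = true ∧
      sc a z so dO S1 D1 + (12 * bi S2 - 5) + (12 * bi S3 - 5) + 2 * hE l S2 D2 D3 S3 ≤ δ := by
  obtain ⟨o1, ho1, e1⟩ := outs_rep a z so dO ho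
  unfold locl at h
  have := List.all_eq_true.1 h o1 ho1
  obtain ⟨x, hx, hx'⟩ := List.any_eq_true.1 this
  simp only [Bool.and_eq_true, decide_eq_true_eq] at hx'
  obtain ⟨⟨k1, k2⟩, k4⟩ := hx'
  refine ⟨x.1, x.2.1, x.2.2.1, x.2.2.2.1, x.2.2.2.2.1, x.2.2.2.2.2, confs_nok x hx, ?_, k2, ?_⟩
  · rw [← (e1 _ _).1]; exact k1
  · rw [← (e1 _ _).2]; exact k4

lemma hE_symm (k : ℕ) (hk : k < 5) (s d d' s' : Bool) : hE k s d d' s' = hE k s' d' d s := by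
  have : ∀ k : Fin 5, ∀ s d d' s' : Bool, hE k s d d' s' = hE k s' d' d s := by decide +kernel
  exact this ⟨k, hk⟩ s d d' s'

lemma lok_symm (k : ℕ) (s d d' s' : Bool) : lok k s d d' s' = lok k s' d' d s := by
  unfold lok
  cases s <;> cases d <;> cases d' <;> cases s' <;> simp

end Pool.Agent.MP_d479ed_co
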