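import Pool.Agent.MP_d479ed_co.Graph

namespace Pool.Agent.MP_d479ed_co

open Finset

/-- The three neighbours of a vertex inside the unit of `24` vertices (for the vertices `0` and
`1` only two are inside, and the third entry is a dummy). -/
def y1 (x : Fin 24) : Fin 24 :=
  ![1, 0, 0, 4, 3, 3, 7, 6, 6, 10, 9, 9, 10, 14, 13, 13, 14, 18, 17, 17, 21, 20, 20, 21] x
/-- Second neighbour. -/
def y2 (x : Fin 24) : Fin 24 :=
  ![2, 2, 1, 5, 5, 4, 8, 8, 7, 11, 11, 10, 11, 15, 15, 14, 15, 19, 19, 18, 22, 22, 21, 22] x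
/-- Third neighbour. -/
def y3 (x : Fin 24) : Fin 24 :=
  ![2, 2, 5, 6, 13, 2, 3, 9, 12, 7, 12, 12, 8, 4, 16, 16, 17, 16, 20, 23, 18, 23, 23, 19] x

/-- Adjacency inside the unit. -/
def E0 (x y : Fin 24) : Prop := y = y1 x ∨ y = y2 x ∨ y = y3 x

instance : DecidableRel E0 := fun x y => by unfold E0; infer_instance

lemma E0_symm : ∀ x y, E0 x y → E0 y x := by decide
lemma E0_irrefl : ∀ x, ¬ E0 x x := by decide

/-- The ring of `m + 2` units. -/
def ring (m : ℕ) : SimpleGraph (ZMod (m + 2) × Fin 24) where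
  Adj u v := (u.1 = v.1 ∧ E0 u.2 v.2) ∨ (v.1 = u.1 + 1 ∧ u.2 = 1 ∧ v.2 = 0) ∨
    (u.1 = v.1 + 1 ∧ u.2 = 0 ∧ v.2 = 1)
  symm := ⟨fun u v h => by
    rcases h with ⟨h1, h2⟩ | ⟨h1, h2, h3⟩ | ⟨h1, h2, h3⟩
    · exact Or.inl ⟨h1.symm, E0_symm _ _ h2⟩
    · exact Or.inr (Or.inr ⟨h1, h3, h2⟩)
    · exact Or.inr (Or.inl ⟨h1, h3, h2⟩)⟩
  loopless := ⟨fun u h => by
    rcases h with ⟨h1, h2⟩ | ⟨h1, h2, h3⟩ | ⟨h1, h2, h3⟩
    · exact E0_irrefl _ h2
    · rw [h2] at h3; exact absurd h3 (by decide)
    · rw [h2] at h3; exact absurd h3 (by decide)⟩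

variable (m : ℕ)

lemma y_facts : ∀ x : Fin 24, E0 (y1 x) (y2 x) ∧ y1 x ≠ y2 x ∧
    (x ≠ 0 → x ≠ 1 → y1 x ≠ y3 x ∧ y2 x ≠ y3 x) := by decide

lemma ring_nbrs (u : ZMod (m + 2) × Fin 24) : ∃ a b c, a ≠ b ∧ a ≠ c ∧ b ≠ c ∧
    (ring m).Adj a b ∧ ∀ w, (ring m).Adj u w ↔ w = a ∨ w = b ∨ w = c := by
  obtain ⟨i, x⟩ := u
  have h10 : (1 : ZMod (m + 2)) ≠ 0 := by
    haveI : Fact (1 < m + 2) := ⟨by omega⟩
    exact one_ne_zero
  obtain ⟨f1, f2, f3⟩ := y_facts x
  by_cases hx0 : x = 0
  · subst hx0
    refine ⟨(i, 1), (i, 2), (i - 1, 1), ?_, ?_, ?_, ?_, ?_⟩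
    · simp
    · intro h
      have := (Prod.ext_iff.1 h).1
      simp only at this
      apply h10
      linear_combination this
    · intro h
      have := (Prod.ext_iff.1 h).2
      simp at this
    · exact Or.inl ⟨rfl, (by decide : E0 (1 : Fin 24) 2)⟩
    · rintro ⟨k, y⟩
      constructor
      · rintro (⟨h1, h2⟩ | ⟨h1, h2, h3⟩ | ⟨h1, h2, h3⟩)
        · simp only at h1 h2
          subst h1
          have : ∀ y, E0 0 y → y = 1 ∨ y = 2 := by decide
          rcases this y h2 with h | h <;> subst h
          · exact Or.inl rfl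
          · exact Or.inr (Or.inl rfl)
        · exact absurd h2 (by decide : ¬ ((0 : Fin 24) = 1))
        · simp only at h1 h3
          right; right
          rw [h3, h1, add_sub_cancel_right]
      · rintro (h | h | h)
        · rw [h]; exact Or.inl ⟨rfl, (by decide : E0 (0 : Fin 24) 1)⟩
        · rw [h]; exact Or.inl ⟨rfl, (by decide : E0 (0 : Fin 24) 2)⟩
        · rw [h]; exact Or.inr (Or.inr ⟨by simp, rfl, rfl⟩)
  by_cases hx1 : x = 1
  · subst hx1
    refine ⟨(i, 0), (i, 2), (i + 1, 0), ?_, ?_, ?_, ?_, ?_⟩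
    · simp
    · intro h
      have := (Prod.ext_iff.1 h).1
      simp only at this
      apply h10
      linear_combination -this
    · intro h
      have := (Prod.ext_iff.1 h).2
      simp at this
    · exact Or.inl ⟨rfl, (by decide : E0 (0 : Fin 24) 2)⟩
    · rintro ⟨k, y⟩
      constructor
      · rintro (⟨h1, h2⟩ | ⟨h1, h2, h3⟩ | ⟨h1, h2, h3⟩)
        · simp only at h1 h2
          subst h1
          have : ∀ y, E0 1 y → y = 0 ∨ y = 2 := by decide
          rcases this y h2 with h | h <;> subst h
          · exact Or.inl rfl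
          · exact Or.inr (Or.inl rfl)
        · simp only at h1 h3
          right; right
          rw [h3, h1]
        · exact absurd h2 (by decide : ¬ ((1 : Fin 24) = 0))
      · rintro (h | h | h)
        · rw [h]; exact Or.inl ⟨rfl, (by decide : E0 (1 : Fin 24) 0)⟩
        · rw [h]; exact Or.inl ⟨rfl, (by decide : E0 (1 : Fin 24) 2)⟩
        · rw [h]; exact Or.inr (Or.inl ⟨rfl, rfl, rfl⟩)
  · obtain ⟨f4, f5⟩ := f3 hx0 hx1
    refine ⟨(i, y1 x), (i, y2 x), (i, y3 x), ?_, ?_, ?_, ?_, ?_⟩
    · intro h; exact f2 (Prod.ext_iff.1 h).2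
    · intro h; exact f4 (Prod.ext_iff.1 h).2
    · intro h; exact f5 (Prod.ext_iff.1 h).2
    · exact Or.inl ⟨rfl, f1⟩
    · rintro ⟨k, y⟩
      constructor
      · rintro (⟨h1, h2⟩ | ⟨h1, h2, h3⟩ | ⟨h1, h2, h3⟩)
        · simp only at h1
          subst h1
          rcases h2 with h | h | h
          · left; exact Prod.ext rfl h
          · right; left; exact Prod.ext rfl h
          · right; right; exact Prod.ext rfl h
        · exact absurd h2 hx1
        · exact absurd h2 hx0
      · rintro (h | h | h)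
        · rw [h]; exact Or.inl ⟨rfl, Or.inl rfl⟩
        · rw [h]; exact Or.inl ⟨rfl, Or.inr (Or.inl rfl)⟩
        · rw [h]; exact Or.inl ⟨rfl, Or.inr (Or.inr rfl)⟩

lemma ring_cubic : Cubic (ring m) := by
  intro u
  obtain ⟨a, b, c, h1, h2, h3, -, h4⟩ := ring_nbrs m u
  have : (ring m).neighborSet u = {a, b, c} := by
    ext w
    rw [SimpleGraph.mem_neighborSet, h4]
    simp
  rw [this]
  exact Set.ncard_eq_three.2 ⟨a, b, c, h1, h2, h3, rfl⟩

lemma ring_clawFree : ClawFree (ring m) := by
  intro u p q r hp hq hr hpq hpr hqr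
  obtain ⟨a, b, c, h1, h2, h3, h5, h4⟩ := ring_nbrs m u
  have h5' := h5.symm
  rcases (h4 p).1 hp with h | h | h <;> rcases (h4 q).1 hq with h' | h' | h' <;>
    rcases (h4 r).1 hr with h'' | h'' | h'' <;> subst h <;> subst h' <;> subst h'' <;>
    first
      | exact absurd rfl hpq
      | exact absurd rfl hpr
      | exact absurd rfl hqr
      | exact Or.inl h5
      | exact Or.inl h5'
      | exact Or.inr (Or.inl h5)
      | exact Or.inr (Or.inl h5')
      | exact Or.inr (Or.inr h5)
      | exact Or.inr (Or.inr h5')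

/-- A path inside the unit from `0` to every vertex: predecessor function. -/
def pred (x : Fin 24) : Fin 24 :=
  ![0, 0, 0, 5, 5, 2, 3, 6, 6, 7, 9, 9, 8, 4, 13, 13, 14, 16, 17, 17, 18, 20, 20, 19] x

lemma ring_connected : (ring m).Connected := by
  have : Nonempty (ZMod (m + 2) × Fin 24) := ⟨(0, 0)⟩
  have h1 : ∀ (i : ZMod (m + 2)) (x : Fin 24), (ring m).Reachable (i, 0) (i, x) := by
    intro i
    have hstep : ∀ x y : Fin 24, E0 x y → (ring m).Reachable (i, x) (i, y) := by
      intro x y h
      exact SimpleGraph.Adj.reachable (Or.inl ⟨rfl, h⟩)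
    have hpred : ∀ x : Fin 24, x = 0 ∨ E0 (pred x) x := by decide
    have hr : ∀ x : Fin 24, (ring m).Reachable (i, pred x) (i, x) := by
      intro x
      rcases hpred x with h | h
      · rw [h]; exact SimpleGraph.Reachable.refl _
      · exact hstep _ _ h
    have hit : ∀ (n : ℕ) (x : Fin 24), (ring m).Reachable (i, pred^[n] x) (i, x) := by
      intro n
      induction n with
      | zero => intro x; exact SimpleGraph.Reachable.refl _
      | succ n ih =>
        intro x
        rw [Function.iterate_succ_apply]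
        exact (ih (pred x)).trans (hr x)
    have h0 : ∀ x : Fin 24, pred^[12] x = 0 := by decide
    intro x
    have := hit 12 x
    rwa [h0] at this
  have h2 : ∀ n : ℕ, (ring m).Reachable ((0 : ZMod (m + 2)), (0 : Fin 24)) ((n : ZMod (m + 2)), 0) := by
    intro n
    induction n with
    | zero => simp
    | succ n ih =>
      refine ih.trans ((h1 _ 1).trans ?_)
      exact SimpleGraph.Adj.reachable (Or.inr (Or.inl ⟨by push_cast; rfl, rfl, rfl⟩))
  have h3 : ∀ u : ZMod (m + 2) × Fin 24, (ring m).Reachable (0, 0) u := by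
    rintro ⟨i, x⟩
    have := h2 (ZMod.val i)
    rw [ZMod.natCast_zmod_val] at this
    exact this.trans (h1 i x)
  exact ⟨fun u v => (h3 u).symm.trans (h3 v)⟩

/-- `0/1` value of a Boolean, as a natural number. -/
def bn (b : Bool) : ℕ := cond b 1 0

/-- Lower bound for a pendant piece with seven vertices. -/
lemma lemA : ∀ o p q r a b c d : Bool, (q || r || o) = true → (p || r || a) = true →
    (p || q || d) = true → (q || b || c) = true → (a || c || d) = true →
    (a || b || d) = true → (b || c || r) = true →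
    3 + bn (p && !o) ≤ bn p + bn q + bn r + bn a + bn b + bn c + bn d := by
  decide

/-- Lower bound for the pendant piece with `21` vertices. -/
lemma lemB : ∀ t3 r1 r2 r3 a b c d p p' : Bool, (r2 || r3 || p) = true →
    (r1 || r3 || a) = true → (r1 || r2 || t3) = true → (r2 || b || c) = true →
    (a || c || d) = true → (a || b || d) = true → (b || c || p') = true →
    3 ≤ bn r1 + bn r2 + bn r3 + bn a + bn b + bn c + bn d + bn (p && !r1) + bn (p' && !d) := by
  decide +kernel

/-- Every total dominating set of the ring of `m + 2` units has at least `10 (m + 2)` vertices. -/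
theorem ring_lower (S : Finset (ZMod (m + 2) × Fin 24))
    (hS : ∀ v, ∃ w ∈ S, (ring m).Adj v w) : 10 * (m + 2) ≤ S.card := by
  classical
  let s : ZMod (m + 2) → Fin 24 → Bool := fun i x => decide ((i, x) ∈ S)
  have hs : ∀ i x, (i, x) ∈ S → s i x = true := fun i x h => by simp [s, h]
  have hcard : S.card = ∑ i : ZMod (m + 2), ∑ x : Fin 24, bn (s i x) := by
    rw [← Finset.sum_product', Finset.univ_product_univ]
    rw [Finset.card_eq_sum_ones, ← Finset.sum_filter_add_sum_filter_not Finset.univ (fun v => v ∈ S)]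
    have h1 : ∑ v ∈ Finset.univ.filter (fun v => v ∉ S), bn (s v.1 v.2) = 0 := by
      apply Finset.sum_eq_zero
      intro v hv
      have : v ∉ S := by simpa using hv
      simp [s, this, bn]
    have h2 : ∑ v ∈ Finset.univ.filter (fun v => v ∈ S), bn (s v.1 v.2) =
        ∑ v ∈ S, 1 := by
      have : Finset.univ.filter (fun v => v ∈ S) = S := by ext; simp
      rw [this]
      apply Finset.sum_congr rfl
      intro v hv
      simp [s, hv, bn]
    rw [h1, h2, add_zero]
  -- domination inside a unit
  have hdom : ∀ i (x : Fin 24), x ≠ 0 → x ≠ 1 →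
      (s i (y1 x) || s i (y2 x) || s i (y3 x)) = true := by
    intro i x h0 h1
    obtain ⟨⟨k, y⟩, hw, hadj⟩ := hS (i, x)
    rcases hadj with ⟨e1, e2⟩ | ⟨e1, e2, e3⟩ | ⟨e1, e2, e3⟩
    · simp only at e1
      subst e1
      have := hs _ _ hw
      rcases e2 with h | h | h
      · simp only at h; rw [← h, this]; rfl
      · simp only at h; rw [← h, this]; simp
      · simp only at h; rw [← h, this]; simp
    · exact absurd e2 h1
    · exact absurd e2 h0
  have hdom0 : ∀ i, (s i 1 || s i 2 || s (i - 1) 1) = true := by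
    intro i
    obtain ⟨⟨k, y⟩, hw, hadj⟩ := hS (i, 0)
    rcases hadj with ⟨e1, e2⟩ | ⟨e1, e2, e3⟩ | ⟨e1, e2, e3⟩
    · simp only at e1 e2
      subst e1
      have := hs _ _ hw
      have h0 : ∀ y, E0 0 y → y = 1 ∨ y = 2 := by decide
      rcases h0 y e2 with h | h
      · rw [← h, this]; rfl
      · rw [← h, this]; simp
    · exact absurd e2 (by decide : ¬ ((0 : Fin 24) = 1))
    · simp only at e1 e3
      have : s k y = true := hs _ _ hw
      have hk : i - 1 = k := by rw [e1]; simp
      rw [hk, ← e3, this]; simp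
  have hdom1 : ∀ i, (s i 0 || s i 2 || s (i + 1) 0) = true := by
    intro i
    obtain ⟨⟨k, y⟩, hw, hadj⟩ := hS (i, 1)
    rcases hadj with ⟨e1, e2⟩ | ⟨e1, e2, e3⟩ | ⟨e1, e2, e3⟩
    · simp only at e1 e2
      subst e1
      have := hs _ _ hw
      have h0 : ∀ y, E0 1 y → y = 0 ∨ y = 2 := by decide
      rcases h0 y e2 with h | h
      · rw [← h, this]; rfl
      · rw [← h, this]; simp
    · simp only at e1 e3
      have : s k y = true := hs _ _ hw
      rw [← e1, ← e3, this]; simp
    · exact absurd e2 (by decide : ¬ ((1 : Fin 24) = 0))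
  -- each unit contributes nine outside the ring triangle
  have hunit : ∀ i, 9 + (bn (s i 0) + bn (s i 1) + bn (s i 2)) ≤ ∑ x : Fin 24, bn (s i x) := by
    intro i
    have A1 := lemA (s i 3) (s i 6) (s i 7) (s i 8) (s i 9) (s i 10) (s i 11) (s i 12)
      (by have := hdom i 6 (by decide) (by decide); simpa [y1, y2, y3, Bool.or_assoc] using this)
      (by have := hdom i 7 (by decide) (by decide); simpa [y1, y2, y3, Bool.or_assoc] using this)
      (by have := hdom i 8 (by decide) (by decide); simpa [y1, y2, y3, Bool.or_assoc] using this)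
      (by
        have := hdom i 9 (by decide) (by decide)
        simp [y1, y2, y3] at this ⊢
        tauto)
      (by
        have := hdom i 10 (by decide) (by decide)
        simp [y1, y2, y3] at this ⊢
        tauto)
      (by
        have := hdom i 11 (by decide) (by decide)
        simp [y1, y2, y3] at this ⊢
        tauto)
      (by
        have := hdom i 12 (by decide) (by decide)
        simp [y1, y2, y3] at this ⊢
        tauto)
    have A2 := lemA (s i 16) (s i 17) (s i 18) (s i 19) (s i 20) (s i 21) (s i 22) (s i 23)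
      (by
        have := hdom i 17 (by decide) (by decide)
        simp [y1, y2, y3] at this ⊢
        tauto)
      (by
        have := hdom i 18 (by decide) (by decide)
        simp [y1, y2, y3] at this ⊢
        tauto)
      (by
        have := hdom i 19 (by decide) (by decide)
        simp [y1, y2, y3] at this ⊢
        tauto)
      (by
        have := hdom i 20 (by decide) (by decide)
        simp [y1, y2, y3] at this ⊢
        tauto)
      (by
        have := hdom i 21 (by decide) (by decide)
        simp [y1, y2, y3] at this ⊢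
        tauto)
      (by
        have := hdom i 22 (by decide) (by decide)
        simp [y1, y2, y3] at this ⊢
        tauto)
      (by
        have := hdom i 23 (by decide) (by decide)
        simp [y1, y2, y3] at this ⊢
        tauto)
    have B := lemB (s i 2) (s i 3) (s i 4) (s i 5) (s i 13) (s i 14) (s i 15) (s i 16) (s i 6)
      (s i 17)
      (by
        have := hdom i 3 (by decide) (by decide)
        simp [y1, y2, y3] at this ⊢
        tauto)
      (by
        have := hdom i 4 (by decide) (by decide)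
        simp [y1, y2, y3] at this ⊢
        tauto)
      (by
        have := hdom i 5 (by decide) (by decide)
        simp [y1, y2, y3] at this ⊢
        tauto)
      (by
        have := hdom i 13 (by decide) (by decide)
        simp [y1, y2, y3] at this ⊢
        tauto)
      (by
        have := hdom i 14 (by decide) (by decide)
        simp [y1, y2, y3] at this ⊢
        tauto)
      (by
        have := hdom i 15 (by decide) (by decide)
        simp [y1, y2, y3] at this ⊢
        tauto)
      (by
        have := hdom i 16 (by decide) (by decide)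
        simp [y1, y2, y3] at this ⊢
        tauto)
    have hsum : ∑ x : Fin 24, bn (s i x) = bn (s i 0) + bn (s i 1) + bn (s i 2) + bn (s i 3) +
        bn (s i 4) + bn (s i 5) + bn (s i 6) + bn (s i 7) + bn (s i 8) + bn (s i 9) +
        bn (s i 10) + bn (s i 11) + bn (s i 12) + bn (s i 13) + bn (s i 14) + bn (s i 15) +
        bn (s i 16) + bn (s i 17) + bn (s i 18) + bn (s i 19) + bn (s i 20) + bn (s i 21) +
        bn (s i 22) + bn (s i 23) := by
      simp only [Fin.sum_univ_succ, Fin.sum_univ_zero, add_zero]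
      simp only [Fin.succ_zero_eq_one, Fin.isValue]
      ring_nf
      rfl
    rw [hsum]
    omega
  -- the ring triangles contribute one each on average
  have h0 : ∀ i, 1 ≤ bn (s i 1) + bn (s i 2) + bn (s (i - 1) 1) := by
    intro i
    have := hdom0 i
    revert this
    cases s i 1 <;> cases s i 2 <;> cases s (i - 1) 1 <;> simp [bn]
  have h1 : ∀ i, 1 ≤ bn (s i 0) + bn (s i 2) + bn (s (i + 1) 0) := by
    intro i
    have := hdom1 i
    revert this
    cases s i 0 <;> cases s i 2 <;> cases s (i + 1) 0 <;> simp [bn]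
  have e0 : ∑ i : ZMod (m + 2), bn (s (i - 1) 1) = ∑ i : ZMod (m + 2), bn (s i 1) :=
    Equiv.sum_comp (Equiv.subRight (1 : ZMod (m + 2))) (fun i => bn (s i 1))
  have e1 : ∑ i : ZMod (m + 2), bn (s (i + 1) 0) = ∑ i : ZMod (m + 2), bn (s i 0) :=
    Equiv.sum_comp (Equiv.addRight (1 : ZMod (m + 2))) (fun i => bn (s i 0))
  have hcz : ∑ _i : ZMod (m + 2), 1 = m + 2 := by
    simp [ZMod.card]
  have k0 : m + 2 ≤ ∑ i : ZMod (m + 2), (bn (s i 1) + bn (s i 2) + bn (s (i - 1) 1)) := by
    exact hcz.symm.le.trans (Finset.sum_le_sum fun i _ => h0 i)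
  have k1 : m + 2 ≤ ∑ i : ZMod (m + 2), (bn (s i 0) + bn (s i 2) + bn (s (i + 1) 0)) := by
    exact hcz.symm.le.trans (Finset.sum_le_sum fun i _ => h1 i)
  have k2 : ∑ i : ZMod (m + 2), (9 + (bn (s i 0) + bn (s i 1) + bn (s i 2))) ≤ S.card := by
    rw [hcard]; exact Finset.sum_le_sum fun i _ => hunit i
  have k3 : ∑ _i : ZMod (m + 2), 9 = 9 * (m + 2) := by
    simp [ZMod.card, mul_comm]
  simp only [Finset.sum_add_distrib] at k0 k1 k2
  rw [e0] at k0
  rw [e1] at k1
  rw [k3] at k2
  omega

end Pool.Agent.MP_d479ed_co
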