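import Pool.Agent.MP_d479ed_co.Net

namespace Pool.Agent.MP_d479ed_co

open Finset

namespace Net

variable {P N : Type} [Fintype P] [DecidableEq P] [DecidableEq N] (M : Net P N)

/-- Adjacency of nodes. -/
def adj (x y : N) : Prop := x ≠ y ∧ ∃ p, M.node p = x ∧ M.node (M.mate p) = y

/-- `B` is closed under adjacency within `A`. -/
def closedIn (A B : Finset N) : Prop := ∀ x ∈ B, ∀ y ∈ A, M.adj x y → y ∈ B

/-- Connectivity of a set of nodes. -/
def Conn (A : Finset N) : Prop :=
  ∀ B ⊆ A, B.Nonempty → M.closedIn A B → B = A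

/-- Paths of nodes in `A`. -/
def Path (A : Finset N) (L : List N) : Prop :=
  L.Nodup ∧ (∀ x ∈ L, x ∈ A) ∧ L.IsChain M.adj

/-- Longest paths. -/
def Longest (A : Finset N) (L : List N) : Prop :=
  M.Path A L ∧ ∀ L', M.Path A L' → L'.length ≤ L.length

variable {M}

omit [Fintype P] [DecidableEq P] [DecidableEq N] in
lemma adj_symm {A0 : Finset N} (hG : M.Good A0) {x y : N} (hx : x ∈ A0) (h : M.adj x y) :
    M.adj y x := by
  obtain ⟨hne, p, hp, hm⟩ := h
  exact ⟨hne.symm, M.mate p, hm, by rw [hG.inv p (by rw [hp]; exact hx), hp]⟩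

omit [Fintype P] [DecidableEq P] in
lemma exists_longest (A : Finset N) (hA : A.Nonempty) : ∃ L, M.Longest A L ∧ L ≠ [] := by
  classical
  obtain ⟨x, hx⟩ := hA
  let Q : ℕ → Prop := fun n => ∃ L, M.Path A L ∧ L.length = n
  have hbound : ∀ L, M.Path A L → L.length ≤ A.card := by
    intro L hL
    rw [← List.toFinset_card_of_nodup hL.1]
    apply Finset.card_le_card
    intro z hz
    exact hL.2.1 z (List.mem_toFinset.1 hz)
  have h1 : Q 1 := ⟨[x], ⟨List.nodup_singleton x, by simpa using hx, List.IsChain.singleton x⟩, rfl⟩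
  have hcard : 1 ≤ A.card := Finset.card_pos.2 ⟨x, hx⟩
  obtain ⟨L, hL, hlen⟩ := Nat.findGreatest_spec (P := Q) hcard h1
  refine ⟨L, ⟨hL, ?_⟩, ?_⟩
  · intro L' hL'
    rw [hlen]
    exact Nat.le_findGreatest (hbound L' hL') ⟨L', hL', rfl⟩
  · intro h0
    rw [h0] at hlen
    have := Nat.le_findGreatest (P := Q) hcard h1
    simp at hlen
    omega

omit [Fintype P] [DecidableEq P] [DecidableEq N] in
lemma head_nbrs {A0 A : Finset N} (hG : M.Good A0) (hA : A ⊆ A0) {x : N} {l : List N}
    (hL : M.Longest A (x :: l)) {v : N} (hv : v ∈ A) (h : M.adj x v) : v ∈ l := by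
  by_contra hcon
  have hxA : x ∈ A := hL.1.2.1 x (List.mem_cons_self)
  have : M.Path A (v :: x :: l) := by
    refine ⟨?_, ?_, ?_⟩
    · rw [List.nodup_cons]
      refine ⟨?_, hL.1.1⟩
      rw [List.mem_cons]
      rintro (h1 | h1)
      · exact h.1 h1.symm
      · exact hcon h1
    · intro z hz
      rcases List.mem_cons.1 hz with h1 | h1
      · rw [h1]; exact hv
      · exact hL.1.2.1 z h1
    · exact List.IsChain.cons_cons (adj_symm hG (hA hxA) h) hL.1.2.2
  have := hL.2 _ this
  simp at this

omit [Fintype P] [DecidableEq P] [DecidableEq N] in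
lemma swap_head {A0 A : Finset N} (hG : M.Good A0) (hA : A ⊆ A0) {x y : N} {l : List N}
    (hL : M.Longest A (x :: y :: l)) {w : N} (hw : w ∈ A) (hwl : w ∉ y :: l) (h : M.adj y w) :
    M.Longest A (w :: y :: l) := by
  have hyA : y ∈ A := hL.1.2.1 y (by simp)
  refine ⟨⟨?_, ?_, ?_⟩, ?_⟩
  · exact List.nodup_cons.2 ⟨hwl, (List.nodup_cons.1 hL.1.1).2⟩
  · intro z hz
    rcases List.mem_cons.1 hz with h1 | h1
    · rw [h1]; exact hw
    · exact hL.1.2.1 z (List.mem_cons_of_mem _ h1)
  · have hc := hL.1.2.2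
    rw [List.isChain_cons_cons] at hc
    exact List.IsChain.cons_cons (adj_symm hG (hA hyA) h) hc.2
  · intro L' hL'
    simpa using hL.2 L' hL'

omit [Fintype P] [DecidableEq P] [DecidableEq N] in
lemma chain_mem {A0 A B : Finset N} (hG : M.Good A0) (hA : A ⊆ A0) (hB : M.closedIn A B) :
    ∀ L : List N, L.IsChain M.adj → (∀ x ∈ L, x ∈ A) → ∀ a ∈ L, ∀ b ∈ L, a ∈ B → b ∈ B := by
  intro L
  induction L with
  | nil => intro _ _ a ha; simp at ha
  | cons u t ih =>
    cases t with
    | nil =>
      intro _ _ a ha b hb haB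
      simp only [List.mem_singleton] at ha hb
      rw [hb, ← ha]; exact haB
    | cons v t =>
      intro hc hAll a ha b hb haB
      rw [List.isChain_cons_cons] at hc
      have hu : u ∈ A := hAll u (by simp)
      have hv : v ∈ A := hAll v (by simp)
      have ih' := ih hc.2 (fun z hz => hAll z (List.mem_cons_of_mem _ hz))
      have huv : u ∈ B ↔ v ∈ B :=
        ⟨fun h => hB u h v hv hc.1, fun h => hB v h u hu (adj_symm hG (hA hu) hc.1)⟩
      rcases List.mem_cons.1 ha with h1 | h1
      · rcases List.mem_cons.1 hb with h2 | h2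
        · rw [h2, ← h1]; exact haB
        · exact ih' v (by simp) b h2 (huv.1 (by rw [← h1]; exact haB))
      · rcases List.mem_cons.1 hb with h2 | h2
        · rw [h2]; exact huv.2 (ih' a h1 v (by simp) haB)
        · exact ih' a h1 b h2 haB

omit [Fintype P] [DecidableEq P] in
lemma conn_erase_head {A0 A : Finset N} (hG : M.Good A0) (hA : A ⊆ A0) {x y : N} {l : List N}
    (hL : M.Longest A (x :: y :: l)) (hC : M.Conn A) : M.Conn (A.erase x) := by
  have hxA : x ∈ A := hL.1.2.1 x (by simp)
  have hnd := List.nodup_cons.1 hL.1.1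
  have hsub : ∀ z ∈ y :: l, z ∈ A.erase x := fun z hz =>
    Finset.mem_erase.2 ⟨fun h => hnd.1 (h ▸ hz), hL.1.2.1 z (List.mem_cons_of_mem _ hz)⟩
  have hch : (y :: l).IsChain M.adj := (List.isChain_cons_cons.1 hL.1.2.2).2
  have hA' : A.erase x ⊆ A0 := (Finset.erase_subset _ _).trans hA
  intro B hB hne hcl
  have hxB : x ∉ B := fun h => (Finset.mem_erase.1 (hB h)).1 rfl
  have hmem := chain_mem hG hA' hcl (y :: l) hch hsub
  by_cases hy : y ∈ B
  · have hall : ∀ z ∈ y :: l, z ∈ B := fun z hz => hmem y (by simp) z hz hy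
    have hcl' : M.closedIn A (insert x B) := by
      intro u hu v hv huv
      by_cases hvx : v = x
      · rw [hvx]; exact Finset.mem_insert_self _ _
      · apply Finset.mem_insert_of_mem
        rcases Finset.mem_insert.1 hu with h | h
        · exact hall v (head_nbrs hG hA hL hv (h ▸ huv))
        · exact hcl u h v (Finset.mem_erase.2 ⟨hvx, hv⟩) huv
    have := hC (insert x B) (Finset.insert_subset hxA (hB.trans (Finset.erase_subset _ _)))
      (Finset.insert_nonempty _ _) hcl'
    rw [← this, Finset.erase_insert hxB]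
  · exfalso
    have hnall : ∀ z ∈ y :: l, z ∉ B := fun z hz hzB => hy (hmem z hz y (by simp) hzB)
    have hcl' : M.closedIn A B := by
      intro u hu v hv huv
      by_cases hvx : v = x
      · exfalso
        have huA : u ∈ A := (Finset.mem_erase.1 (hB hu)).2
        exact hnall u (head_nbrs hG hA hL huA (adj_symm hG (hA huA) (hvx ▸ huv))) hu
      · exact hcl u hu v (Finset.mem_erase.2 ⟨hvx, hv⟩) huv
    have := hC B (hB.trans (Finset.erase_subset _ _)) hne hcl'
    exact hxB (this ▸ hxA)

omit [Fintype P] [DecidableEq P] in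
lemma conn_erase_two {A0 A : Finset N} (hG : M.Good A0) (hA : A ⊆ A0) {x y z : N} {l : List N}
    (hL : M.Longest A (x :: y :: z :: l)) (hC : M.Conn A)
    (hw : ∀ w ∈ A, w ∉ x :: y :: z :: l → M.adj y w → ∃ v ∈ z :: l, M.adj w v) :
    M.Conn ((A.erase x).erase y) := by
  have hxA : x ∈ A := hL.1.2.1 x (by simp)
  have hyA : y ∈ A := hL.1.2.1 y (by simp)
  have hnd := List.nodup_cons.1 hL.1.1
  have hnd2 := List.nodup_cons.1 hnd.2
  have hsub : ∀ v ∈ z :: l, v ∈ (A.erase x).erase y := fun v hv =>
    Finset.mem_erase.2 ⟨fun h => hnd2.1 (h ▸ hv), Finset.mem_erase.2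
      ⟨fun h => hnd.1 (h ▸ List.mem_cons_of_mem _ hv),
       hL.1.2.1 v (List.mem_cons_of_mem _ (List.mem_cons_of_mem _ hv))⟩⟩
  have hch : (z :: l).IsChain M.adj :=
    (List.isChain_cons_cons.1 (List.isChain_cons_cons.1 hL.1.2.2).2).2
  have hA'' : (A.erase x).erase y ⊆ A := (Finset.erase_subset _ _).trans (Finset.erase_subset _ _)
  intro B hB hne hcl
  have hxB : x ∉ B := fun h =>
    (Finset.mem_erase.1 (Finset.mem_erase.1 (hB h)).2).1 rfl
  have hyB : y ∉ B := fun h => (Finset.mem_erase.1 (hB h)).1 rfl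
  have hmem := chain_mem hG (hA''.trans hA) hcl (z :: l) hch hsub
  have hBA : B ⊆ A := hB.trans hA''
  by_cases hz : z ∈ B
  · have hall : ∀ v ∈ z :: l, v ∈ B := fun v hv => hmem z (by simp) v hv hz
    have hcl' : M.closedIn A (insert x (insert y B)) := by
      intro u hu v hv huv
      by_cases hvx : v = x
      · rw [hvx]; exact Finset.mem_insert_self _ _
      by_cases hvy : v = y
      · rw [hvy]; exact Finset.mem_insert_of_mem (Finset.mem_insert_self _ _)
      have hvA'' : v ∈ (A.erase x).erase y :=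
        Finset.mem_erase.2 ⟨hvy, Finset.mem_erase.2 ⟨hvx, hv⟩⟩
      apply Finset.mem_insert_of_mem
      apply Finset.mem_insert_of_mem
      rcases Finset.mem_insert.1 hu with h | h
      · have := head_nbrs hG hA hL hv (h ▸ huv)
        rcases List.mem_cons.1 this with h' | h'
        · exact absurd h' hvy
        · exact hall v h'
      · rcases Finset.mem_insert.1 h with h | h
        · by_cases hvL : v ∈ x :: y :: z :: l
          · rcases List.mem_cons.1 hvL with h' | h'
            · exact absurd h' hvx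
            rcases List.mem_cons.1 h' with h'' | h''
            · exact absurd h'' hvy
            · exact hall v h''
          · obtain ⟨v', hv', hvv'⟩ := hw v hv hvL (h ▸ huv)
            exact hcl v' (hall v' hv') v hvA'' (adj_symm hG (hA hv) hvv')
        · exact hcl u h v hvA'' huv
    have := hC _ (Finset.insert_subset hxA (Finset.insert_subset hyA hBA))
      (Finset.insert_nonempty _ _) hcl'
    rw [← this]
    ext v
    simp only [Finset.mem_erase, Finset.mem_insert]
    constructor
    · intro hv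
      exact ⟨fun h => hyB (h ▸ hv), fun h => hxB (h ▸ hv), Or.inr (Or.inr hv)⟩
    · rintro ⟨h1, h2, h3 | h3 | h3⟩
      · exact absurd h3 h2
      · exact absurd h3 h1
      · exact h3
  · exfalso
    have hnall : ∀ v ∈ z :: l, v ∉ B := fun v hv hvB => hz (hmem v hv z (by simp) hvB)
    have hcl' : M.closedIn A B := by
      intro u hu v hv huv
      have huA : u ∈ A := hBA hu
      by_cases hvx : v = x
      · exfalso
        have := head_nbrs hG hA hL huA (adj_symm hG (hA huA) (hvx ▸ huv))
        rcases List.mem_cons.1 this with h' | h'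
        · exact hyB (h' ▸ hu)
        · exact hnall u h' hu
      by_cases hvy : v = y
      · exfalso
        have huL : u ∉ x :: y :: z :: l := by
          intro h
          rcases List.mem_cons.1 h with h' | h'
          · exact hxB (h' ▸ hu)
          rcases List.mem_cons.1 h' with h'' | h''
          · exact hyB (h'' ▸ hu)
          · exact hnall u h'' hu
        obtain ⟨v', hv', hvv'⟩ := hw u huA huL (adj_symm hG (hA huA) (hvy ▸ huv))
        exact hnall v' hv' (hcl u hu v' (hsub v' hv') hvv')
      · exact hcl u hu v (Finset.mem_erase.2 ⟨hvy, Finset.mem_erase.2 ⟨hvx, hv⟩⟩) huv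
    have := hC B hBA hne hcl'
    exact hxB (this ▸ hxA)

end Net

end Pool.Agent.MP_d479ed_co
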