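import Pool.Agent.MP_d479ed_co.Local

namespace Pool.Agent.MP_d479ed_co

open Finset

/-- Network data: ports, nodes, the involution pairing ports, labels of links. -/
structure Net (P N : Type) where
  node : P → N
  mate : P → P
  lab : P → ℕ

namespace Net

variable {P N : Type} [Fintype P] [DecidableEq P] [DecidableEq N] (M : Net P N)

/-- Ports of a set of nodes. -/
def pt (A : Finset N) : Finset P := univ.filter fun p => M.node p ∈ A

lemma mem_pt {A : Finset N} {p : P} : p ∈ M.pt A ↔ M.node p ∈ A := by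
  simp [pt]

/-- Link or pendant part of the cost of a port. -/
def term (A : Finset N) (typ : P → ℕ) (s d : P → Bool) (p : P) : ℤ :=
  if M.node (M.mate p) ∈ A then hE (M.lab p) (s p) (d p) (d (M.mate p)) (s (M.mate p))
  else vv (typ p) (d p) (s p)

/-- Total cost of a configuration. -/
def cost (A : Finset N) (typ : P → ℕ) (s d : P → Bool) : ℤ :=
  ∑ p ∈ M.pt A, (12 * bi (s p) - 5 + M.term A typ s d p)

/-- Validity of a configuration. -/
def valid (A : Finset N) (typ : P → ℕ) (s d : P → Bool) : Prop :=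
  ∀ p, M.node p ∈ A →
    (d p = true ∨ ∃ q, q ≠ p ∧ M.node q = M.node p ∧ s q = true) ∧
    (M.node (M.mate p) ∈ A → lok (M.lab p) (s p) (d p) (d (M.mate p)) (s (M.mate p)) = true) ∧
    (M.node (M.mate p) ∉ A → pok (typ p) (d p) = true)

/-- Standing hypotheses on the network. -/
structure Good (A : Finset N) : Prop where
  mem : ∀ p, M.node p ∈ A → M.node (M.mate p) ∈ A
  inv : ∀ p, M.node p ∈ A → M.mate (M.mate p) = p
  ne : ∀ p, M.node p ∈ A → M.mate p ≠ p
  lab_mate : ∀ p, M.node p ∈ A → M.lab (M.mate p) = M.lab p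
  lab_lt : ∀ p, M.node p ∈ A → M.lab p < 5
  loop : ∀ p, M.node p ∈ A → M.node (M.mate p) = M.node p → M.lab p ≠ 0
  three : ∀ x ∈ A, ∃ p1 p2 p3, p1 ≠ p2 ∧ p1 ≠ p3 ∧ p2 ≠ p3 ∧
    ∀ p, M.node p = x ↔ p = p1 ∨ p = p2 ∨ p = p3

/-- Update a function at three points. -/
def upd {α : Type} (f : P → α) (p1 p2 p3 : P) (v1 v2 v3 : α) : P → α :=
  fun p => if p = p1 then v1 else if p = p2 then v2 else if p = p3 then v3 else f p

omit [Fintype P] in
lemma upd_1 {α : Type} (f : P → α) (p1 p2 p3 : P) (v1 v2 v3 : α) :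
    upd f p1 p2 p3 v1 v2 v3 p1 = v1 := by simp [upd]

omit [Fintype P] in
lemma upd_2 {α : Type} (f : P → α) {p1 p2 p3 : P} (h : p1 ≠ p2) (v1 v2 v3 : α) :
    upd f p1 p2 p3 v1 v2 v3 p2 = v2 := by simp [upd, h.symm]

omit [Fintype P] in
lemma upd_3 {α : Type} (f : P → α) {p1 p2 p3 : P} (h : p1 ≠ p3) (h' : p2 ≠ p3) (v1 v2 v3 : α) :
    upd f p1 p2 p3 v1 v2 v3 p3 = v3 := by simp [upd, h.symm, h'.symm]

omit [Fintype P] in
lemma upd_ne {α : Type} (f : P → α) {p1 p2 p3 p : P} (h1 : p ≠ p1) (h2 : p ≠ p2) (h3 : p ≠ p3)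
    (v1 v2 v3 : α) : upd f p1 p2 p3 v1 v2 v3 p = f p := by simp [upd, h1, h2, h3]

section ext

variable {M} {A0 A : Finset N} (hG : M.Good A0) (hA : A ⊆ A0) {x : N} (hx : x ∈ A)
  {p1 p2 p3 : P} (h12 : p1 ≠ p2) (h13 : p1 ≠ p3) (h23 : p2 ≠ p3)
  (hp : ∀ p, M.node p = x ↔ p = p1 ∨ p = p2 ∨ p = p3)
  (typ typ' : P → ℕ) (s' d' : P → Bool) (S1 S2 S3 D1 D2 D3 : Bool) (z1 z2 z3 : ℕ)
  (htyp : ∀ p, M.node p ∈ A.erase x → M.node (M.mate p) ≠ x → typ' p = typ p)
  (hz1 : M.node (M.mate p1) ∈ A.erase x → typ' (M.mate p1) = z1)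
  (hz2 : M.node (M.mate p2) ∈ A.erase x → typ' (M.mate p2) = z2)
  (hz3 : M.node (M.mate p3) ∈ A.erase x → typ' (M.mate p3) = z3)

/-- Contribution of the outer end of a port of the removed node. -/
def corr (M : Net P N) (A' : Finset N) (s' d' : P → Bool) (p : P) (S D : Bool) (z : ℕ) : ℤ :=
  if M.node (M.mate p) ∈ A' then
    hE (M.lab p) (s' (M.mate p)) (d' (M.mate p)) D S - vv z (d' (M.mate p)) (s' (M.mate p))
  else 0

include hG hA hx h12 h13 h23 hp htyp hz1 hz2 hz3 in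
lemma cost_ext : M.cost A typ (upd s' p1 p2 p3 S1 S2 S3) (upd d' p1 p2 p3 D1 D2 D3) =
    M.cost (A.erase x) typ' s' d' +
      ((12 * bi S1 - 5 + M.term A typ (upd s' p1 p2 p3 S1 S2 S3) (upd d' p1 p2 p3 D1 D2 D3) p1) +
       (12 * bi S2 - 5 + M.term A typ (upd s' p1 p2 p3 S1 S2 S3) (upd d' p1 p2 p3 D1 D2 D3) p2) +
       (12 * bi S3 - 5 + M.term A typ (upd s' p1 p2 p3 S1 S2 S3) (upd d' p1 p2 p3 D1 D2 D3) p3) +
       corr M (A.erase x) s' d' p1 S1 D1 z1 + corr M (A.erase x) s' d' p2 S2 D2 z2 +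
       corr M (A.erase x) s' d' p3 S3 D3 z3) := by
  set s := upd s' p1 p2 p3 S1 S2 S3 with hs
  set d := upd d' p1 p2 p3 D1 D2 D3 with hd
  have hn1 : M.node p1 = x := (hp p1).2 (Or.inl rfl)
  have hn2 : M.node p2 = x := (hp p2).2 (Or.inr (Or.inl rfl))
  have hn3 : M.node p3 = x := (hp p3).2 (Or.inr (Or.inr rfl))
  have hx0 : x ∈ A0 := hA hx
  have hm1 : p1 ∉ M.pt (A.erase x) := by rw [mem_pt, hn1]; simp
  have hm2 : p2 ∉ M.pt (A.erase x) := by rw [mem_pt, hn2]; simp
  have hm3 : p3 ∉ M.pt (A.erase x) := by rw [mem_pt, hn3]; simp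
  have hpt : M.pt A = insert p1 (insert p2 (insert p3 (M.pt (A.erase x)))) := by
    ext p
    simp only [mem_pt, Finset.mem_insert, Finset.mem_erase]
    constructor
    · intro h
      by_cases hpx : M.node p = x
      · rcases (hp p).1 hpx with h | h | h
        · exact Or.inl h
        · exact Or.inr (Or.inl h)
        · exact Or.inr (Or.inr (Or.inl h))
      · exact Or.inr (Or.inr (Or.inr ⟨hpx, h⟩))
    · rintro (h | h | h | h)
      · rw [h, hn1]; exact hx
      · rw [h, hn2]; exact hx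
      · rw [h, hn3]; exact hx
      · exact h.2
  have hsum : M.cost A typ s d = (12 * bi (s p1) - 5 + M.term A typ s d p1) +
      ((12 * bi (s p2) - 5 + M.term A typ s d p2) + ((12 * bi (s p3) - 5 + M.term A typ s d p3) +
        ∑ p ∈ M.pt (A.erase x), (12 * bi (s p) - 5 + M.term A typ s d p))) := by
    unfold cost
    rw [hpt, Finset.sum_insert, Finset.sum_insert, Finset.sum_insert hm3]
    · simp [h23, hm2]
    · simp [h12, h13, hm1]
  have hs1 : s p1 = S1 := upd_1 _ _ _ _ _ _ _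
  have hs2 : s p2 = S2 := upd_2 _ h12 _ _ _
  have hs3 : s p3 = S3 := upd_3 _ h13 h23 _ _ _
  have hd1 : d p1 = D1 := upd_1 _ _ _ _ _ _ _
  have hd2 : d p2 = D2 := upd_2 _ h12 _ _ _
  have hd3 : d p3 = D3 := upd_3 _ h13 h23 _ _ _
  have hne : ∀ p, M.node p ≠ x → s p = s' p ∧ d p = d' p := by
    intro p hpx
    have h1 : p ≠ p1 := fun h => hpx (h ▸ hn1)
    have h2 : p ≠ p2 := fun h => hpx (h ▸ hn2)
    have h3 : p ≠ p3 := fun h => hpx (h ▸ hn3)
    exact ⟨upd_ne _ h1 h2 h3 _ _ _, upd_ne _ h1 h2 h3 _ _ _⟩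
  -- injectivity of mate on the ports of `x`
  have hinv1 : M.mate (M.mate p1) = p1 := hG.inv p1 (by rw [hn1]; exact hx0)
  have hinv2 : M.mate (M.mate p2) = p2 := hG.inv p2 (by rw [hn2]; exact hx0)
  have hinv3 : M.mate (M.mate p3) = p3 := hG.inv p3 (by rw [hn3]; exact hx0)
  have hm12 : M.mate p1 ≠ M.mate p2 := fun h => h12 (by rw [← hinv1, ← hinv2, h])
  have hm13 : M.mate p1 ≠ M.mate p3 := fun h => h13 (by rw [← hinv1, ← hinv3, h])
  have hm23 : M.mate p2 ≠ M.mate p3 := fun h => h23 (by rw [← hinv2, ← hinv3, h])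
  -- pointwise comparison
  have hpw : ∀ p ∈ M.pt (A.erase x), (12 * bi (s p) - 5 + M.term A typ s d p) =
      (12 * bi (s' p) - 5 + M.term (A.erase x) typ' s' d' p) +
      ((if p = M.mate p1 then corr M (A.erase x) s' d' p1 S1 D1 z1 else 0) +
       (if p = M.mate p2 then corr M (A.erase x) s' d' p2 S2 D2 z2 else 0) +
       (if p = M.mate p3 then corr M (A.erase x) s' d' p3 S3 D3 z3 else 0)) := by
    intro p hpm
    rw [mem_pt] at hpm
    have hpx : M.node p ≠ x := (Finset.mem_erase.1 hpm).1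
    have hpA : M.node p ∈ A := (Finset.mem_erase.1 hpm).2
    have hp0 : M.node p ∈ A0 := hA hpA
    obtain ⟨e1, e2⟩ := hne p hpx
    have hlabm := hG.lab_mate p hp0
    have hinvp := hG.inv p hp0
    by_cases hmx : M.node (M.mate p) = x
    · -- the mate of `p` is one of the removed ports
      have hterm' : M.term (A.erase x) typ' s' d' p = vv (typ' p) (d' p) (s' p) := by
        unfold term; rw [if_neg]; rw [hmx]; simp
      have hterm : M.term A typ s d p = hE (M.lab p) (s' p) (d' p) (d (M.mate p)) (s (M.mate p)) := by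
        unfold term; rw [if_pos (by rw [hmx]; exact hx), e1, e2]
      rw [hterm, hterm', e1]
      rcases (hp (M.mate p)).1 hmx with h | h | h
      · have hpe : p = M.mate p1 := by rw [← h, hinvp]
        have hne2 : p ≠ M.mate p2 := fun h' => hm12 (by rw [← hpe, ← h'])
        have hne3 : p ≠ M.mate p3 := fun h' => hm13 (by rw [← hpe, ← h'])
        rw [if_pos hpe, if_neg hne2, if_neg hne3]
        unfold corr
        rw [← hpe, if_pos hpm, h, hs1, hd1]
        have hlab : M.lab p1 = M.lab p := by rw [← h]; exact hlabm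
        have hzz : typ' p = z1 := by rw [hpe]; exact hz1 (by rw [← hpe]; exact hpm)
        rw [hlab, hzz]; ring
      · have hpe : p = M.mate p2 := by rw [← h, hinvp]
        have hne1 : p ≠ M.mate p1 := fun h' => hm12 (by rw [← hpe, ← h'])
        have hne3 : p ≠ M.mate p3 := fun h' => hm23 (by rw [← hpe, ← h'])
        rw [if_neg hne1, if_pos hpe, if_neg hne3]
        unfold corr
        rw [← hpe, if_pos hpm, h, hs2, hd2]
        have hlab : M.lab p2 = M.lab p := by rw [← h]; exact hlabm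
        have hzz : typ' p = z2 := by rw [hpe]; exact hz2 (by rw [← hpe]; exact hpm)
        rw [hlab, hzz]; ring
      · have hpe : p = M.mate p3 := by rw [← h, hinvp]
        have hne1 : p ≠ M.mate p1 := fun h' => hm13 (by rw [← hpe, ← h'])
        have hne2 : p ≠ M.mate p2 := fun h' => hm23 (by rw [← hpe, ← h'])
        rw [if_neg hne1, if_neg hne2, if_pos hpe]
        unfold corr
        rw [← hpe, if_pos hpm, h, hs3, hd3]
        have hlab : M.lab p3 = M.lab p := by rw [← h]; exact hlabm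
        have hzz : typ' p = z3 := by rw [hpe]; exact hz3 (by rw [← hpe]; exact hpm)
        rw [hlab, hzz]; ring
    · obtain ⟨e3, e4⟩ := hne (M.mate p) hmx
      have hne1 : p ≠ M.mate p1 := fun h => hmx (by rw [h, hinv1, hn1])
      have hne2 : p ≠ M.mate p2 := fun h => hmx (by rw [h, hinv2, hn2])
      have hne3 : p ≠ M.mate p3 := fun h => hmx (by rw [h, hinv3, hn3])
      rw [if_neg hne1, if_neg hne2, if_neg hne3, e1]
      have : M.term A typ s d p = M.term (A.erase x) typ' s' d' p := by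
        unfold term
        by_cases hmA : M.node (M.mate p) ∈ A
        · rw [if_pos hmA, if_pos (Finset.mem_erase.2 ⟨hmx, hmA⟩), e1, e2, e3, e4]
        · rw [if_neg hmA, if_neg (fun h => hmA (Finset.mem_erase.1 h).2), e1, e2,
            htyp p hpm hmx]
      rw [this]; ring
  have hc : ∀ (q : P) (S D : Bool) (z : ℕ), (if M.mate q ∈ M.pt (A.erase x) then
      corr M (A.erase x) s' d' q S D z else 0) = corr M (A.erase x) s' d' q S D z := by
    intro q S D z
    by_cases h : M.mate q ∈ M.pt (A.erase x)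
    · rw [if_pos h]
    · rw [if_neg h]
      rw [mem_pt] at h
      unfold corr; rw [if_neg h]
  rw [hsum, Finset.sum_congr rfl hpw]
  simp only [Finset.sum_add_distrib, Finset.sum_ite_eq']
  rw [hc, hc, hc, hs1, hs2, hs3]
  unfold cost
  simp only [Finset.sum_add_distrib]
  ring

include hG hA hx h12 h13 h23 hp htyp in
/-- Validity of an extended configuration. -/
lemma valid_ext (hv : M.valid (A.erase x) typ' s' d')
    (hn : nok S1 S2 S3 D1 D2 D3 = true)
    (hl1 : M.node (M.mate p1) ∈ A.erase x →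
      lok (M.lab p1) S1 D1 (d' (M.mate p1)) (s' (M.mate p1)) = true)
    (hl2 : M.node (M.mate p2) ∈ A.erase x →
      lok (M.lab p2) S2 D2 (d' (M.mate p2)) (s' (M.mate p2)) = true)
    (hl3 : M.node (M.mate p3) ∈ A.erase x →
      lok (M.lab p3) S3 D3 (d' (M.mate p3)) (s' (M.mate p3)) = true)
    (hq1 : M.node (M.mate p1) ∉ A → pok (typ p1) D1 = true)
    (hq2 : M.node (M.mate p2) ∉ A → pok (typ p2) D2 = true)
    (hq3 : M.node (M.mate p3) ∉ A → pok (typ p3) D3 = true)
    (hloop : ∀ p, M.node p = x → M.node (M.mate p) = x →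
      lok (M.lab p) (upd s' p1 p2 p3 S1 S2 S3 p) (upd d' p1 p2 p3 D1 D2 D3 p)
        (upd d' p1 p2 p3 D1 D2 D3 (M.mate p)) (upd s' p1 p2 p3 S1 S2 S3 (M.mate p)) = true) :
    M.valid A typ (upd s' p1 p2 p3 S1 S2 S3) (upd d' p1 p2 p3 D1 D2 D3) := by
  set s := upd s' p1 p2 p3 S1 S2 S3 with hs
  set d := upd d' p1 p2 p3 D1 D2 D3 with hd
  have hn1 : M.node p1 = x := (hp p1).2 (Or.inl rfl)
  have hn2 : M.node p2 = x := (hp p2).2 (Or.inr (Or.inl rfl))
  have hn3 : M.node p3 = x := (hp p3).2 (Or.inr (Or.inr rfl))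
  have hs1 : s p1 = S1 := upd_1 _ _ _ _ _ _ _
  have hs2 : s p2 = S2 := upd_2 _ h12 _ _ _
  have hs3 : s p3 = S3 := upd_3 _ h13 h23 _ _ _
  have hd1 : d p1 = D1 := upd_1 _ _ _ _ _ _ _
  have hd2 : d p2 = D2 := upd_2 _ h12 _ _ _
  have hd3 : d p3 = D3 := upd_3 _ h13 h23 _ _ _
  have hne : ∀ p, M.node p ≠ x → s p = s' p ∧ d p = d' p := by
    intro p hpx
    have h1 : p ≠ p1 := fun h => hpx (h ▸ hn1)
    have h2 : p ≠ p2 := fun h => hpx (h ▸ hn2)
    have h3 : p ≠ p3 := fun h => hpx (h ▸ hn3)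
    exact ⟨upd_ne _ h1 h2 h3 _ _ _, upd_ne _ h1 h2 h3 _ _ _⟩
  unfold nok at hn
  simp only [Bool.and_eq_true, Bool.or_eq_true] at hn
  obtain ⟨⟨k1, k2⟩, k3⟩ := hn
  intro p hpA
  by_cases hpx : M.node p = x
  · -- a port of the new node
    refine ⟨?_, ?_, ?_⟩
    · rcases (hp p).1 hpx with h | h | h
      · subst h
        rcases k1 with (k | k) | k
        · left; rw [hd1]; exact k
        · right; exact ⟨p2, h12.symm, by rw [hn2, hn1], by rw [hs2]; exact k⟩
        · right; exact ⟨p3, h13.symm, by rw [hn3, hn1], by rw [hs3]; exact k⟩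
      · subst h
        rcases k2 with (k | k) | k
        · left; rw [hd2]; exact k
        · right; exact ⟨p1, h12, by rw [hn2, hn1], by rw [hs1]; exact k⟩
        · right; exact ⟨p3, h23.symm, by rw [hn3, hn2], by rw [hs3]; exact k⟩
      · subst h
        rcases k3 with (k | k) | k
        · left; rw [hd3]; exact k
        · right; exact ⟨p1, h13, by rw [hn3, hn1], by rw [hs1]; exact k⟩
        · right; exact ⟨p2, h23, by rw [hn3, hn2], by rw [hs2]; exact k⟩
    · intro hmA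
      by_cases hmx : M.node (M.mate p) = x
      · exact hloop p hpx hmx
      · obtain ⟨e1, e2⟩ := hne _ hmx
        have hmA' : M.node (M.mate p) ∈ A.erase x := Finset.mem_erase.2 ⟨hmx, hmA⟩
        rw [e1, e2]
        rcases (hp p).1 hpx with h | h | h
        · subst h; rw [hs1, hd1]; exact hl1 hmA'
        · subst h; rw [hs2, hd2]; exact hl2 hmA'
        · subst h; rw [hs3, hd3]; exact hl3 hmA'
    · intro hmA
      rcases (hp p).1 hpx with h | h | h
      · subst h; rw [hd1]; exact hq1 hmA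
      · subst h; rw [hd2]; exact hq2 hmA
      · subst h; rw [hd3]; exact hq3 hmA
  · have hpA' : M.node p ∈ A.erase x := Finset.mem_erase.2 ⟨hpx, hpA⟩
    obtain ⟨e1, e2⟩ := hne p hpx
    obtain ⟨v1, v2, v3⟩ := hv p hpA'
    refine ⟨?_, ?_, ?_⟩
    · rcases v1 with h | ⟨q, hq, hqn, hqs⟩
      · left; rw [e2]; exact h
      · right
        exact ⟨q, hq, hqn, by rw [(hne q (by rw [hqn]; exact hpx)).1]; exact hqs⟩
    · intro hmA
      by_cases hmx : M.node (M.mate p) = x
      · have hinvp := hG.inv p (hA hpA)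
        have hlabm := hG.lab_mate p (hA hpA)
        rw [e1, e2, lok_symm]
        rcases (hp (M.mate p)).1 hmx with h | h | h
        · have hpe : p = M.mate p1 := by rw [← h, hinvp]
          have := hl1 (by rw [← hpe]; exact hpA')
          rw [← hpe] at this
          rw [h, hs1, hd1, ← hlabm, h]; exact this
        · have hpe : p = M.mate p2 := by rw [← h, hinvp]
          have := hl2 (by rw [← hpe]; exact hpA')
          rw [← hpe] at this
          rw [h, hs2, hd2, ← hlabm, h]; exact this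
        · have hpe : p = M.mate p3 := by rw [← h, hinvp]
          have := hl3 (by rw [← hpe]; exact hpA')
          rw [← hpe] at this
          rw [h, hs3, hd3, ← hlabm, h]; exact this
      · obtain ⟨e3, e4⟩ := hne _ hmx
        rw [e1, e2, e3, e4]
        exact v2 (Finset.mem_erase.2 ⟨hmx, hmA⟩)
    · intro hmA
      have hmx : M.node (M.mate p) ≠ x := fun h => hmA (by rw [h]; exact hx)
      rw [e2, ← htyp p hpA' hmx]
      exact v3 (fun h => hmA (Finset.mem_erase.1 h).2)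

/-- Specification of a port `p` of the removed node, relative to the remaining set `A'`. -/
def spec (M : Net P N) (A' : Finset N) (typ : P → ℕ) (p : P) : ℕ :=
  if M.node (M.mate p) ∈ A' then M.lab p else 5 + typ p

omit [Fintype P] [DecidableEq P] in
include hG hA hx in
/-- The contribution of a non-loop port. -/
lemma port_cost (s d : P → Bool) (p : P) (hpx : M.node p = x) (hmx : M.node (M.mate p) ≠ x)
    (S D : Bool) (z : ℕ) (hsp : s p = S) (hdp : d p = D)
    (hsm : s (M.mate p) = s' (M.mate p)) (hdm : d (M.mate p) = d' (M.mate p)) :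
    12 * bi S - 5 + M.term A typ s d p + corr M (A.erase x) s' d' p S D z =
      sc (spec M (A.erase x) typ p) z (s' (M.mate p)) (d' (M.mate p)) S D := by
  have hlt : M.lab p < 5 := hG.lab_lt p (hA (by rw [hpx]; exact hx))
  unfold term corr sc spec
  by_cases hmA : M.node (M.mate p) ∈ A
  · have hmA' : M.node (M.mate p) ∈ A.erase x := Finset.mem_erase.2 ⟨hmx, hmA⟩
    rw [if_pos hmA, if_pos hmA', if_pos hmA', if_pos hlt, hsp, hdp, hsm, hdm,
      hE_symm _ hlt (s' (M.mate p)) (d' (M.mate p)) D S]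
    ring
  · have hmA' : M.node (M.mate p) ∉ A.erase x := fun h => hmA (Finset.mem_erase.1 h).2
    rw [if_neg hmA, if_neg hmA', if_neg hmA', if_neg (by omega), hsp, hdp]
    simp

include hG hA hx h12 h13 h23 hp htyp hz1 hz2 hz3 in
/-- Extension of a configuration over a node without loops. -/
lemma ext_node (hv : M.valid (A.erase x) typ' s' d')
    (hm1 : M.node (M.mate p1) ≠ x) (hm2 : M.node (M.mate p2) ≠ x) (hm3 : M.node (M.mate p3) ≠ x)
    {δ : ℤ} (hloc : Loc (spec M (A.erase x) typ p1) (spec M (A.erase x) typ p2)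
      (spec M (A.erase x) typ p3) z1 z2 z3 δ) :
    ∃ s d, M.valid A typ s d ∧ M.cost A typ s d ≤ M.cost (A.erase x) typ' s' d' + δ := by
  have hn1 : M.node p1 = x := (hp p1).2 (Or.inl rfl)
  have hn2 : M.node p2 = x := (hp p2).2 (Or.inr (Or.inl rfl))
  have hn3 : M.node p3 = x := (hp p3).2 (Or.inr (Or.inr rfl))
  have hout : ∀ (p : P) (z : ℕ), M.node p = x → 
      (M.node (M.mate p) ∈ A.erase x → typ' (M.mate p) = z) →
      outok (spec M (A.erase x) typ p) z (d' (M.mate p)) = true := by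
    intro p z hpx hz
    unfold outok spec
    by_cases hmA' : M.node (M.mate p) ∈ A.erase x
    · have h1 := (hv _ hmA').2.2
      rw [hG.inv p (hA (by rw [hpx]; exact hx)), hpx, hz hmA'] at h1
      simp [h1 (by simp)]
    · rw [if_neg hmA']; simp
  obtain ⟨S1, S2, S3, D1, D2, D3, hn, k1, k2, k3, hle⟩ := hloc (s' (M.mate p1)) (d' (M.mate p1))
    (s' (M.mate p2)) (d' (M.mate p2)) (s' (M.mate p3)) (d' (M.mate p3))
    (hout p1 z1 hn1 hz1) (hout p2 z2 hn2 hz2) (hout p3 z3 hn3 hz3)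
  have hne : ∀ (p : P), M.node p ≠ x →
      upd s' p1 p2 p3 S1 S2 S3 p = s' p ∧ upd d' p1 p2 p3 D1 D2 D3 p = d' p := by
    intro p hpx
    have h1 : p ≠ p1 := fun h => hpx (h ▸ hn1)
    have h2 : p ≠ p2 := fun h => hpx (h ▸ hn2)
    have h3 : p ≠ p3 := fun h => hpx (h ▸ hn3)
    exact ⟨upd_ne _ h1 h2 h3 _ _ _, upd_ne _ h1 h2 h3 _ _ _⟩
  have hlk : ∀ (p : P) (S D : Bool), M.node p = x →
      sok (spec M (A.erase x) typ p) (s' (M.mate p)) (d' (M.mate p)) S D = true →
      (M.node (M.mate p) ∈ A.erase x →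
        lok (M.lab p) S D (d' (M.mate p)) (s' (M.mate p)) = true) ∧
      (M.node (M.mate p) ∉ A → pok (typ p) D = true) := by
    intro p S D hpx hk
    have hlt : M.lab p < 5 := hG.lab_lt p (hA (by rw [hpx]; exact hx))
    unfold sok spec at hk
    constructor
    · intro hmA'
      rw [if_pos hmA', if_pos hlt] at hk
      exact hk
    · intro hmA
      rw [if_neg (fun h => hmA (Finset.mem_erase.1 h).2), if_neg (by omega)] at hk
      simpa using hk
  refine ⟨upd s' p1 p2 p3 S1 S2 S3, upd d' p1 p2 p3 D1 D2 D3, ?_, ?_⟩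
  · refine valid_ext hG hA hx h12 h13 h23 hp typ typ' s' d' S1 S2 S3 D1 D2 D3 htyp hv hn
      (hlk p1 S1 D1 hn1 k1).1 (hlk p2 S2 D2 hn2 k2).1 (hlk p3 S3 D3 hn3 k3).1
      (hlk p1 S1 D1 hn1 k1).2 (hlk p2 S2 D2 hn2 k2).2 (hlk p3 S3 D3 hn3 k3).2 ?_
    intro p hpx hmx
    rcases (hp p).1 hpx with h | h | h
    · subst h; exact absurd hmx hm1
    · subst h; exact absurd hmx hm2
    · subst h; exact absurd hmx hm3
  · rw [cost_ext hG hA hx h12 h13 h23 hp typ typ' s' d' S1 S2 S3 D1 D2 D3 z1 z2 z3 htyp hz1 hz2 hz3]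
    have e1 := port_cost hG hA hx typ s' d' (upd s' p1 p2 p3 S1 S2 S3) (upd d' p1 p2 p3 D1 D2 D3)
      p1 hn1 hm1 S1 D1 z1 (upd_1 _ _ _ _ _ _ _) (upd_1 _ _ _ _ _ _ _) (hne _ hm1).1 (hne _ hm1).2
    have e2 := port_cost hG hA hx typ s' d' (upd s' p1 p2 p3 S1 S2 S3) (upd d' p1 p2 p3 D1 D2 D3)
      p2 hn2 hm2 S2 D2 z2 (upd_2 _ h12 _ _ _) (upd_2 _ h12 _ _ _) (hne _ hm2).1 (hne _ hm2).2
    have e3 := port_cost hG hA hx typ s' d' (upd s' p1 p2 p3 S1 S2 S3) (upd d' p1 p2 p3 D1 D2 D3)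
      p3 hn3 hm3 S3 D3 z3 (upd_3 _ h13 h23 _ _ _) (upd_3 _ h13 h23 _ _ _) (hne _ hm3).1
      (hne _ hm3).2
    linarith

include hG hA hx h12 h13 h23 hp htyp hz1 in
/-- Extension of a configuration over a node with a loop joining `p2` and `p3`. -/
lemma ext_loop (hv : M.valid (A.erase x) typ' s' d')
    (hm1 : M.node (M.mate p1) ≠ x) (hm2 : M.mate p2 = p3)
    {δ : ℤ} (hloc : locl (spec M (A.erase x) typ p1) z1 (M.lab p2) δ = true) :
    ∃ s d, M.valid A typ s d ∧ M.cost A typ s d ≤ M.cost (A.erase x) typ' s' d' + δ := by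
  have hn1 : M.node p1 = x := (hp p1).2 (Or.inl rfl)
  have hn2 : M.node p2 = x := (hp p2).2 (Or.inr (Or.inl rfl))
  have hn3 : M.node p3 = x := (hp p3).2 (Or.inr (Or.inr rfl))
  have hA0 : ∀ p, M.node p = x → M.node p ∈ A0 := fun p h => hA (by rw [h]; exact hx)
  have hm3 : M.mate p3 = p2 := by rw [← hm2]; exact hG.inv p2 (hA0 p2 hn2)
  have hlab3 : M.lab p3 = M.lab p2 := by rw [← hm2]; exact hG.lab_mate p2 (hA0 p2 hn2)
  have hlt2 : M.lab p2 < 5 := hG.lab_lt p2 (hA0 p2 hn2)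
  have hlt1 : M.lab p1 < 5 := hG.lab_lt p1 (hA0 p1 hn1)
  have hnot2 : M.node (M.mate p2) ∉ A.erase x := by rw [hm2, hn3]; simp
  have hnot3 : M.node (M.mate p3) ∉ A.erase x := by rw [hm3, hn2]; simp
  have hout : outok (spec M (A.erase x) typ p1) z1 (d' (M.mate p1)) = true := by
    unfold outok spec
    by_cases hmA' : M.node (M.mate p1) ∈ A.erase x
    · have h1 := (hv _ hmA').2.2
      rw [hG.inv p1 (hA0 p1 hn1), hn1, hz1 hmA'] at h1
      simp [h1 (by simp)]
    · rw [if_neg hmA']; simp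
  obtain ⟨S1, S2, S3, D1, D2, D3, hn, k1, k2, hle⟩ := loop_spec hloc (s' (M.mate p1))
    (d' (M.mate p1)) hout
  have hne : ∀ (p : P), M.node p ≠ x →
      upd s' p1 p2 p3 S1 S2 S3 p = s' p ∧ upd d' p1 p2 p3 D1 D2 D3 p = d' p := by
    intro p hpx
    have h1 : p ≠ p1 := fun h => hpx (h ▸ hn1)
    have h2 : p ≠ p2 := fun h => hpx (h ▸ hn2)
    have h3 : p ≠ p3 := fun h => hpx (h ▸ hn3)
    exact ⟨upd_ne _ h1 h2 h3 _ _ _, upd_ne _ h1 h2 h3 _ _ _⟩
  have hs2 : upd s' p1 p2 p3 S1 S2 S3 p2 = S2 := upd_2 _ h12 _ _ _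
  have hs3 : upd s' p1 p2 p3 S1 S2 S3 p3 = S3 := upd_3 _ h13 h23 _ _ _
  have hd2 : upd d' p1 p2 p3 D1 D2 D3 p2 = D2 := upd_2 _ h12 _ _ _
  have hd3 : upd d' p1 p2 p3 D1 D2 D3 p3 = D3 := upd_3 _ h13 h23 _ _ _
  refine ⟨upd s' p1 p2 p3 S1 S2 S3, upd d' p1 p2 p3 D1 D2 D3, ?_, ?_⟩
  · refine valid_ext hG hA hx h12 h13 h23 hp typ typ' s' d' S1 S2 S3 D1 D2 D3 htyp hv hn
      ?_ (fun h => absurd h hnot2) (fun h => absurd h hnot3) ?_
      (fun h => absurd (show M.node (M.mate p2) ∈ A by rw [hm2, hn3]; exact hx) h)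
      (fun h => absurd (show M.node (M.mate p3) ∈ A by rw [hm3, hn2]; exact hx) h) ?_
    · intro hmA'
      unfold sok spec at k1
      rw [if_pos hmA', if_pos hlt1] at k1
      exact k1
    · intro hmA
      unfold sok spec at k1
      rw [if_neg (fun h => hmA (Finset.mem_erase.1 h).2), if_neg (by omega)] at k1
      simpa using k1
    · intro p hpx hmx
      rcases (hp p).1 hpx with h | h | h
      · subst h; exact absurd hmx hm1
      · subst h; rw [hm2, hs2, hs3, hd2, hd3]; exact k2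
      · subst h; rw [hm3, hs2, hs3, hd2, hd3, hlab3, lok_symm]; exact k2
  · rw [cost_ext hG hA hx h12 h13 h23 hp typ typ' s' d' S1 S2 S3 D1 D2 D3 z1 0 0 htyp hz1
      (fun h => absurd h hnot2) (fun h => absurd h hnot3)]
    have e1 := port_cost hG hA hx typ s' d' (upd s' p1 p2 p3 S1 S2 S3) (upd d' p1 p2 p3 D1 D2 D3)
      p1 hn1 hm1 S1 D1 z1 (upd_1 _ _ _ _ _ _ _) (upd_1 _ _ _ _ _ _ _) (hne _ hm1).1 (hne _ hm1).2
    have c2 : corr M (A.erase x) s' d' p2 S2 D2 0 = 0 := by unfold corr; rw [if_neg hnot2]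
    have c3 : corr M (A.erase x) s' d' p3 S3 D3 0 = 0 := by unfold corr; rw [if_neg hnot3]
    have t2 : M.term A typ (upd s' p1 p2 p3 S1 S2 S3) (upd d' p1 p2 p3 D1 D2 D3) p2 =
        hE (M.lab p2) S2 D2 D3 S3 := by
      unfold term
      rw [hm2, hn3, if_pos hx, hs2, hs3, hd2, hd3]
    have t3 : M.term A typ (upd s' p1 p2 p3 S1 S2 S3) (upd d' p1 p2 p3 D1 D2 D3) p3 =
        hE (M.lab p2) S2 D2 D3 S3 := by
      unfold term
      rw [hm3, hn2, if_pos hx, hs2, hs3, hd2, hd3, hlab3, hE_symm _ hlt2]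
    rw [c2, c3, t2, t3]
    linarith

end ext

end Net

end Pool.Agent.MP_d479ed_co
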