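import Pool.Agent.MP_d479ed_co.Induct

namespace Pool.Agent.MP_d479ed_co

open Finset

namespace Net

variable {P N : Type} [Fintype P] [DecidableEq P] [DecidableEq N] {M : Net P N}

lemma valid_empty (typ : P → ℕ) (s d : P → Bool) : M.valid (∅ : Finset N) typ s d := by
  intro p hp; simp at hp

lemma cost_empty (typ : P → ℕ) (s d : P → Bool) : M.cost (∅ : Finset N) typ s d = 0 := by
  unfold cost pt; simp

lemma loc_exc' {u z1 c : ℕ} (h : (u = 6 ∧ z1 = 4) ∨ (u = 7 ∧ z1 = 0) ∨ (u = 8 ∧ z1 = 2))
    (hc : c = 0 ∨ c = 9) : Loc 0 0 c u z1 4 0 := by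
  apply loc_of_locb
  have hz : (u, z1) ∈ [((6 : ℕ), (4 : ℕ)), (7, 0), (8, 2)] := by
    rcases h with ⟨h1, h2⟩ | ⟨h1, h2⟩ | ⟨h1, h2⟩ <;> subst h1 <;> subst h2 <;> simp
  have hc' : c ∈ [(0 : ℕ), 9] := by
    rcases hc with h | h <;> subst h <;> simp
  exact loc_exc (u, z1) hz c hc'

/-- Cutting off the two end nodes of a longest path. -/
lemma cut_pair {A0 A : Finset N} (hG : M.Good A0) (hA : A ⊆ A0) (hC : M.Conn A)
    (typ : P → ℕ) (ht : ∀ p, M.node p ∈ A → typ p < 6) {x y : N} {l : List N}
    (hL : M.Longest A (x :: y :: l))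
    (hexc : ∀ w l', M.Longest A (w :: l') → Exc M A typ w)
    (hrec : ((A.erase x).erase y).Nonempty → M.Conn ((A.erase x).erase y) → ∀ typ' : P → ℕ,
      (∀ p, M.node p ∈ (A.erase x).erase y → typ' p < 6) →
      ∃ s d, M.valid ((A.erase x).erase y) typ' s d ∧
        M.cost ((A.erase x).erase y) typ' s d ≤ 6) :
    ∃ s d, M.valid A typ s d ∧ M.cost A typ s d ≤ 6 := by
  obtain ⟨a1, a2, a3, hFa, e1, e2, e3, hnl⟩ := hexc x _ hL
  have hx : x ∈ A := hL.1.2.1 x (by simp)
  have hy : y ∈ A := hL.1.2.1 y (by simp)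
  have hadj : M.adj x y := (List.isChain_cons_cons.1 hL.1.2.2).1
  have hxy : x ≠ y := hadj.1
  obtain ⟨-, p0, hp0, hmp0⟩ := hadj
  have hA0x : ∀ p, M.node p = x → M.node p ∈ A0 := fun p h => hA (by rw [h]; exact hx)
  have hA0y : ∀ p, M.node p = y → M.node p ∈ A0 := fun p h => hA (by rw [h]; exact hy)
  -- reorder the ports of `x`
  obtain ⟨p1, p2, hFx, f0, f1, f2⟩ : ∃ p1 p2, Fib M x p0 p1 p2 ∧
      spec M (A.erase x) typ p0 = 0 ∧ spec M (A.erase x) typ p1 = 0 ∧
      (spec M (A.erase x) typ p2 = 0 ∨ spec M (A.erase x) typ p2 = 9) := by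
    rcases (hFa.2.2.2 p0).1 hp0 with h | h | h
    · subst h; exact ⟨a2, a3, hFa, e1, e2, e3⟩
    · subst h; exact ⟨a1, a3, hFa.swap12, e2, e1, e3⟩
    · subst h
      have h0 : spec M (A.erase x) typ p0 = 0 := by
        rcases e3 with h | h
        · exact h
        · exfalso
          unfold spec at h
          rw [if_pos (by rw [hmp0]; exact Finset.mem_erase.2 ⟨hxy.symm, hy⟩)] at h
          have := hG.lab_lt p0 (hA0x p0 hp0)
          omega
      exact ⟨a1, a2, hFa.swap23.swap12, h0, e1, Or.inl e2⟩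
  have hq0 : M.mate (M.mate p0) = p0 := hG.inv p0 (hA0x p0 hp0)
  have hq1 : M.mate (M.mate p1) = p1 := hG.inv p1 (hA0x p1 hFx.n2)
  have hq2 : M.mate (M.mate p2) = p2 := hG.inv p2 (hA0x p2 hFx.n3)
  have hd01 : M.mate p0 ≠ M.mate p1 := fun h =>
    hFx.1 (mate_inj hG (hA0x _ hFx.n1) (hA0x _ hFx.n2) h)
  have hd02 : M.mate p0 ≠ M.mate p2 := fun h =>
    hFx.2.1 (mate_inj hG (hA0x _ hFx.n1) (hA0x _ hFx.n3) h)
  have hd12 : M.mate p1 ≠ M.mate p2 := fun h =>
    hFx.2.2.1 (mate_inj hG (hA0x _ hFx.n2) (hA0x _ hFx.n3) h)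
  have hA' : A.erase x ⊆ A0 := (Finset.erase_subset _ _).trans hA
  have hyA' : y ∈ A.erase x := Finset.mem_erase.2 ⟨hxy.symm, hy⟩
  obtain ⟨b1, b2, b3, hFb0⟩ := hG.three y (hA hy)
  obtain ⟨c1, c2, hFc⟩ := Fib.first (M := M) (x := y) hFb0 hmp0
  cases l with
  | nil =>
    -- the network consists of `x` and `y`
    have hnx : ∀ v ∈ A, M.adj x v → v = y := fun v hv h => by
      simpa using head_nbrs hG hA hL hv h
    have hm1y : M.node (M.mate p1) = y := by
      obtain ⟨h1, -⟩ := spec_zero f1
      exact hnx _ (Finset.mem_erase.1 h1).2 ⟨(Finset.mem_erase.1 h1).1.symm, p1, hFx.n2, rfl⟩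
    obtain ⟨r2, hFy⟩ : ∃ r2, Fib M y (M.mate p0) (M.mate p1) r2 := by
      rcases (hFc.2.2.2 _).1 hm1y with h | h | h
      · exact absurd h.symm hd01
      · rw [h]; exact ⟨c2, hFc⟩
      · rw [h]; exact ⟨c1, hFc.swap23⟩
    have hyn : ∀ v ∈ A, M.adj y v → v = x := by
      intro v hv hyv
      by_contra hvx
      have hvL : v ∉ [y] := by simpa using hyv.1.symm
      have hL' := swap_head hG hA hL hv hvL hyv
      obtain ⟨w1, w2, w3, hFw, g1, g2, -, -⟩ := hexc v _ hL'
      have hA0v : ∀ p, M.node p = v → M.node p ∈ A0 := fun p h => hA (by rw [h]; exact hv)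
      have hnv : ∀ u ∈ A, M.adj v u → u = y := fun u hu h => by
        simpa using head_nbrs hG hA hL' hu h
      have hw : ∀ w, M.node w = v → spec M (A.erase v) typ w = 0 → M.mate w = r2 := by
        intro w hw hs
        obtain ⟨h1, -⟩ := spec_zero hs
        have h2 : M.node (M.mate w) = y :=
          hnv _ (Finset.mem_erase.1 h1).2 ⟨(Finset.mem_erase.1 h1).1.symm, w, hw, rfl⟩
        rcases (hFy.2.2.2 _).1 h2 with h | h | h
        · exfalso; apply hvx
          have := mate_inj hG (hA0v w hw) (hA0x p0 hp0) h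
          rw [← hw, this, hp0]
        · exfalso; apply hvx
          have := mate_inj hG (hA0v w hw) (hA0x p1 hFx.n2) h
          rw [← hw, this, hFx.n2]
        · exact h
      exact hFw.1 (mate_inj hG (hA0v _ hFw.n1) (hA0v _ hFw.n2)
        ((hw w1 hFw.n1 g1).trans (hw w2 hFw.n2 g2).symm))
    have hAeq : ({x, y} : Finset N) = A := by
      apply hC
      · intro u hu
        rcases Finset.mem_insert.1 hu with h | h
        · rw [h]; exact hx
        · rw [Finset.mem_singleton.1 h]; exact hy
      · exact Finset.insert_nonempty _ _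
      · intro u hu v hv huv
        rcases Finset.mem_insert.1 hu with h | h
        · rw [hnx v hv (h ▸ huv)]; simp
        · rw [hyn v hv ((Finset.mem_singleton.1 h) ▸ huv)]; simp
    have hempty : (A.erase x).erase y = ∅ := by
      rw [← hAeq]
      ext v
      simp only [Finset.mem_erase, Finset.mem_insert, Finset.mem_singleton, Finset.notMem_empty,
        iff_false, not_and, not_or]
      intro h1 h2
      exact ⟨h2, h1⟩
    -- no loops at `y`
    have hnly : ∀ p, M.node p = y → M.node (M.mate p) ≠ y := by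
      intro p hp h
      rcases (hFy.2.2.2 p).1 hp with h' | h' | h'
      · rw [h', hq0, hp0] at h; exact hxy h
      · rw [h', hq1, hFx.n2] at h; exact hxy h
      · subst h'
        rcases (hFy.2.2.2 _).1 h with h'' | h'' | h''
        · have : p = p0 := by rw [← hG.inv p (hA0y p hp), h'', hq0]
          rw [this, hp0] at hp; exact hxy hp
        · have : p = p1 := by rw [← hG.inv p (hA0y p hp), h'', hq1]
          rw [this, hFx.n2] at hp; exact hxy hp
        · exact hG.ne p (hA0y p hp) h''
    have ht2 : upd typ (M.mate p0) (M.mate p1) (M.mate p2) 6 4 4 r2 < 6 := by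
      unfold upd
      rw [if_neg hFy.2.1.symm]
      split_ifs
      · norm_num
      · norm_num
      · exact ht r2 (by rw [hFy.n3]; exact hy)
    have hloc : Loc (spec M ((A.erase x).erase y)
        (upd typ (M.mate p0) (M.mate p1) (M.mate p2) 6 4 4) r2)
        (spec M ((A.erase x).erase y)
        (upd typ (M.mate p0) (M.mate p1) (M.mate p2) 6 4 4) (M.mate p1))
        (spec M ((A.erase x).erase y)
        (upd typ (M.mate p0) (M.mate p1) (M.mate p2) 6 4 4) (M.mate p0)) 0 0 0 6 := by
      rw [hempty]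
      unfold spec
      rw [if_neg (Finset.notMem_empty _), if_neg (Finset.notMem_empty _),
        if_neg (Finset.notMem_empty _), upd_1, upd_2 _ hd01]
      exact loc_of_locb (loc_closed' ⟨_, ht2⟩)
    obtain ⟨s', d', hv', hc'⟩ := ext_upd hG hA' hyA' (hFy.swap12.swap23.swap12)
      (upd typ (M.mate p0) (M.mate p1) (M.mate p2) 6 4 4) (fun _ => false) (fun _ => false)
      (by rw [hempty]; exact valid_empty _ _ _) hnly hloc
    rw [hempty, cost_empty] at hc'
    obtain ⟨s, d, hv, hc⟩ := ext_upd hG hA hx hFx typ s' d' hv' hnl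
      (δ := 0) (by rw [f0, f1]; exact loc_exc' (Or.inl ⟨rfl, rfl⟩) f2)
    exact ⟨s, d, hv, by linarith⟩
  | cons z l =>
    have hadj2 : M.adj y z :=
      (List.isChain_cons_cons.1 (List.isChain_cons_cons.1 hL.1.2.2).2).1
    have hz : z ∈ A := hL.1.2.1 z (by simp)
    have hyz : y ≠ z := hadj2.1
    have hxz : x ≠ z := by
      intro h
      have := (List.nodup_cons.1 hL.1.1).1
      apply this; rw [h]; simp
    obtain ⟨-, r1, hr1, hmr1⟩ := hadj2
    have hr1q0 : r1 ≠ M.mate p0 := fun h => hxz (by rw [← hmr1, h, hq0, hp0])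
    obtain ⟨r2, hFy⟩ : ∃ r2, Fib M y (M.mate p0) r1 r2 := by
      rcases (hFc.2.2.2 _).1 hr1 with h | h | h
      · exact absurd h hr1q0
      · rw [h]; exact ⟨c2, hFc⟩
      · rw [h]; exact ⟨c1, hFc.swap23⟩
    have hr2 : M.node r2 = y := hFy.n3
    have hzA'' : z ∈ (A.erase x).erase y :=
      Finset.mem_erase.2 ⟨hyz.symm, Finset.mem_erase.2 ⟨hxz.symm, hz⟩⟩
    have hinv1 : M.mate (M.mate r1) = r1 := hG.inv r1 (hA0y r1 hr1)
    have hnly : ∀ p, M.node p = y → M.node (M.mate p) ≠ y := by
      intro p hp h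
      rcases (hFy.2.2.2 p).1 hp with h' | h' | h'
      · rw [h', hq0, hp0] at h; exact hxy h
      · rw [h', hmr1] at h; exact hyz h.symm
      · subst h'
        rcases (hFy.2.2.2 _).1 h with h'' | h'' | h''
        · have : p = p0 := by rw [← hG.inv p (hA0y p hp), h'', hq0]
          rw [this, hp0] at hp; exact hxy hp
        · have : p = M.mate r1 := by rw [← hG.inv p (hA0y p hp), h'']
          rw [this, hmr1] at hp; exact hyz hp.symm
        · exact hG.ne p (hA0y p hp) h''
    have hconn : M.Conn ((A.erase x).erase y) := by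
      refine conn_erase_two hG hA hL hC ?_
      intro w hw hwL hyw
      have hwL' : w ∉ y :: z :: l := fun h => hwL (List.mem_cons_of_mem _ h)
      have hwx : w ≠ x := fun h => hwL (h ▸ List.mem_cons_self)
      have hwz : w ≠ z := fun h => hwL' (by rw [h]; simp)
      have hL' := swap_head hG hA hL hw hwL' hyw
      obtain ⟨w1, w2, w3, hFw, g1, g2, -, -⟩ := hexc w _ hL'
      have hA0w : ∀ p, M.node p = w → M.node p ∈ A0 := fun p h => hA (by rw [h]; exact hw)
      have hcase : ∀ b, M.node b = w → spec M (A.erase w) typ b = 0 →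
          (∃ v ∈ z :: l, M.adj w v) ∨ M.mate b = r2 := by
        intro b hb hs
        obtain ⟨h1, -⟩ := spec_zero hs
        have hadjb : M.adj w (M.node (M.mate b)) := ⟨(Finset.mem_erase.1 h1).1.symm, b, hb, rfl⟩
        have h2 := head_nbrs hG hA hL' (Finset.mem_erase.1 h1).2 hadjb
        rcases List.mem_cons.1 h2 with h3 | h3
        · right
          rcases (hFy.2.2.2 _).1 h3 with h | h | h
          · exfalso; apply hwx
            have := mate_inj hG (hA0w b hb) (hA0x p0 hp0) h
            rw [← hb, this, hp0]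
          · exfalso; apply hwz
            have : b = M.mate r1 := by rw [← h, hG.inv b (hA0w b hb)]
            rw [← hb, this, hmr1]
          · exact h
        · left; exact ⟨_, h3, hadjb⟩
      rcases hcase w1 hFw.n1 g1 with h | h
      · exact h
      rcases hcase w2 hFw.n2 g2 with h' | h'
      · exact h'
      · exact absurd (mate_inj hG (hA0w _ hFw.n1) (hA0w _ hFw.n2) (h.trans h'.symm)) hFw.1
    -- the choice of the auxiliary types
    obtain ⟨u, z1, huz, hrule⟩ : ∃ u z1 : ℕ,
        ((u = 6 ∧ z1 = 4) ∨ (u = 7 ∧ z1 = 0) ∨ (u = 8 ∧ z1 = 2)) ∧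
        ((u = 6 ∧ z1 = 4 ∧ (M.node (M.mate r2) ∉ A → typ r2 ≠ 1 ∧ typ r2 ≠ 5)) ∨
         (u = 7 ∧ z1 = 0 ∧ M.node (M.mate r2) ∉ A ∧ typ r2 = 1) ∨
         (u = 8 ∧ z1 = 2 ∧ M.node (M.mate r2) ∉ A ∧ typ r2 = 5)) := by
      by_cases h1 : M.node (M.mate r2) ∉ A
      · by_cases h2 : typ r2 = 1
        · exact ⟨7, 0, Or.inr (Or.inl ⟨rfl, rfl⟩), Or.inr (Or.inl ⟨rfl, rfl, h1, h2⟩)⟩
        · by_cases h3 : typ r2 = 5
          · exact ⟨8, 2, Or.inr (Or.inr ⟨rfl, rfl⟩), Or.inr (Or.inr ⟨rfl, rfl, h1, h3⟩)⟩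
          · exact ⟨6, 4, Or.inl ⟨rfl, rfl⟩, Or.inl ⟨rfl, rfl, fun _ => ⟨h2, h3⟩⟩⟩
      · exact ⟨6, 4, Or.inl ⟨rfl, rfl⟩, Or.inl ⟨rfl, rfl, fun h => absurd h h1⟩⟩
    have hz16 : z1 < 6 := by rcases huz with h | h | h <;> omega
    set typ' := upd typ (M.mate p0) (M.mate p1) (M.mate p2) u z1 4 with htyp'
    have hs0 : spec M ((A.erase x).erase y) typ' (M.mate p0) = 5 + u := by
      unfold spec
      rw [hq0, hp0, if_neg (by simp), htyp', upd_1]
    have hs1 : spec M ((A.erase x).erase y) typ' r1 = M.lab r1 := by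
      unfold spec
      rw [hmr1, if_pos hzA'']
    have hlab1 : M.lab r1 < 5 := hG.lab_lt r1 (hA0y r1 hr1)
    have hs2 : (u = 6 ∧ (spec M ((A.erase x).erase y) typ' r2 < 5 ∨
        spec M ((A.erase x).erase y) typ' r2 = 5 ∨ spec M ((A.erase x).erase y) typ' r2 = 7 ∨
        spec M ((A.erase x).erase y) typ' r2 = 8 ∨ spec M ((A.erase x).erase y) typ' r2 = 9)) ∨
        (u = 7 ∧ spec M ((A.erase x).erase y) typ' r2 = 6) ∨
        (u = 8 ∧ spec M ((A.erase x).erase y) typ' r2 = 10) := by
      by_cases hmA'' : M.node (M.mate r2) ∈ (A.erase x).erase y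
      · have hmA : M.node (M.mate r2) ∈ A :=
          (Finset.mem_erase.1 (Finset.mem_erase.1 hmA'').2).2
        have h1 : spec M ((A.erase x).erase y) typ' r2 < 5 := by
          unfold spec; rw [if_pos hmA'']; exact hG.lab_lt r2 (hA0y r2 hr2)
        rcases hrule with h | h | h
        · exact Or.inl ⟨h.1, Or.inl h1⟩
        · exact absurd hmA h.2.2.1
        · exact absurd hmA h.2.2.1
      · have h1 : spec M ((A.erase x).erase y) typ' r2 = 5 + typ' r2 := by
          unfold spec; rw [if_neg hmA'']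
        rw [h1]
        by_cases hmx : M.node (M.mate r2) = x
        · have hmA : M.node (M.mate r2) ∈ A := by rw [hmx]; exact hx
          have hinv2 : M.mate (M.mate r2) = r2 := hG.inv r2 (hA0y r2 hr2)
          have hu : u = 6 ∧ z1 = 4 := by
            rcases hrule with h | h | h
            · exact ⟨h.1, h.2.1⟩
            · exact absurd hmA h.2.2.1
            · exact absurd hmA h.2.2.1
          have h4 : typ' r2 = 4 := by
            rcases (hFx.2.2.2 _).1 hmx with h | h | h
            · exfalso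
              exact hFy.2.1 (by rw [← h, hinv2])
            · have : r2 = M.mate p1 := by rw [← h, hinv2]
              rw [this, htyp', upd_2 _ hd01]; exact hu.2
            · have : r2 = M.mate p2 := by rw [← h, hinv2]
              rw [this, htyp', upd_3 _ hd02 hd12]
          rw [h4]; left; exact ⟨hu.1, by omega⟩
        · have hmA : M.node (M.mate r2) ∉ A := by
            intro h
            apply hmA''
            exact Finset.mem_erase.2 ⟨hnly r2 hr2, Finset.mem_erase.2 ⟨hmx, h⟩⟩
          have h2 : typ' r2 = typ r2 := by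
            rw [htyp']
            refine upd_ne _ (fun h => hmx ?_) (fun h => hmx ?_) (fun h => hmx ?_) _ _ _
            · rw [h, hq0, hp0]
            · rw [h, hq1, hFx.n2]
            · rw [h, hq2, hFx.n3]
          have h3 : typ r2 < 6 := ht r2 (by rw [hr2]; exact hy)
          rw [h2]
          rcases hrule with h | h | h
          · obtain ⟨k1, k2⟩ := h.2.2 hmA
            left; exact ⟨h.1, by omega⟩
          · right; left; exact ⟨h.1, by rw [h.2.2.2]⟩
          · right; right; exact ⟨h.1, by rw [h.2.2.2]⟩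
    -- sorted ports of `y`
    obtain ⟨t1, t2, hFt, hgood⟩ : ∃ t1 t2, Fib M y t1 t2 (M.mate p0) ∧
        goodb (spec M ((A.erase x).erase y) typ' t1) (spec M ((A.erase x).erase y) typ' t2)
          (spec M ((A.erase x).erase y) typ' (M.mate p0)) = true := by
      by_cases hlt : spec M ((A.erase x).erase y) typ' r2 < M.lab r1
      · refine ⟨r2, r1, hFy.swap12.swap23.swap12, ?_⟩
        rw [hs0, hs1]
        unfold goodb
        simp only [Bool.and_eq_true, Bool.or_eq_true, decide_eq_true_eq, beq_iff_eq,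
          Bool.not_eq_true']
        refine ⟨⟨⟨by omega, by omega⟩, by omega⟩, ?_⟩
        left; left; right
        refine ⟨by omega, ?_⟩
        left; left; left; left; omega
      · refine ⟨r1, r2, hFy.swap12.swap23, ?_⟩
        rw [hs0, hs1]
        unfold goodb
        simp only [Bool.and_eq_true, Bool.or_eq_true, decide_eq_true_eq, beq_iff_eq,
          Bool.not_eq_true']
        refine ⟨⟨⟨by omega, by omega⟩, by omega⟩, ?_⟩
        rcases hs2 with h | h | h
        · left; left; right
          refine ⟨by omega, ?_⟩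
          rcases h.2 with h' | h' | h' | h' | h'
          · left; left; left; left; exact h'
          · left; left; left; right; exact h'
          · left; left; right; exact h'
          · left; right; exact h'
          · right; exact h'
        · left; right; exact ⟨by omega, h.2⟩
        · right; exact ⟨by omega, h.2⟩
    obtain ⟨y1, y2, y3, hy1, hy2, hy3, hloc⟩ := loc_good _ _ _ hgood
    obtain ⟨s'', d'', hv'', hc''⟩ := hrec ⟨z, hzA''⟩ hconn
      (upd typ' (M.mate t1) (M.mate t2) (M.mate (M.mate p0)) y1 y2 y3) (by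
        intro p hp
        unfold upd
        split_ifs with k1 k2 k3
        · exact hy1
        · exact hy2
        · exact hy3
        · rw [htyp']
          unfold upd
          split_ifs with k4 k5 k6
          · exfalso; rw [k4, hmp0] at hp; simp at hp
          · exact hz16
          · norm_num
          · exact ht p (Finset.mem_erase.1 (Finset.mem_erase.1 hp).2).2)
    obtain ⟨s', d', hv', hc'⟩ := ext_upd hG hA' hyA' hFt typ' s'' d'' hv'' hnly hloc
    obtain ⟨s, d, hv, hc⟩ := ext_upd hG hA hx hFx typ s' d' hv' hnl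
      (δ := 0) (by rw [f0, f1]; exact loc_exc' huz f2)
    exact ⟨s, d, hv, by linarith⟩

/-- A single node. -/
lemma single_node {A0 A : Finset N} (hG : M.Good A0) (hA : A ⊆ A0) {x : N} (hAx : A = {x})
    (typ : P → ℕ) (ht : ∀ p, M.node p ∈ A → typ p < 6) :
    ∃ s d, M.valid A typ s d ∧ M.cost A typ s d ≤ 6 := by
  have hx : x ∈ A := by rw [hAx]; simp
  have hempty : A.erase x = ∅ := by rw [hAx]; simp
  have hA0 : ∀ p, M.node p = x → M.node p ∈ A0 := fun p h => hA (by rw [h]; exact hx)
  obtain ⟨a1, a2, a3, hF0⟩ := hG.three x (hA hx)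
  have hF : Fib M x a1 a2 a3 := hF0
  by_cases hloop : ∃ p, M.node p = x ∧ M.node (M.mate p) = x
  · obtain ⟨p2, hp2, hm2⟩ := hloop
    obtain ⟨b1, b2, hF1⟩ := hF.first hp2
    have hmne : M.mate p2 ≠ p2 := hG.ne p2 (hA0 p2 hp2)
    have : ∃ p1, Fib M x p1 p2 (M.mate p2) := by
      rcases (hF1.2.2.2 _).1 hm2 with h | h | h
      · exact absurd h hmne
      · rw [h]; exact ⟨b2, hF1.swap23.swap12⟩
      · rw [h]; exact ⟨b1, hF1.swap12⟩
    obtain ⟨p1, hF2⟩ := this
    have hm1 : M.node (M.mate p1) ≠ x := by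
      intro h
      rcases (hF2.2.2.2 _).1 h with h' | h' | h'
      · exact hG.ne p1 (hA0 p1 hF2.n1) h'
      · apply hF2.2.1
        rw [← h', hG.inv p1 (hA0 p1 hF2.n1)]
      · exact hF2.1 (mate_inj hG (hA0 p1 hF2.n1) (hA0 p2 hp2) h')
    have hlt2 : M.lab p2 < 5 := hG.lab_lt p2 (hA0 p2 hp2)
    have hlne : M.lab p2 ≠ 0 := hG.loop p2 (hA0 p2 hp2) (by rw [hm2, hp2])
    have hz := locl_pend ⟨typ p1, ht p1 (by rw [hF2.n1]; exact hx)⟩ ⟨M.lab p2 - 1, by omega⟩
    simp only at hz
    rw [Nat.sub_add_cancel (Nat.one_le_iff_ne_zero.2 hlne)] at hz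
    have hspec : spec M (A.erase x) typ p1 = 5 + typ p1 := by
      unfold spec; rw [hempty, if_neg (Finset.notMem_empty _)]
    obtain ⟨s, d, h1, h2⟩ := ext_loop hG hA hx hF2.1 hF2.2.1 hF2.2.2.1 hF2.2.2.2 typ
      typ (fun _ => false) (fun _ => false) 0 (fun _ _ _ => rfl)
      (fun h => by rw [hempty] at h; simp at h)
      (by rw [hempty]; exact valid_empty _ _ _) hm1 rfl (δ := 6) (by rw [hspec]; exact hz)
    refine ⟨s, d, h1, ?_⟩
    rw [hempty, cost_empty] at h2
    linarith
  · push Not at hloop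
    have hsp : ∀ p, spec M (A.erase x) typ p = 5 + typ p := by
      intro p
      unfold spec; rw [hempty, if_neg (Finset.notMem_empty _)]
    obtain ⟨s, d, h1, h2⟩ := ext_upd hG hA hx hF typ (fun _ => false) (fun _ => false)
      (z1 := 0) (z2 := 0) (z3 := 0) (δ := 6)
      (by rw [hempty]; exact valid_empty _ _ _) hloop
      (by
        rw [hsp, hsp, hsp]
        exact loc_of_locb (loc_closed ⟨typ a1, ht a1 (by rw [hF.n1]; exact hx)⟩
          ⟨typ a2, ht a2 (by rw [hF.n2]; exact hx)⟩ ⟨typ a3, ht a3 (by rw [hF.n3]; exact hx)⟩))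
    refine ⟨s, d, h1, ?_⟩
    rw [hempty, cost_empty] at h2
    linarith

/-- Main theorem on networks of triangles. -/
theorem net_main {A0 : Finset N} (hG : M.Good A0) : ∀ (n : ℕ) (A : Finset N), A ⊆ A0 →
    A.card = n → A.Nonempty → M.Conn A → ∀ typ : P → ℕ, (∀ p, M.node p ∈ A → typ p < 6) →
    ∃ s d, M.valid A typ s d ∧ M.cost A typ s d ≤ 6 := by
  intro n
  induction n using Nat.strong_induction_on with
  | _ n ih =>
    intro A hA hcard hne hC typ ht
    obtain ⟨L, hL, hLne⟩ := exists_longest (M := M) A hne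
    match L, hL, hLne with
    | [x], hL, _ =>
      have hx : x ∈ A := hL.1.2.1 x (by simp)
      have hAx : ({x} : Finset N) = A := by
        apply hC
        · intro u hu; rw [Finset.mem_singleton.1 hu]; exact hx
        · exact Finset.singleton_nonempty _
        · intro u hu v hv huv
          rw [Finset.mem_singleton.1 hu] at huv
          have := head_nbrs hG hA hL hv huv
          simp at this
      exact single_node hG hA hAx.symm typ ht
    | x :: y :: l, hL, _ =>
      by_cases hall : ∀ w l', M.Longest A (w :: l') → Exc M A typ w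
      · refine cut_pair hG hA hC typ ht hL hall ?_
        intro hne' hC' typ' ht'
        have hx : x ∈ A := hL.1.2.1 x (by simp)
        have hlt : ((A.erase x).erase y).card < n := by
          rw [← hcard]
          exact lt_of_le_of_lt (Finset.card_le_card (Finset.erase_subset _ _))
            (Finset.card_erase_lt_of_mem hx)
        exact ih _ hlt _ ((Finset.erase_subset _ _).trans ((Finset.erase_subset _ _).trans hA)) rfl
          hne' hC' typ' ht'
      · push Not at hall
        obtain ⟨w, l', hL', hnexc⟩ := hall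
        have hlen : (x :: y :: l).length ≤ (w :: l').length := hL'.2 _ hL.1
        match l', hL', hlen with
        | [], hL', hlen => simp at hlen
        | y' :: l'', hL', _ =>
          have hw : w ∈ A := hL'.1.2.1 w (by simp)
          have hy' : y' ∈ A := hL'.1.2.1 y' (by simp)
          have hadj : M.adj w y' := (List.isChain_cons_cons.1 hL'.1.2.2).1
          have hyw : y' ∈ A.erase w := Finset.mem_erase.2 ⟨hadj.1.symm, hy'⟩
          obtain ⟨-, p, hp, hmp⟩ := hadj
          rcases cut_node hG hA hw typ ht ⟨p, hp, by rw [hmp]; exact hyw⟩ (by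
            intro typ' ht'
            have hlt : (A.erase w).card < n := by
              rw [← hcard]; exact Finset.card_erase_lt_of_mem hw
            exact ih _ hlt _ ((Finset.erase_subset _ _).trans hA) rfl ⟨y', hyw⟩
              (conn_erase_head hG hA hL' hC) typ' ht') with h | h
          · exact h
          · exact absurd h hnexc

end Net

end Pool.Agent.MP_d479ed_co
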