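import Mathlib

/-!
# Finite tables for the total domination problem

All costs are scaled by `12`. `vv t d s` is the cost vector of the virtual pendant of type `t`,
`hE k s d d' s'` is half of the (normalized) cost of a link carrying `k` diamonds.
-/

namespace Pool.Agent.MP_d479ed_co

/-- `0/1` value of a Boolean. -/
def bi (b : Bool) : ℤ := cond b 1 0

/-- Cost vectors `vv t d s` of the virtual pendants. -/
def vv : ℕ → Bool → Bool → ℤ
  | 0, false, false => 1
  | 0, false, true => 1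
  | 0, true, false => 13
  | 0, true, true => 1
  | 1, false, false => 5
  | 1, false, true => -7
  | 1, true, false => 5
  | 1, true, true => 5
  | 2, false, false => 3
  | 2, false, true => 3
  | 2, true, false => 3
  | 2, true, true => 3
  | 3, false, false => 3
  | 3, false, true => -9
  | 3, true, false => 15
  | 3, true, true => 3
  | 4, false, false => -1
  | 4, false, true => -1
  | 4, true, false => -1
  | 4, true, true => -1
  | 5, false, false => 7
  | 5, false, true => 7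
  | 5, true, false => 7
  | 5, true, true => -5
  | 6, false, false => 11
  | 6, false, true => -1
  | 6, true, false => 11
  | 6, true, true => -1
  | 7, false, false => 9
  | 7, false, true => -3
  | 7, true, false => 9
  | 7, true, true => 9
  | 8, false, false => 7
  | 8, false, true => 7
  | 8, true, false => 7
  | 8, true, true => 7
  | _, _, _ => 0

/-- Half costs of links: `hE k s d d' s'`. -/
def hE : ℕ → Bool → Bool → Bool → Bool → ℤ
  | 1, false, false, false, false => 2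
  | 1, false, false, false, true => 2
  | 1, false, false, true, false => 2
  | 1, false, false, true, true => 2
  | 1, false, true, false, false => 2
  | 1, false, true, false, true => 2
  | 1, false, true, true, false => 8
  | 1, false, true, true, true => 8
  | 1, true, false, false, false => 2
  | 1, true, false, false, true => -4
  | 1, true, false, true, false => 2
  | 1, true, false, true, true => -4
  | 1, true, true, false, false => 2
  | 1, true, true, false, true => -4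
  | 1, true, true, true, false => 8
  | 1, true, true, true, true => 2
  | 2, false, false, false, false => 4
  | 2, false, false, false, true => -2
  | 2, false, false, true, false => 4
  | 2, false, false, true, true => -2
  | 2, false, true, false, false => 4
  | 2, false, true, false, true => 4
  | 2, false, true, true, false => 4
  | 2, false, true, true, true => 4
  | 2, true, false, false, false => -2
  | 2, true, false, false, true => -8
  | 2, true, false, true, false => 4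
  | 2, true, false, true, true => -2
  | 2, true, true, false, false => -2
  | 2, true, true, false, true => -2
  | 2, true, true, true, false => 4
  | 2, true, true, true, true => 4
  | 3, false, false, false, false => 0
  | 3, false, false, false, true => -6
  | 3, false, false, true, false => 6
  | 3, false, false, true, true => 0
  | 3, false, true, false, false => 6
  | 3, false, true, false, true => 0
  | 3, false, true, true, false => 6
  | 3, false, true, true, true => 0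
  | 3, true, false, false, false => -6
  | 3, true, false, false, true => -6
  | 3, true, false, true, false => 0
  | 3, true, false, true, true => 0
  | 3, true, true, false, false => 0
  | 3, true, true, false, true => 0
  | 3, true, true, true, false => 0
  | 3, true, true, true, true => 0
  | 4, false, false, false, false => -4
  | 4, false, false, false, true => -4
  | 4, false, false, true, false => 2
  | 4, false, false, true, true => 2
  | 4, false, true, false, false => 2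
  | 4, false, true, false, true => -4
  | 4, false, true, true, false => 8
  | 4, false, true, true, true => 2
  | 4, true, false, false, false => -4
  | 4, true, false, false, true => -4
  | 4, true, false, true, false => -4
  | 4, true, false, true, true => -4
  | 4, true, true, false, false => 2
  | 4, true, true, false, true => -4
  | 4, true, true, true, false => 2
  | 4, true, true, true, true => -4
  | _, _, _, _, _ => 0

/-- Feasibility of a link of label `k` with end states `(s, d)` and `(s', d')`. -/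
def lok (k : ℕ) (s d d' s' : Bool) : Bool := !(k == 0) || ((!d || s') && (!d' || s))

/-- Feasibility for a pendant of type `t`. -/
def pok (t : ℕ) (d : Bool) : Bool := !(t == 4) || !d

/-- Feasibility of a port with specification `a` (`a < 5`: link with label `a`; otherwise
pendant of type `a - 5`), outer state `(so, dO)` and own state `(S, D)`. -/
def sok (a : ℕ) (so dO S D : Bool) : Bool :=
  if a < 5 then lok a S D dO so else pok (a - 5) D

/-- Cost of a port, relative to the virtual pendant of type `z` at the outer end. -/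
def sc (a z : ℕ) (so dO S D : Bool) : ℤ :=
  12 * bi S - 5 + if a < 5 then 2 * hE a S D dO so - vv z dO so else vv (a - 5) D S

/-- The outer state is allowed by the virtual pendant of type `z`. -/
def outok (a z : ℕ) (dO : Bool) : Bool := !(a < 5) || pok z dO

/-- Domination constraints inside a triangle. -/
def nok (S1 S2 S3 D1 D2 D3 : Bool) : Bool :=
  (D1 || S2 || S3) && (D2 || S1 || S3) && (D3 || S1 || S2)

/-- Local solvability of a node with specifications `a, b, c`, outer types `z1, z2, z3`. -/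
def Loc (a b c z1 z2 z3 : ℕ) (δ : ℤ) : Prop :=
  ∀ so1 do1 so2 do2 so3 do3 : Bool, outok a z1 do1 → outok b z2 do2 → outok c z3 do3 →
    ∃ S1 S2 S3 D1 D2 D3 : Bool, nok S1 S2 S3 D1 D2 D3 = true ∧
      sok a so1 do1 S1 D1 = true ∧ sok b so2 do2 S2 D2 = true ∧ sok c so3 do3 S3 D3 = true ∧
      sc a z1 so1 do1 S1 D1 + sc b z2 so2 do2 S2 D2 + sc c z3 so3 do3 S3 D3 ≤ δ

/-- The list of node configurations satisfying the domination constraints. -/
def confs : List (Bool × Bool × Bool × Bool × Bool × Bool) :=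
  [(false, false, true, false, false, true),
   (false, true, false, false, true, false),
   (true, false, false, true, false, false),
   (false, false, true, false, true, true),
   (false, false, true, true, false, true),
   (false, true, false, false, true, true),
   (false, true, false, true, true, false),
   (true, false, false, true, false, true),
   (true, false, false, true, true, false),
   (false, false, true, true, true, true),
   (false, true, false, true, true, true),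
   (true, false, false, true, true, true),
   (false, false, false, true, true, true),
   (false, true, true, false, false, false),
   (true, false, true, false, false, false),
   (true, true, false, false, false, false),
   (false, true, true, false, false, true),
   (false, true, true, false, true, false),
   (false, true, true, true, false, false),
   (true, false, true, false, false, true),
   (true, false, true, false, true, false),
   (true, false, true, true, false, false),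
   (true, true, false, false, false, true),
   (true, true, false, false, true, false),
   (true, true, false, true, false, false),
   (false, true, true, false, true, true),
   (false, true, true, true, false, true),
   (false, true, true, true, true, false),
   (true, false, true, false, true, true),
   (true, false, true, true, false, true),
   (true, false, true, true, true, false),
   (true, true, false, false, true, true),
   (true, true, false, true, false, true),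
   (true, true, false, true, true, false),
   (false, true, true, true, true, true),
   (true, false, true, true, true, true),
   (true, true, false, true, true, true),
   (true, true, true, false, false, false),
   (true, true, true, false, false, true),
   (true, true, true, false, true, false),
   (true, true, true, true, false, false),
   (true, true, true, false, true, true),
   (true, true, true, true, false, true),
   (true, true, true, true, true, false),
   (true, true, true, true, true, true)]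

/-- Outer states to be considered for a port. -/
def outs (a z : ℕ) : List (Bool × Bool) :=
  if a < 5 then (if z = 4 then [(false, false), (true, false)]
    else [(false, false), (false, true), (true, false), (true, true)]) else [(false, false)]

/-- Boolean version of `Loc`. -/
def locb (a b c z1 z2 z3 : ℕ) (δ : ℤ) : Bool :=
  (outs a z1).all fun o1 => (outs b z2).all fun o2 => (outs c z3).all fun o3 =>
    confs.any fun x =>
      sok a o1.1 o1.2 x.1 x.2.2.2.1 && sok b o2.1 o2.2 x.2.1 x.2.2.2.2.1 &&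
      sok c o3.1 o3.2 x.2.2.1 x.2.2.2.2.2 &&
      decide (sc a z1 o1.1 o1.2 x.1 x.2.2.2.1 + sc b z2 o2.1 o2.2 x.2.1 x.2.2.2.2.1 +
        sc c z3 o3.1 o3.2 x.2.2.1 x.2.2.2.2.2 ≤ δ)

/-- Table of the virtual pendants used when a node is cut off. -/
def ztab : List (ℕ × ℕ × ℕ × ℕ × ℕ × ℕ) :=
  [(0, 0, 1, 0, 4, 0), (0, 0, 2, 0, 4, 1), (0, 0, 3, 0, 1, 3), (0, 0, 4, 0, 0, 4),
   (0, 0, 5, 0, 4, 0), (0, 0, 6, 2, 4, 0), (0, 0, 7, 0, 4, 0), (0, 0, 8, 0, 4, 0),
   (0, 0, 10, 1, 4, 0), (0, 0, 11, 4, 4, 0), (0, 1, 1, 0, 0, 2), (0, 1, 2, 0, 0, 5),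
   (0, 1, 3, 0, 0, 0), (0, 1, 4, 0, 0, 1), (0, 1, 5, 0, 0, 0), (0, 1, 6, 1, 0, 0),
   (0, 1, 7, 0, 2, 0), (0, 1, 8, 0, 2, 0), (0, 1, 9, 0, 0, 0), (0, 1, 10, 1, 2, 0),
   (0, 1, 11, 4, 0, 0), (0, 2, 2, 0, 1, 5), (0, 2, 3, 0, 0, 3), (0, 2, 4, 0, 0, 4),
   (0, 2, 5, 0, 1, 0), (0, 2, 6, 1, 1, 0), (0, 2, 7, 0, 5, 0), (0, 2, 8, 0, 5, 0),
   (0, 2, 9, 0, 1, 0), (0, 2, 10, 1, 5, 0), (0, 2, 11, 4, 1, 0), (0, 3, 3, 0, 0, 0),
   (0, 3, 4, 0, 0, 0), (0, 3, 5, 0, 0, 0), (0, 3, 6, 0, 0, 0), (0, 3, 7, 0, 0, 0),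
   (0, 3, 8, 0, 0, 0), (0, 3, 9, 0, 0, 0), (0, 3, 10, 0, 3, 0), (0, 3, 11, 1, 3, 0),
   (0, 4, 4, 0, 0, 1), (0, 4, 5, 0, 0, 0), (0, 4, 6, 0, 1, 0), (0, 4, 7, 0, 1, 0),
   (0, 4, 8, 0, 1, 0), (0, 4, 9, 0, 0, 0), (0, 4, 10, 0, 4, 0), (0, 4, 11, 0, 4, 0),
   (0, 5, 5, 0, 0, 0), (0, 5, 6, 2, 0, 0), (0, 5, 7, 0, 0, 0), (0, 5, 8, 0, 0, 0),
   (0, 5, 9, 0, 0, 0), (0, 5, 10, 1, 0, 0), (0, 5, 11, 4, 0, 0), (0, 6, 6, 4, 0, 0),
   (0, 6, 7, 1, 0, 0), (0, 6, 8, 1, 0, 0), (0, 6, 9, 0, 0, 0), (0, 6, 10, 4, 0, 0),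
   (0, 6, 12, 4, 0, 0), (0, 7, 7, 3, 0, 0), (0, 7, 8, 2, 0, 0), (0, 7, 9, 0, 0, 0),
   (0, 7, 10, 4, 0, 0), (0, 7, 11, 4, 0, 0), (0, 8, 8, 1, 0, 0), (0, 8, 9, 0, 0, 0),
   (0, 8, 10, 4, 0, 0), (0, 8, 11, 4, 0, 0), (0, 9, 9, 5, 0, 0), (0, 9, 10, 1, 0, 0),
   (0, 9, 11, 4, 0, 0), (0, 10, 10, 4, 0, 0), (0, 10, 13, 4, 0, 0), (1, 1, 1, 0, 1, 2),
   (1, 1, 2, 0, 0, 0), (1, 1, 3, 0, 0, 1), (1, 1, 4, 0, 0, 0), (1, 1, 5, 0, 1, 0),
   (1, 1, 6, 0, 0, 0), (1, 1, 7, 1, 2, 0), (1, 1, 8, 0, 5, 0), (1, 1, 9, 0, 1, 0),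
   (1, 1, 10, 0, 0, 0), (1, 1, 11, 0, 2, 0), (1, 2, 2, 0, 0, 1), (1, 2, 3, 0, 0, 0),
   (1, 2, 4, 0, 0, 0), (1, 2, 5, 0, 0, 0), (1, 2, 6, 0, 0, 0), (1, 2, 7, 0, 0, 0),
   (1, 2, 8, 0, 0, 0), (1, 2, 9, 0, 0, 0), (1, 2, 10, 0, 1, 0), (1, 2, 11, 0, 5, 0),
   (1, 3, 3, 0, 0, 0), (1, 3, 4, 0, 0, 0), (1, 3, 5, 0, 0, 0), (1, 3, 6, 0, 0, 0),
   (1, 3, 7, 0, 1, 0), (1, 3, 8, 0, 1, 0), (1, 3, 9, 0, 0, 0), (1, 3, 10, 0, 0, 0),
   (1, 3, 11, 0, 0, 0), (1, 4, 4, 0, 0, 0), (1, 4, 5, 0, 0, 0), (1, 4, 6, 0, 0, 0),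
   (1, 4, 7, 0, 0, 0), (1, 4, 8, 0, 0, 0), (1, 4, 9, 0, 0, 0), (1, 4, 10, 0, 0, 0),
   (1, 4, 11, 0, 1, 0), (1, 5, 5, 1, 0, 0), (1, 5, 6, 5, 0, 0), (1, 5, 7, 1, 0, 0),
   (1, 5, 8, 1, 0, 0), (1, 5, 9, 0, 0, 0), (1, 5, 10, 0, 0, 0), (1, 5, 11, 0, 0, 0),
   (1, 6, 6, 0, 0, 0), (1, 6, 7, 0, 0, 0), (1, 6, 8, 0, 0, 0), (1, 6, 9, 1, 0, 0),
   (1, 6, 10, 0, 0, 0), (1, 6, 12, 2, 0, 0), (1, 7, 7, 4, 0, 0), (1, 7, 8, 5, 0, 0),
   (1, 7, 9, 1, 0, 0), (1, 7, 10, 0, 0, 0), (1, 7, 11, 2, 0, 0), (1, 8, 8, 0, 0, 0),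
   (1, 8, 9, 1, 0, 0), (1, 8, 10, 0, 0, 0), (1, 8, 11, 2, 0, 0), (1, 9, 9, 0, 0, 0),
   (1, 9, 10, 0, 0, 0), (1, 9, 11, 0, 0, 0), (1, 10, 10, 2, 0, 0), (1, 10, 13, 2, 0, 0),
   (2, 2, 2, 0, 0, 5), (2, 2, 3, 0, 0, 0), (2, 2, 4, 0, 0, 1), (2, 2, 5, 0, 0, 0),
   (2, 2, 6, 0, 1, 0), (2, 2, 7, 0, 1, 0), (2, 2, 8, 0, 1, 0), (2, 2, 9, 0, 0, 0),
   (2, 2, 10, 0, 5, 0), (2, 2, 11, 1, 5, 0), (2, 3, 3, 0, 0, 0), (2, 3, 4, 0, 0, 0),
   (2, 3, 5, 0, 0, 0), (2, 3, 6, 0, 0, 0), (2, 3, 7, 0, 0, 0), (2, 3, 8, 0, 0, 0),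
   (2, 3, 9, 0, 0, 0), (2, 3, 10, 0, 0, 0), (2, 3, 11, 0, 3, 0), (2, 4, 4, 0, 0, 0),
   (2, 4, 5, 0, 0, 0), (2, 4, 6, 0, 0, 0), (2, 4, 7, 0, 0, 0), (2, 4, 8, 0, 0, 0),
   (2, 4, 9, 0, 0, 0), (2, 4, 10, 0, 1, 0), (2, 4, 11, 0, 4, 0), (2, 5, 5, 0, 0, 0),
   (2, 5, 6, 0, 0, 0), (2, 5, 7, 0, 0, 0), (2, 5, 8, 0, 0, 0), (2, 5, 9, 0, 0, 0),
   (2, 5, 10, 0, 0, 0), (2, 5, 11, 1, 0, 0), (2, 6, 6, 1, 0, 0), (2, 6, 7, 0, 0, 0),
   (2, 6, 8, 0, 0, 0), (2, 6, 9, 0, 0, 0), (2, 6, 10, 1, 0, 0), (2, 6, 12, 5, 0, 0),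
   (2, 7, 7, 0, 0, 0), (2, 7, 8, 0, 0, 0), (2, 7, 9, 0, 0, 0), (2, 7, 10, 1, 0, 0),
   (2, 7, 11, 5, 0, 0), (2, 8, 8, 0, 0, 0), (2, 8, 9, 0, 0, 0), (2, 8, 10, 1, 0, 0),
   (2, 8, 11, 5, 0, 0), (2, 9, 9, 1, 0, 0), (2, 9, 10, 0, 0, 0), (2, 9, 11, 1, 0, 0),
   (2, 10, 10, 5, 0, 0), (2, 10, 13, 5, 0, 0), (3, 3, 3, 0, 0, 0), (3, 3, 4, 0, 0, 0),
   (3, 3, 5, 0, 0, 0), (3, 3, 6, 0, 0, 0), (3, 3, 7, 0, 0, 0), (3, 3, 8, 0, 0, 0),
   (3, 3, 9, 0, 0, 0), (3, 3, 10, 0, 0, 0), (3, 3, 11, 0, 0, 0), (3, 4, 4, 0, 0, 0),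
   (3, 4, 5, 0, 0, 0), (3, 4, 6, 0, 0, 0), (3, 4, 7, 0, 0, 0), (3, 4, 8, 0, 0, 0),
   (3, 4, 9, 0, 0, 0), (3, 4, 10, 0, 0, 0), (3, 4, 11, 0, 0, 0), (3, 5, 5, 0, 0, 0),
   (3, 5, 6, 1, 0, 0), (3, 5, 7, 0, 0, 0), (3, 5, 8, 0, 0, 0), (3, 5, 9, 0, 0, 0),
   (3, 5, 10, 0, 0, 0), (3, 5, 11, 0, 0, 0), (3, 6, 6, 0, 0, 0), (3, 6, 7, 0, 0, 0),
   (3, 6, 8, 0, 0, 0), (3, 6, 9, 0, 0, 0), (3, 6, 10, 0, 0, 0), (3, 6, 12, 0, 0, 0),
   (3, 7, 7, 1, 0, 0), (3, 7, 8, 1, 0, 0), (3, 7, 9, 0, 0, 0), (3, 7, 10, 0, 0, 0),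
   (3, 7, 11, 0, 0, 0), (3, 8, 8, 0, 0, 0), (3, 8, 9, 0, 0, 0), (3, 8, 10, 0, 0, 0),
   (3, 8, 11, 0, 0, 0), (3, 9, 9, 0, 0, 0), (3, 9, 10, 0, 0, 0), (3, 9, 11, 0, 0, 0),
   (3, 10, 10, 0, 0, 0), (3, 10, 13, 0, 0, 0), (4, 4, 4, 0, 0, 0), (4, 4, 5, 0, 0, 0),
   (4, 4, 6, 0, 0, 0), (4, 4, 7, 0, 0, 0), (4, 4, 8, 0, 0, 0), (4, 4, 9, 0, 0, 0),
   (4, 4, 10, 0, 0, 0), (4, 4, 11, 0, 1, 0), (4, 5, 5, 0, 0, 0), (4, 5, 6, 0, 0, 0),
   (4, 5, 7, 0, 0, 0), (4, 5, 8, 0, 0, 0), (4, 5, 9, 0, 0, 0), (4, 5, 10, 0, 0, 0),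
   (4, 5, 11, 0, 0, 0), (4, 6, 6, 0, 0, 0), (4, 6, 7, 0, 0, 0), (4, 6, 8, 0, 0, 0),
   (4, 6, 9, 0, 0, 0), (4, 6, 10, 0, 0, 0), (4, 6, 12, 1, 0, 0), (4, 7, 7, 0, 0, 0),
   (4, 7, 8, 0, 0, 0), (4, 7, 9, 0, 0, 0), (4, 7, 10, 0, 0, 0), (4, 7, 11, 1, 0, 0),
   (4, 8, 8, 0, 0, 0), (4, 8, 9, 0, 0, 0), (4, 8, 10, 0, 0, 0), (4, 8, 11, 1, 0, 0),
   (4, 9, 9, 0, 0, 0), (4, 9, 10, 0, 0, 0), (4, 9, 11, 0, 0, 0), (4, 10, 10, 1, 0, 0),
   (4, 10, 13, 1, 0, 0)]

theorem ztab_ok : (ztab.all fun t => locb t.1 t.2.1 t.2.2.1 t.2.2.2.1 t.2.2.2.2.1 t.2.2.2.2.2 0) = true := by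
  decide +kernel

end Pool.Agent.MP_d479ed_co
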